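import Mathlib

set_option autoImplicit false
set_option linter.unusedSectionVars false

/-!
# The relations forced by the vanishing on Weyl tensors: pure algebra

`L i j` are elements of a `ℂ`-algebra which satisfy the commutation relations of `so(n)` and the
quadratic relations `r1`, `r2`, `r3` (vanishing of the curvature endomorphism on Weyl tensors).
-/

namespace Pool.Agent.Hhelper14.EW

variable {n : ℕ} {A : Type*} [Ring A] [Algebra ℂ A]

/-- The relations, for pairwise distinct indices. -/
structure Rel (L : Fin n → Fin n → A) : Prop where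
  anti : ∀ i j, L i j = - L j i
  c1 : ∀ i j k, i ≠ j → j ≠ k → i ≠ k → L i j * L j k - L j k * L i j = L i k
  c0 : ∀ i j k l, i ≠ k → i ≠ l → j ≠ k → j ≠ l → L i j * L k l = L k l * L i j
  r1 : ∀ i j k l, i ≠ j → i ≠ k → i ≠ l → j ≠ k → j ≠ l → k ≠ l →
    L i j * L i j + L k l * L k l = L i k * L i k + L j l * L j l
  r2 : ∀ i j k l, i ≠ j → i ≠ k → i ≠ l → j ≠ k → j ≠ l → k ≠ l →
    L i j * L k j + L k j * L i j = L i l * L k l + L k l * L i l
  r3 : ∀ i j k l, i ≠ j → i ≠ k → i ≠ l → j ≠ k → j ≠ l → k ≠ l →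
    L i j * L k l = L i k * L l j

/-- in a complex algebra `a + a = 0` forces `a = 0` -/
theorem add_self_zero {a : A} (h : a + a = 0) : a = 0 := by
  have : (2 : ℂ) • a = 0 := by rw [two_smul]; exact h
  rcases smul_eq_zero.mp this with h2 | h2
  · exact absurd h2 two_ne_zero
  · exact h2

theorem add_self_inj {a b : A} (h : a + a = b + b) : a = b := by
  have : (a - b) + (a - b) = 0 := by
    have : (a - b) + (a - b) = (a + a) - (b + b) := by abel
    rw [this, h, sub_self]
  exact sub_eq_zero.mp (add_self_zero this)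

/-- finitely many indices can be avoided -/
theorem exists_avoid (s : Finset (Fin n)) (h : s.card < n) : ∃ j, j ∉ s := by
  by_contra hc
  push Not at hc
  have : s = Finset.univ := Finset.eq_univ_iff_forall.mpr hc
  rw [this, Finset.card_univ, Fintype.card_fin] at h
  exact lt_irrefl _ h

theorem avoid2 (hn : 5 ≤ n) (i k : Fin n) : ∃ j, j ≠ i ∧ j ≠ k := by
  obtain ⟨j, hj⟩ := exists_avoid ({i, k} : Finset (Fin n))
    (lt_of_le_of_lt (Finset.card_le_two) (by omega))
  simp only [Finset.mem_insert, Finset.mem_singleton, not_or] at hj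
  exact ⟨j, hj.1, hj.2⟩

theorem avoid3 (hn : 5 ≤ n) (a b c : Fin n) : ∃ j, j ≠ a ∧ j ≠ b ∧ j ≠ c := by
  obtain ⟨j, hj⟩ := exists_avoid ({a, b, c} : Finset (Fin n))
    (lt_of_le_of_lt (Finset.card_le_three) (by omega))
  simp only [Finset.mem_insert, Finset.mem_singleton, not_or] at hj
  exact ⟨j, hj.1, hj.2.1, hj.2.2⟩

theorem avoid4 (hn : 5 ≤ n) (a b c d : Fin n) : ∃ j, j ≠ a ∧ j ≠ b ∧ j ≠ c ∧ j ≠ d := by
  obtain ⟨j, hj⟩ := exists_avoid ({a, b, c, d} : Finset (Fin n))
    (lt_of_le_of_lt (Finset.card_le_four) (by omega))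
  simp only [Finset.mem_insert, Finset.mem_singleton, not_or] at hj
  exact ⟨j, hj.1, hj.2.1, hj.2.2.1, hj.2.2.2⟩

open Classical in
/-- the auxiliary index -/
noncomputable def aux (i k : Fin n) : Fin n := if h : ∃ j, j ≠ i ∧ j ≠ k then h.choose else i

/-- the anticommutator `S i k = {L i j, L k j}`, for any third index `j` -/
noncomputable def S (L : Fin n → Fin n → A) (i k : Fin n) : A :=
  L i (aux i k) * L k (aux i k) + L k (aux i k) * L i (aux i k)

variable {L : Fin n → Fin n → A}

theorem S_eq (hn : 5 ≤ n) (h : Rel L) {i k j : Fin n} (hik : i ≠ k) (hi : i ≠ j) (hk : k ≠ j) :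
    S L i k = L i j * L k j + L k j * L i j := by
  have hex := avoid2 hn i k
  have hs : aux i k = hex.choose := by unfold aux; rw [dif_pos hex]
  have h1 := hex.choose_spec
  unfold S
  rw [hs]
  set m := hex.choose
  by_cases hm : m = j
  · rw [hm]
  · exact h.r2 i m k j (Ne.symm h1.1) hik hi h1.2 hm hk

theorem S_symm (hn : 5 ≤ n) (h : Rel L) {i k : Fin n} (hik : i ≠ k) : S L i k = S L k i := by
  obtain ⟨j, h1, h2⟩ := avoid2 hn i k
  rw [S_eq hn h hik (Ne.symm h1) (Ne.symm h2), S_eq hn h (Ne.symm hik) (Ne.symm h2) (Ne.symm h1),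
    add_comm]

/-- `2 L_ab L_bc = L_ac - S_ac` -/
theorem P1 (hn : 5 ≤ n) (h : Rel L) {a b c : Fin n} (hab : a ≠ b) (hbc : b ≠ c) (hac : a ≠ c) :
    L a b * L b c + L a b * L b c = L a c - S L a c := by
  rw [S_eq hn h hac hab (Ne.symm hbc), ← h.c1 a b c hab hbc hac, h.anti c b]
  noncomm_ring

/-- `L_ij` commutes with `S_kl` for distinct indices -/
theorem comm_LS (hn : 5 ≤ n) (h : Rel L) {i j k l : Fin n} (hik : i ≠ k) (hil : i ≠ l)
    (hjk : j ≠ k) (hjl : j ≠ l) (hkl : k ≠ l) : L i j * S L k l = S L k l * L i j := by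
  obtain ⟨m, m1, m2, m3, m4⟩ := avoid4 hn i j k l
  rw [S_eq hn h hkl (Ne.symm m3) (Ne.symm m4)]
  have e1 := h.c0 i j k m hik (Ne.symm m1) hjk (Ne.symm m2)
  have e2 := h.c0 i j l m hil (Ne.symm m1) hjl (Ne.symm m2)
  calc L i j * (L k m * L l m + L l m * L k m)
      = (L i j * L k m) * L l m + (L i j * L l m) * L k m := by noncomm_ring
    _ = (L k m * L i j) * L l m + (L l m * L i j) * L k m := by rw [e1, e2]
    _ = L k m * (L i j * L l m) + L l m * (L i j * L k m) := by noncomm_ring
    _ = (L k m * L l m + L l m * L k m) * L i j := by rw [e1, e2]; noncomm_ring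

/-- `[L_ij, S_jk] = S_ik` -/
theorem brack_S1 (hn : 5 ≤ n) (h : Rel L) {i j k : Fin n} (hij : i ≠ j) (hjk : j ≠ k)
    (hik : i ≠ k) : L i j * S L j k - S L j k * L i j = S L i k := by
  obtain ⟨l, l1, l2, l3⟩ := avoid3 hn i j k
  rw [S_eq hn h hjk (Ne.symm l2) (Ne.symm l3), S_eq hn h hik (Ne.symm l1) (Ne.symm l3)]
  have e1 := h.c1 i j l hij (Ne.symm l2) (Ne.symm l1)
  have e2 := h.c0 i j k l hik (Ne.symm l1) hjk (Ne.symm l2)
  have e1' : L i j * L j l = L i l + L j l * L i j := by rw [← e1]; abel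
  calc L i j * (L j l * L k l + L k l * L j l) - (L j l * L k l + L k l * L j l) * L i j
      = (L i j * L j l) * L k l + (L i j * L k l) * L j l
        - (L j l * (L k l * L i j) + L k l * (L j l * L i j)) := by noncomm_ring
    _ = (L i l + L j l * L i j) * L k l + (L k l * L i j) * L j l
        - (L j l * (L i j * L k l) + L k l * (L j l * L i j)) := by rw [e1', e2]
    _ = L i l * L k l + L k l * (L i j * L j l) - L k l * (L j l * L i j) := by noncomm_ring
    _ = L i l * L k l + L k l * L i l := by rw [e1']; noncomm_ring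

/-- `[L_ij, S_ij] = 2 (L_il^2 - L_jl^2)` -/
theorem brack_S2 (hn : 5 ≤ n) (h : Rel L) {i j l : Fin n} (hij : i ≠ j) (hil : i ≠ l)
    (hjl : j ≠ l) : L i j * S L i j - S L i j * L i j
      = (L i l * L i l - L j l * L j l) + (L i l * L i l - L j l * L j l) := by
  rw [S_eq hn h hij hil hjl]
  have e1 := h.c1 i j l hij hjl hil
  have e1' : L i j * L j l = L i l + L j l * L i j := by rw [← e1]; abel
  have e2 := h.c1 j i l (Ne.symm hij) hil hjl
  have e2' : L i j * L i l = L i l * L i j - L j l := by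
    rw [← e2, h.anti j i]; noncomm_ring
  calc L i j * (L i l * L j l + L j l * L i l) - (L i l * L j l + L j l * L i l) * L i j
      = (L i j * L i l) * L j l + (L i j * L j l) * L i l
        - (L i l * (L j l * L i j) + L j l * (L i l * L i j)) := by noncomm_ring
    _ = (L i l * L i j - L j l) * L j l + (L i l + L j l * L i j) * L i l
        - (L i l * (L j l * L i j) + L j l * (L i l * L i j)) := by rw [e1', e2']
    _ = L i l * (L i j * L j l) - L j l * L j l + L i l * L i l + L j l * (L i j * L i l)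
        - (L i l * (L j l * L i j) + L j l * (L i l * L i j)) := by noncomm_ring
    _ = (L i l * L i l - L j l * L j l) + (L i l * L i l - L j l * L j l) := by
        rw [e1', e2']; noncomm_ring

/-- the key antisymmetry `L_ij S_kl = - L_ik S_jl` -/
theorem R4 (hn : 5 ≤ n) (h : Rel L) {i j k l : Fin n} (hij : i ≠ j) (hik : i ≠ k) (hil : i ≠ l)
    (hjk : j ≠ k) (hjl : j ≠ l) (hkl : k ≠ l) : L i j * S L k l = - (L i k * S L j l) := by
  obtain ⟨m, m1, m2, m3, m4⟩ := avoid4 hn i j k l
  -- 2 L_ij L_km L_ml in two ways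
  have a1 := P1 hn h (a := k) (b := m) (c := l) (Ne.symm m3) m4 hkl
  have a2 := P1 hn h (a := j) (b := m) (c := l) (Ne.symm m2) m4 hjl
  have b1 := h.r3 i j k m hij hik (Ne.symm m1) hjk (Ne.symm m2) (Ne.symm m3)
  have b2 := h.r3 i j k l hij hik hil hjk hjl hkl
  have e1 : L i j * L k m * L m l + L i j * L k m * L m l
      = L i j * L k l - L i j * S L k l := by
    calc L i j * L k m * L m l + L i j * L k m * L m l
        = L i j * (L k m * L m l + L k m * L m l) := by noncomm_ring
      _ = L i j * L k l - L i j * S L k l := by rw [a1]; noncomm_ring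
  have e2 : L i j * L k m * L m l + L i j * L k m * L m l
      = - (L i k * L j l) + L i k * S L j l := by
    rw [b1, h.anti m j]
    calc L i k * -L j m * L m l + L i k * -L j m * L m l
        = - (L i k * (L j m * L m l + L j m * L m l)) := by noncomm_ring
      _ = - (L i k * L j l) + L i k * S L j l := by rw [a2]; noncomm_ring
  have b2' : - (L i k * L j l) = L i j * L k l := by rw [b2, h.anti l j]; noncomm_ring
  rw [e1, b2'] at e2
  have : L i j * L k l - L i j * S L k l - (L i j * L k l + L i k * S L j l) = 0 := by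
    rw [e2]; abel
  have h3 : L i j * S L k l = - (L i k * S L j l)
      - (L i j * L k l - L i j * S L k l - (L i j * L k l + L i k * S L j l)) := by abel
  rw [h3, this, sub_zero]

/-- `L_ij S_kl = 0` for distinct indices -/
theorem LS_zero (hn : 5 ≤ n) (h : Rel L) {i j k l : Fin n} (hij : i ≠ j) (hik : i ≠ k)
    (hil : i ≠ l) (hjk : j ≠ k) (hjl : j ≠ l) (hkl : k ≠ l) : L i j * S L k l = 0 := by
  have e : L i j * S L k l = - (L i j * S L k l) := by
    calc L i j * S L k l = L i j * S L l k := by rw [S_symm hn h hkl]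
      _ = - (L i l * S L j k) := R4 hn h hij hil hik hjl hjk (Ne.symm hkl)
      _ = - (L i l * S L k j) := by rw [S_symm hn h hjk]
      _ = L i k * S L l j := by
          rw [R4 hn h hil hik hij (Ne.symm hkl) (Ne.symm hjl) (Ne.symm hjk), neg_neg]
      _ = L i k * S L j l := by rw [S_symm hn h hjl]
      _ = - (L i j * S L k l) := R4 hn h hik hij hil (Ne.symm hjk) hkl hjl
  exact add_self_zero (by nth_rewrite 1 [e]; abel)

theorem SL_zero (hn : 5 ≤ n) (h : Rel L) {i j k l : Fin n} (hij : i ≠ j) (hik : i ≠ k)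
    (hil : i ≠ l) (hjk : j ≠ k) (hjl : j ≠ l) (hkl : k ≠ l) : S L k l * L i j = 0 := by
  rw [← comm_LS hn h hik hil hjk hjl hkl, LS_zero hn h hij hik hil hjk hjl hkl]

/-- `4 L_ab^2 L_cd = 2 S_bc L_db - L_cd + S_cd` -/
theorem R7 (hn : 5 ≤ n) (h : Rel L) {a b c d : Fin n} (hab : a ≠ b) (hac : a ≠ c) (had : a ≠ d)
    (hbc : b ≠ c) (hbd : b ≠ d) (hcd : c ≠ d) :
    (4 : ℂ) • (L a b * L a b * L c d) = (2 : ℂ) • (S L b c * L d b) - L c d + S L c d := by
  have b1 := h.r3 a b c d hab hac had hbc hbd hcd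
  have a1 := P1 hn h (a := b) (b := a) (c := c) (Ne.symm hab) hac hbc
  have a2 := P1 hn h (a := c) (b := b) (c := d) (Ne.symm hbc) hbd hcd
  have e1 : L a b * L a b * L c d + L a b * L a b * L c d
      = S L b c * L d b - L b c * L d b := by
    calc L a b * L a b * L c d + L a b * L a b * L c d
        = L a b * (L a b * L c d) + L a b * (L a b * L c d) := by noncomm_ring
      _ = (L a b * L a c + L a b * L a c) * L d b := by rw [b1]; noncomm_ring
      _ = - (L b a * L a c + L b a * L a c) * L d b := by rw [h.anti a b]; noncomm_ring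
      _ = S L b c * L d b - L b c * L d b := by rw [a1]; noncomm_ring
  have e2 : L b c * L d b + L b c * L d b = L c d - S L c d := by
    rw [← a2, h.anti b c, h.anti d b]; noncomm_ring
  have : (4 : ℂ) • (L a b * L a b * L c d)
      = (L a b * L a b * L c d + L a b * L a b * L c d)
        + (L a b * L a b * L c d + L a b * L a b * L c d) := by
    rw [← two_smul ℂ (L a b * L a b * L c d), ← two_smul ℂ, smul_smul]; norm_num
  rw [this, e1, two_smul]
  have e3 : S L b c * L d b - L b c * L d b + (S L b c * L d b - L b c * L d b)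
      = S L b c * L d b + S L b c * L d b - (L b c * L d b + L b c * L d b) := by abel
  rw [e3, e2]; abel

end Pool.Agent.Hhelper14.EW
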