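import Pool.Agent.Hhelper14.EW.Alg

set_option autoImplicit false
set_option linter.unusedSectionVars false

/-!
# The elements `s i` with `L_ij^2 = s_i + s_j` and the structure of the ideal of the `S_ij`
-/

namespace Pool.Agent.Hhelper14.EW

variable {n : ℕ} {A : Type*} [Ring A] [Algebra ℂ A] {L : Fin n → Fin n → A}

theorem sq_symm (h : Rel L) (i j : Fin n) : L j i * L j i = L i j * L i j := by
  rw [h.anti j i]; noncomm_ring

/-- twice the value at the pair `(j, k)` -/
def gg (L : Fin n → Fin n → A) (i j k : Fin n) : A :=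
  L i j * L i j + L i k * L i k - L j k * L j k

theorem gg_symm (h : Rel L) (i j k : Fin n) : gg L i j k = gg L i k j := by
  unfold gg
  rw [sq_symm h j k]; abel

theorem gg_step (h : Rel L) {i j k k' : Fin n} (hij : i ≠ j) (hik : i ≠ k) (hik' : i ≠ k')
    (hjk : j ≠ k) (hjk' : j ≠ k') : gg L i j k = gg L i j k' := by
  by_cases hkk : k = k'
  · rw [hkk]
  · have e := h.r1 i k k' j hik hik' hij hkk (Ne.symm hjk) (Ne.symm hjk')
    rw [sq_symm h j k', sq_symm h j k] at e
    have : gg L i j k - gg L i j k' = 0 := by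
      unfold gg
      have : L i j * L i j + L i k * L i k - L j k * L j k
          - (L i j * L i j + L i k' * L i k' - L j k' * L j k')
          = (L i k * L i k + L j k' * L j k') - (L i k' * L i k' + L j k * L j k) := by abel
      rw [this, e, sub_self]
    exact sub_eq_zero.mp this

theorem gg_indep (hn : 5 ≤ n) (h : Rel L) {i a b j k : Fin n} (hia : i ≠ a) (hib : i ≠ b)
    (hab : a ≠ b) (hij : i ≠ j) (hik : i ≠ k) (hjk : j ≠ k) : gg L i a b = gg L i j k := by
  obtain ⟨m, m1, m2, m3⟩ := avoid3 hn i a j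
  rw [gg_step h hia hib (Ne.symm m1) hab (Ne.symm m2), gg_symm h,
    gg_step h (Ne.symm m1) hia hij m2 m3, gg_symm h,
    gg_step h hij (Ne.symm m1) hik (Ne.symm m3) hjk]

open Classical in
/-- an auxiliary pair of indices different from `i` and from each other -/
noncomputable def aux2 (i : Fin n) : Fin n × Fin n :=
  if h : ∃ p : Fin n × Fin n, i ≠ p.1 ∧ i ≠ p.2 ∧ p.1 ≠ p.2 then h.choose else (i, i)

/-- `s i`, with `L_ij^2 = s_i + s_j` -/
noncomputable def s (L : Fin n → Fin n → A) (i : Fin n) : A :=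
  ((1 : ℂ) / 2) • gg L i (aux2 i).1 (aux2 i).2

theorem s_eq (hn : 5 ≤ n) (h : Rel L) {i j k : Fin n} (hij : i ≠ j) (hik : i ≠ k)
    (hjk : j ≠ k) : s L i = ((1 : ℂ) / 2) • gg L i j k := by
  have hex : ∃ p : Fin n × Fin n, i ≠ p.1 ∧ i ≠ p.2 ∧ p.1 ≠ p.2 := ⟨(j, k), hij, hik, hjk⟩
  have h1 := hex.choose_spec
  have hs : aux2 i = hex.choose := by unfold aux2; rw [dif_pos hex]
  unfold s
  rw [hs, gg_indep hn h h1.1 h1.2.1 h1.2.2 hij hik hjk]

theorem L_sq (hn : 5 ≤ n) (h : Rel L) {i j : Fin n} (hij : i ≠ j) :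
    L i j * L i j = s L i + s L j := by
  obtain ⟨k, k1, k2⟩ := avoid2 hn i j
  rw [s_eq hn h hij (Ne.symm k1) (Ne.symm k2),
    s_eq hn h (Ne.symm hij) (Ne.symm k2) (Ne.symm k1), ← smul_add]
  unfold gg
  rw [sq_symm h i j]
  have : L i j * L i j + L i k * L i k - L j k * L j k
      + (L i j * L i j + L j k * L j k - L i k * L i k) = (2 : ℂ) • (L i j * L i j) := by
    rw [two_smul]; abel
  rw [this, smul_smul]; norm_num

/-- everything that commutes with `L ij`, `L ik`, `L jk` commutes with `s i` -/
theorem comm_s (hn : 5 ≤ n) (h : Rel L) {i j k : Fin n} (hij : i ≠ j) (hik : i ≠ k)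
    (hjk : j ≠ k) {x : A} (h1 : x * L i j = L i j * x) (h2 : x * L i k = L i k * x)
    (h3 : x * L j k = L j k * x) : x * s L i = s L i * x := by
  rw [s_eq hn h hij hik hjk]
  unfold gg
  rw [mul_smul_comm, smul_mul_assoc]
  congr 1
  have aux : ∀ y : A, x * y = y * x → x * (y * y) = (y * y) * x := by
    intro y hy
    rw [← mul_assoc, hy, mul_assoc, hy, ← mul_assoc]
  rw [mul_sub, mul_add, sub_mul, add_mul, aux _ h1, aux _ h2, aux _ h3]

theorem comm_Ls (hn : 5 ≤ n) (h : Rel L) {i j k : Fin n} (hij : i ≠ j) (hik : i ≠ k) :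
    L j k * s L i = s L i * L j k := by
  obtain ⟨a, a1, a2, a3⟩ := avoid3 hn i j k
  obtain ⟨b, b1, b2, b3, b4⟩ := avoid4 hn i j k a
  exact comm_s hn h (Ne.symm a1) (Ne.symm b1) (Ne.symm b4)
    (h.c0 _ _ _ _ (Ne.symm hij) (Ne.symm a2) (Ne.symm hik) (Ne.symm a3))
    (h.c0 _ _ _ _ (Ne.symm hij) (Ne.symm b2) (Ne.symm hik) (Ne.symm b3))
    (h.c0 _ _ _ _ (Ne.symm a2) (Ne.symm b2) (Ne.symm a3) (Ne.symm b3))

theorem s_comm (hn : 5 ≤ n) (h : Rel L) {i j : Fin n} (hij : i ≠ j) :
    s L i * s L j = s L j * s L i := by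
  obtain ⟨a, a1, a2⟩ := avoid2 hn i j
  obtain ⟨b, b1, b2, b3⟩ := avoid3 hn i j a
  exact comm_s hn h (Ne.symm a2) (Ne.symm b2) (Ne.symm b3)
    (comm_Ls hn h hij (Ne.symm a1)).symm (comm_Ls hn h hij (Ne.symm b1)).symm
    (comm_Ls hn h (Ne.symm a1) (Ne.symm b1)).symm

theorem comm_sS (hn : 5 ≤ n) (h : Rel L) {i j k : Fin n} (hij : i ≠ j) (hik : i ≠ k)
    (hjk : j ≠ k) : s L i * S L j k = S L j k * s L i := by
  obtain ⟨m, m1, m2, m3⟩ := avoid3 hn i j k
  rw [S_eq hn h hjk (Ne.symm m2) (Ne.symm m3)]
  have e1 := comm_Ls hn h (i := i) (j := j) (k := m) hij (Ne.symm m1)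
  have e2 := comm_Ls hn h (i := i) (j := k) (k := m) hik (Ne.symm m1)
  calc s L i * (L j m * L k m + L k m * L j m)
      = (s L i * L j m) * L k m + (s L i * L k m) * L j m := by noncomm_ring
    _ = (L j m * s L i) * L k m + (L k m * s L i) * L j m := by rw [e1, e2]
    _ = L j m * (s L i * L k m) + L k m * (s L i * L j m) := by noncomm_ring
    _ = L j m * (L k m * s L i) + L k m * (L j m * s L i) := by rw [e1, e2]
    _ = (L j m * L k m + L k m * L j m) * s L i := by noncomm_ring

/-- `[L_ij, s_j] = S_ij` -/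
theorem brack_s1 (hn : 5 ≤ n) (h : Rel L) {i j : Fin n} (hij : i ≠ j) :
    L i j * s L j - s L j * L i j = S L i j := by
  obtain ⟨k, k1, k2⟩ := avoid2 hn i j
  obtain ⟨l, l1, l2, l3⟩ := avoid3 hn i j k
  have aux : ∀ m : Fin n, m ≠ i → m ≠ j →
      L i j * (L j m * L j m) - (L j m * L j m) * L i j = S L i j := by
    intro m m1 m2
    have e := h.c1 i j m hij (Ne.symm m2) (Ne.symm m1)
    have e' : L i j * L j m = L i m + L j m * L i j := by rw [← e]; abel
    rw [S_eq hn h hij (Ne.symm m1) (Ne.symm m2)]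
    calc L i j * (L j m * L j m) - (L j m * L j m) * L i j
        = (L i j * L j m) * L j m - L j m * (L j m * L i j) := by noncomm_ring
      _ = (L i m + L j m * L i j) * L j m - L j m * (L j m * L i j) := by rw [e']
      _ = L i m * L j m + L j m * (L i j * L j m) - L j m * (L j m * L i j) := by noncomm_ring
      _ = L i m * L j m + L j m * L i m := by rw [e']; noncomm_ring
  have e3 : L i j * (L k l * L k l) - (L k l * L k l) * L i j = 0 := by
    have := h.c0 i j k l (Ne.symm k1) (Ne.symm l1) (Ne.symm k2) (Ne.symm l2)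
    rw [← mul_assoc, this, mul_assoc, this, ← mul_assoc, sub_self]
  rw [s_eq hn h (i := j) (j := k) (k := l) (Ne.symm k2) (Ne.symm l2) (Ne.symm l3)]
  unfold gg
  rw [mul_smul_comm, smul_mul_assoc, ← smul_sub]
  have : L i j * (L j k * L j k + L j l * L j l - L k l * L k l)
      - (L j k * L j k + L j l * L j l - L k l * L k l) * L i j
      = (L i j * (L j k * L j k) - (L j k * L j k) * L i j)
        + (L i j * (L j l * L j l) - (L j l * L j l) * L i j)
        - (L i j * (L k l * L k l) - (L k l * L k l) * L i j) := by noncomm_ring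
  rw [this, aux k k1 k2, aux l l1 l2, e3, sub_zero, ← two_smul ℂ (S L i j), smul_smul]
  norm_num

/-- `[L_ij, s_i] = - S_ij` -/
theorem brack_s2 (hn : 5 ≤ n) (h : Rel L) {i j : Fin n} (hij : i ≠ j) :
    L i j * s L i - s L i * L i j = - S L i j := by
  have e := brack_s1 hn h (Ne.symm hij)
  rw [h.anti i j, S_symm hn h hij, ← e]; noncomm_ring

theorem sS_zero (hn : 5 ≤ n) (h : Rel L) {i j k : Fin n} (hij : i ≠ j) (hik : i ≠ k)
    (hjk : j ≠ k) : s L i * S L j k = 0 := by
  obtain ⟨a, a1, a2, a3⟩ := avoid3 hn i j k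
  obtain ⟨b, b1, b2, b3, b4⟩ := avoid4 hn i j k a
  rw [s_eq hn h (Ne.symm a1) (Ne.symm b1) (Ne.symm b4)]
  unfold gg
  have e1 := LS_zero hn h (Ne.symm a1) hij hik a2 a3 hjk
  have e2 := LS_zero hn h (Ne.symm b1) hij hik b2 b3 hjk
  have e3 := LS_zero hn h (Ne.symm b4) a2 a3 b2 b3 hjk
  rw [smul_mul_assoc, sub_mul, add_mul, mul_assoc, mul_assoc, mul_assoc, e1, e2, e3]
  simp

theorem Ss_zero (hn : 5 ≤ n) (h : Rel L) {i j k : Fin n} (hij : i ≠ j) (hik : i ≠ k)
    (hjk : j ≠ k) : S L j k * s L i = 0 := by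
  rw [← comm_sS hn h hij hik hjk, sS_zero hn h hij hik hjk]

/-- `s_i S_ik = S_ij S_jk` -/
theorem R9 (hn : 5 ≤ n) (h : Rel L) {i j k : Fin n} (hij : i ≠ j) (hik : i ≠ k)
    (hjk : j ≠ k) : s L i * S L i k = S L i j * S L j k := by
  have e0 := sS_zero hn h hij hik hjk
  have e1 := brack_s2 hn h hij
  have e2 := brack_S1 hn h hij hjk hik
  have e1' : L i j * s L i = s L i * L i j - S L i j := by
    rw [sub_eq_iff_eq_add] at e1; rw [e1]; abel
  have e2' : L i j * S L j k = S L j k * L i j + S L i k := by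
    rw [sub_eq_iff_eq_add] at e2; rw [e2]; abel
  have key : L i j * (s L i * S L j k) - (s L i * S L j k) * L i j
      = s L i * S L i k - S L i j * S L j k := by
    calc L i j * (s L i * S L j k) - (s L i * S L j k) * L i j
        = (L i j * s L i) * S L j k - (s L i * S L j k) * L i j := by noncomm_ring
      _ = s L i * (L i j * S L j k) - S L i j * S L j k - (s L i * S L j k) * L i j := by
          rw [e1']; noncomm_ring
      _ = s L i * S L i k - S L i j * S L j k := by rw [e2']; noncomm_ring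
  rw [e0, mul_zero, zero_mul, sub_zero] at key
  exact sub_eq_zero.mp key.symm

/-- `L_ij S_jk` does not depend on the middle index -/
theorem R10 (hn : 5 ≤ n) (h : Rel L) {i j m k : Fin n} (hij : i ≠ j) (him : i ≠ m) (hik : i ≠ k)
    (hjm : j ≠ m) (hjk : j ≠ k) (hmk : m ≠ k) : L i j * S L j k = L i m * S L m k := by
  have e0 := LS_zero hn h him hij hik (Ne.symm hjm) hmk hjk
  have e1 := h.c1 i m j him (Ne.symm hjm) hij
  have e2 := brack_S1 hn h (Ne.symm hjm) hjk hmk
  have e1' : L m j * L i m = L i m * L m j - L i j := by rw [← e1]; abel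
  have e2' : L m j * S L j k = S L j k * L m j + S L m k := by
    rw [sub_eq_iff_eq_add] at e2; rw [e2]; abel
  have key : L m j * (L i m * S L j k) - (L i m * S L j k) * L m j
      = L i m * S L m k - L i j * S L j k := by
    calc L m j * (L i m * S L j k) - (L i m * S L j k) * L m j
        = (L m j * L i m) * S L j k - (L i m * S L j k) * L m j := by noncomm_ring
      _ = L i m * (L m j * S L j k) - L i j * S L j k - (L i m * S L j k) * L m j := by
          rw [e1']; noncomm_ring
      _ = L i m * S L m k - L i j * S L j k := by rw [e2']; noncomm_ring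
  rw [e0, mul_zero, zero_mul, sub_zero] at key
  exact (sub_eq_zero.mp key.symm).symm

/-- `L_ij S_jk = - s_i S_ik` -/
theorem R11 (hn : 5 ≤ n) (h : Rel L) {i j k : Fin n} (hij : i ≠ j) (hik : i ≠ k)
    (hjk : j ≠ k) : L i j * S L j k = - (s L i * S L i k) := by
  obtain ⟨m, m1, m2, m3⟩ := avoid3 hn i j k
  have e := R10 hn h (i := m) (j := i) (m := j) (k := k) m1 m2 m3 hij hik hjk
  have e1 : L i m * (L m i * S L i k) = - (s L i * S L i k) := by
    rw [h.anti m i]
    calc L i m * (-L i m * S L i k) = - ((L i m * L i m) * S L i k) := by noncomm_ring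
      _ = - (s L i * S L i k) := by
          rw [L_sq hn h (Ne.symm m1), add_mul, sS_zero hn h m1 m3 hik, add_zero]
  have e2 := P1 hn h (a := i) (b := m) (c := j) (Ne.symm m1) m2 hij
  have e3 : L i m * (L m j * S L j k) + L i m * (L m j * S L j k)
      = L i j * S L j k - s L i * S L i k := by
    calc L i m * (L m j * S L j k) + L i m * (L m j * S L j k)
        = (L i m * L m j + L i m * L m j) * S L j k := by noncomm_ring
      _ = L i j * S L j k - S L i j * S L j k := by rw [e2]; noncomm_ring
      _ = L i j * S L j k - s L i * S L i k := by rw [R9 hn h hij hik hjk]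
  rw [← e, e1] at e3
  have : L i j * S L j k = (L i j * S L j k - s L i * S L i k) + s L i * S L i k := by abel
  rw [this, ← e3]; abel

/-- `(s_j - s_k) s_i = 0` -/
theorem z1 (hn : 5 ≤ n) (h : Rel L) {i j k : Fin n} (hij : i ≠ j) (hik : i ≠ k)
    (hjk : j ≠ k) : s L j * s L i = s L k * s L i := by
  obtain ⟨l, l1, l2, l3⟩ := avoid3 hn i j k
  have e := brack_S2 hn h hjk (Ne.symm l2) (Ne.symm l3)
  have e' : L j k * S L j k - S L j k * L j k = (s L j - s L k) + (s L j - s L k) := by
    rw [e, L_sq hn h (Ne.symm l2), L_sq hn h (Ne.symm l3)]; abel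
  have c := comm_Ls hn h hij hik
  have z := Ss_zero hn h hij hik hjk
  have key : ((s L j - s L k) + (s L j - s L k)) * s L i = 0 := by
    rw [← e', sub_mul, mul_assoc, z, mul_zero, mul_assoc, c, ← mul_assoc, z, zero_mul, sub_zero]
  have : (s L j - s L k) * s L i + (s L j - s L k) * s L i = 0 := by
    rw [← add_mul]; exact key
  have := add_self_zero this
  rw [sub_mul] at this
  exact sub_eq_zero.mp this

theorem ssS_zero (hn : 5 ≤ n) (h : Rel L) {i k : Fin n} (hik : i ≠ k) :
    s L i * (s L k * S L i k) = 0 := by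
  obtain ⟨m, m1, m2⟩ := avoid2 hn i k
  rw [← mul_assoc, z1 hn h (i := k) (j := i) (k := m) (Ne.symm hik) (Ne.symm m2) (Ne.symm m1),
    s_comm hn h m2, mul_assoc, sS_zero hn h m1 m2 hik, mul_zero]

theorem ssS_zero' (hn : 5 ≤ n) (h : Rel L) {i k : Fin n} (hik : i ≠ k) :
    s L k * (s L i * S L i k) = 0 := by
  rw [← mul_assoc, ← s_comm hn h hik, mul_assoc, ssS_zero hn h hik]

/-- `s_i^2 S_ik = - s_i S_ik` -/
theorem R12 (hn : 5 ≤ n) (h : Rel L) {i k : Fin n} (hik : i ≠ k) :
    s L i * (s L i * S L i k) = - (s L i * S L i k) := by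
  -- D = L_ij S_jk, E = L_mj S_jk
  obtain ⟨j, j1, j2⟩ := avoid2 hn i k
  obtain ⟨m, m1, m2, m3⟩ := avoid3 hn i j k
  have d1 := R11 hn h (i := i) (j := j) (k := k) (Ne.symm j1) hik j2
  have d2 := R11 hn h (i := m) (j := j) (k := k) m2 m3 j2
  -- L_mi D = E and L_im E = D
  have step : ∀ a b : Fin n, a ≠ b → a ≠ j → b ≠ j → a ≠ k → b ≠ k →
      L a b * (L b j * S L j k) = L a j * S L j k := by
    intro a b hab haj hbj hak hbk
    have e2 := P1 hn h (a := a) (b := b) (c := j) hab hbj haj
    have da := R11 hn h (i := a) (j := j) (k := k) haj hak j2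
    have : L a b * (L b j * S L j k) + L a b * (L b j * S L j k)
        = L a j * S L j k + L a j * S L j k := by
      calc L a b * (L b j * S L j k) + L a b * (L b j * S L j k)
          = (L a b * L b j + L a b * L b j) * S L j k := by noncomm_ring
        _ = L a j * S L j k - S L a j * S L j k := by rw [e2]; noncomm_ring
        _ = L a j * S L j k - s L a * S L a k := by rw [R9 hn h haj hak j2]
        _ = L a j * S L j k + L a j * S L j k := by
            nth_rewrite 3 [da]; abel
    exact add_self_inj this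
  have s1 := step m i m1 m2 (Ne.symm j1) m3 hik
  have s2 := step i m (Ne.symm m1) (Ne.symm j1) m2 hik m3
  have e3 : L i m * (L m i * (L i j * S L j k)) = L i j * S L j k := by rw [s1, s2]
  rw [h.anti m i] at e3
  have e4 : (L i m * L i m) * (L i j * S L j k) = - (L i j * S L j k) := by
    nth_rewrite 2 [← e3]; noncomm_ring
  rw [L_sq hn h (Ne.symm m1), d1, add_mul, mul_neg, mul_neg] at e4
  have e5 : s L m * (s L i * S L i k) = 0 := by
    rw [← mul_assoc, s_comm hn h m1, mul_assoc, sS_zero hn h m1 m3 hik, mul_zero]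
  rw [e5, neg_zero, add_zero, neg_neg] at e4
  exact neg_eq_iff_eq_neg.mp e4

/-- `S_ik^2 = s_i^2 + s_k^2 - 2 s_i s_k` -/
theorem R14a (hn : 5 ≤ n) (h : Rel L) {i j k : Fin n} (hij : i ≠ j) (hik : i ≠ k)
    (hjk : j ≠ k) : S L i k * S L i k + S L i j * S L i j - S L j k * S L j k
      = (s L i * s L i - s L i * s L k) + (s L i * s L i - s L i * s L k) := by
  have r := R9 hn h hij hik hjk
  obtain ⟨l, l1, l2⟩ := avoid2 hn i k
  have b1 : L k i * s L i = s L i * L k i + S L i k := by
    have := brack_s1 hn h (Ne.symm hik)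
    rw [sub_eq_iff_eq_add] at this; rw [this, S_symm hn h hik]; abel
  have b2 : L k i * S L i k = S L i k * L k i + ((s L k - s L i) + (s L k - s L i)) := by
    have e := brack_S2 hn h (Ne.symm hik) (Ne.symm l2) (Ne.symm l1)
    rw [L_sq hn h (Ne.symm l2), L_sq hn h (Ne.symm l1), S_symm hn h (Ne.symm hik),
      sub_eq_iff_eq_add] at e
    rw [e]; abel
  have b3 : L k i * S L i j = S L i j * L k i + S L k j := by
    have := brack_S1 hn h (Ne.symm hik) hij (Ne.symm hjk)
    rw [sub_eq_iff_eq_add] at this; rw [this]; abel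
  have b4 : L k i * S L j k = S L j k * L k i - S L i j := by
    have := brack_S1 hn h hik (Ne.symm hjk) hij
    rw [h.anti i k, S_symm hn h (Ne.symm hjk)] at this
    rw [← this]; noncomm_ring
  have key : L k i * (s L i * S L i k) - (s L i * S L i k) * L k i
      = L k i * (S L i j * S L j k) - (S L i j * S L j k) * L k i := by rw [r]
  have lhs : L k i * (s L i * S L i k) - (s L i * S L i k) * L k i
      = S L i k * S L i k + s L i * ((s L k - s L i) + (s L k - s L i)) := by
    calc L k i * (s L i * S L i k) - (s L i * S L i k) * L k i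
        = (L k i * s L i) * S L i k - s L i * S L i k * L k i := by noncomm_ring
      _ = s L i * (L k i * S L i k) + S L i k * S L i k - s L i * S L i k * L k i := by
          rw [b1]; noncomm_ring
      _ = S L i k * S L i k + s L i * ((s L k - s L i) + (s L k - s L i)) := by
          rw [b2]; noncomm_ring
  have rhs : L k i * (S L i j * S L j k) - (S L i j * S L j k) * L k i
      = S L j k * S L j k - S L i j * S L i j := by
    calc L k i * (S L i j * S L j k) - (S L i j * S L j k) * L k i
        = (L k i * S L i j) * S L j k - S L i j * S L j k * L k i := by noncomm_ring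
      _ = S L i j * (L k i * S L j k) + S L k j * S L j k - S L i j * S L j k * L k i := by
          rw [b3]; noncomm_ring
      _ = S L j k * S L j k - S L i j * S L i j := by
          rw [b4, S_symm hn h (Ne.symm hjk)]; noncomm_ring
  rw [lhs, rhs] at key
  have : S L i k * S L i k + S L i j * S L i j - S L j k * S L j k
      = (S L i k * S L i k + s L i * ((s L k - s L i) + (s L k - s L i)))
        - (S L j k * S L j k - S L i j * S L i j)
        + ((s L i * s L i - s L i * s L k) + (s L i * s L i - s L i * s L k)) := by noncomm_ring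
  rw [this, key, sub_self, zero_add]

theorem R14 (hn : 5 ≤ n) (h : Rel L) {i k : Fin n} (hik : i ≠ k) :
    S L i k * S L i k = s L i * s L i + s L k * s L k - (s L i * s L k + s L i * s L k) := by
  obtain ⟨j, j1, j2⟩ := avoid2 hn i k
  have e1 := R14a hn h (i := i) (j := j) (k := k) (Ne.symm j1) hik j2
  have e2 := R14a hn h (i := k) (j := j) (k := i) (Ne.symm j2) (Ne.symm hik) j1
  rw [S_symm hn h (Ne.symm hik), S_symm hn h (i := k) (k := j) (Ne.symm j2),
    S_symm hn h (i := j) (k := i) j1, ← s_comm hn h hik] at e2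
  apply add_self_inj
  have : S L i k * S L i k + S L i k * S L i k
      = (S L i k * S L i k + S L i j * S L i j - S L j k * S L j k)
        + (S L i k * S L i k + S L j k * S L j k - S L i j * S L i j) := by abel
  rw [this, e1, e2]; abel

/-- `S^5 = S^3` -/
theorem S5 (hn : 5 ≤ n) (h : Rel L) {i k : Fin n} (hik : i ≠ k) :
    S L i k * (S L i k * (S L i k * (S L i k * S L i k)))
      = S L i k * (S L i k * S L i k) ∧
    S L i k * (S L i k * S L i k) = - (s L i * S L i k) - s L k * S L i k := by
  have r := R14 hn h hik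
  have z := ssS_zero hn h hik
  have z' := ssS_zero' hn h hik
  have d1 := R12 hn h hik
  have d2 : s L k * (s L k * S L i k) = - (s L k * S L i k) := by
    have := R12 hn h (Ne.symm hik)
    rwa [S_symm hn h (Ne.symm hik)] at this
  have cube : S L i k * (S L i k * S L i k) = - (s L i * S L i k) - s L k * S L i k := by
    rw [← mul_assoc, r]
    calc (s L i * s L i + s L k * s L k - (s L i * s L k + s L i * s L k)) * S L i k
        = s L i * (s L i * S L i k) + s L k * (s L k * S L i k)
          - (s L i * (s L k * S L i k) + s L i * (s L k * S L i k)) := by noncomm_ring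
      _ = - (s L i * S L i k) - s L k * S L i k := by rw [z, d1, d2]; abel
  refine ⟨?_, cube⟩
  have c := s_comm hn h hik
  -- S^2 commutes with s_i and s_k
  have hc : Commute (s L i) (s L k) := c
  have ci : (S L i k * S L i k) * s L i = s L i * (S L i k * S L i k) := by
    rw [r]
    exact ((((Commute.refl (s L i)).mul_left (Commute.refl _)).add_left
      (hc.symm.mul_left hc.symm)).sub_left
      (((Commute.refl _).mul_left hc.symm).add_left ((Commute.refl _).mul_left hc.symm)))
  have ck : (S L i k * S L i k) * s L k = s L k * (S L i k * S L i k) := by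
    rw [r]
    exact (((hc.mul_left hc).add_left
      ((Commute.refl (s L k)).mul_left (Commute.refl _))).sub_left
      ((hc.mul_left (Commute.refl _)).add_left (hc.mul_left (Commute.refl _))))
  calc S L i k * (S L i k * (S L i k * (S L i k * S L i k)))
      = (S L i k * S L i k) * (S L i k * (S L i k * S L i k)) := by noncomm_ring
    _ = (S L i k * S L i k) * (- (s L i * S L i k) - s L k * S L i k) := by rw [cube]
    _ = - (((S L i k * S L i k) * s L i) * S L i k) - ((S L i k * S L i k) * s L k) * S L i k := by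
        noncomm_ring
    _ = - (s L i * (S L i k * (S L i k * S L i k))) - s L k * (S L i k * (S L i k * S L i k)) := by
        rw [ci, ck]; noncomm_ring
    _ = - (s L i * (- (s L i * S L i k) - s L k * S L i k))
          - s L k * (- (s L i * S L i k) - s L k * S L i k) := by rw [cube]
    _ = s L i * (s L i * S L i k) + s L i * (s L k * S L i k) + s L k * (s L i * S L i k)
          + s L k * (s L k * S L i k) := by noncomm_ring
    _ = S L i k * (S L i k * S L i k) := by rw [z, z', d1, d2, cube]; abel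

end Pool.Agent.Hhelper14.EW
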