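import Pool.Agent.Hhelper14.EW.Spin

set_option autoImplicit false
set_option linter.unusedSectionVars false

/-!
# Bilinear curvature terms: boundedness on Einstein tensors, isotropic planes
-/

namespace Pool.Agent.Hhelper14.EW

open scoped ComplexConjugate InnerProductSpace

variable {n : ℕ}

section alg

variable {A : Type*} [Ring A] [Algebra ℂ A]

/-- `∑ R_ijkl P_ij L_kl` -/
noncomputable def op2 (P L : Fin n → Fin n → A) (R : Tens n) : A :=
  ∑ i, ∑ j, ∑ k, ∑ l, ((R i j k l : ℝ) : ℂ) • (P i j * L k l)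

theorem op2_add (P L : Fin n → Fin n → A) (R T : Tens n) :
    op2 P L (R + T) = op2 P L R + op2 P L T := by
  unfold op2
  simp only [Pi.add_apply, Complex.ofReal_add, add_smul, Finset.sum_add_distrib]

theorem op2_smul (P L : Fin n → Fin n → A) (c : ℝ) (R : Tens n) :
    op2 P L (c • R) = (c : ℂ) • op2 P L R := by
  unfold op2
  simp only [Pi.smul_apply, smul_eq_mul, Complex.ofReal_mul, mul_smul, Finset.smul_sum]

theorem op2_self (L : Fin n → Fin n → A) (R : Tens n) : op2 L L R = opr L R := rfl

/-- complex vectors -/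
noncomputable def Lc (L : Fin n → Fin n → A) (x y : Fin n → ℂ) : A :=
  ∑ i, ∑ j, (x i * y j) • L i j

/-- complexified square -/
noncomputable def cq (x y : Fin n → ℂ) (i j k l : Fin n) : ℂ :=
  (x i * y j - x j * y i) * (x k * y l - x l * y k)

/-- real part -/
noncomputable def cqr (x y : Fin n → ℂ) : Tens n := fun i j k l => (cq x y i j k l).re

/-- imaginary part -/
noncomputable def cqi (x y : Fin n → ℂ) : Tens n := fun i j k l => (cq x y i j k l).im

theorem isCurv_cqr (x y : Fin n → ℂ) : IsCurv (cqr x y) where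
  anti₁ i j k l := by
    unfold cqr
    rw [← Complex.neg_re]; congr 1; unfold cq; ring
  anti₂ i j k l := by
    unfold cqr
    rw [← Complex.neg_re]; congr 1; unfold cq; ring
  bianchi i j k l := by
    unfold cqr
    rw [← Complex.add_re, ← Complex.add_re, ← Complex.zero_re]; congr 1; unfold cq; ring

theorem isCurv_cqi (x y : Fin n → ℂ) : IsCurv (cqi x y) where
  anti₁ i j k l := by
    unfold cqi
    rw [← Complex.neg_im]; congr 1; unfold cq; ring
  anti₂ i j k l := by
    unfold cqi
    rw [← Complex.neg_im]; congr 1; unfold cq; ring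
  bianchi i j k l := by
    unfold cqi
    rw [← Complex.add_im, ← Complex.add_im, ← Complex.zero_im]; congr 1; unfold cq; ring

theorem sum_cq {x y : Fin n → ℂ} (hx : ∑ i, x i * x i = 0) (hxy : ∑ i, x i * y i = 0)
    (hy : ∑ i, y i * y i = 0) (j l : Fin n) : ∑ i, cq x y i j i l = 0 := by
  have : ∑ i, cq x y i j i l = (∑ i, x i * x i) * (y j * y l)
      - (∑ i, x i * y i) * (x l * y j + x j * y l) + (∑ i, y i * y i) * (x j * x l) := by
    unfold cq
    rw [Finset.sum_mul, Finset.sum_mul, Finset.sum_mul, ← Finset.sum_sub_distrib,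
      ← Finset.sum_add_distrib]
    refine Finset.sum_congr rfl fun i _ => ?_
    ring
  rw [this, hx, hxy, hy]; ring

theorem ric_cqr {x y : Fin n → ℂ} (hx : ∑ i, x i * x i = 0) (hxy : ∑ i, x i * y i = 0)
    (hy : ∑ i, y i * y i = 0) (j l : Fin n) : ric (cqr x y) j l = 0 := by
  unfold ric cqr
  rw [← Complex.re_sum, sum_cq hx hxy hy, Complex.zero_re]

theorem ric_cqi {x y : Fin n → ℂ} (hx : ∑ i, x i * x i = 0) (hxy : ∑ i, x i * y i = 0)
    (hy : ∑ i, y i * y i = 0) (j l : Fin n) : ric (cqi x y) j l = 0 := by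
  unfold ric cqi
  rw [← Complex.im_sum, sum_cq hx hxy hy, Complex.zero_im]

theorem Lc_swap {L : Fin n → Fin n → A} (hL : ∀ i j, L i j = - L j i) (x y : Fin n → ℂ) :
    ∑ i, ∑ j, (x j * y i) • L i j = - Lc L x y := by
  unfold Lc
  rw [Finset.sum_comm, ← Finset.sum_neg_distrib]
  refine Finset.sum_congr rfl fun j _ => ?_
  rw [← Finset.sum_neg_distrib]
  refine Finset.sum_congr rfl fun i _ => ?_
  rw [hL i j, smul_neg]

/-- If the curvature term vanishes on Weyl tensors then `P(x, y) L(x, y) = 0` for isotropic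
planes. -/
theorem iso_zero {P L : Fin n → Fin n → A} (hP : ∀ i j, P i j = - P j i)
    (hL : ∀ i j, L i j = - L j i)
    (hW : ∀ W : Tens n, IsCurv W → (∀ j l, ric W j l = 0) → op2 P L W = 0)
    {x y : Fin n → ℂ} (hx : ∑ i, x i * x i = 0) (hxy : ∑ i, x i * y i = 0)
    (hy : ∑ i, y i * y i = 0) : Lc P x y * Lc L x y = 0 := by
  have h1 := hW _ (isCurv_cqr x y) (ric_cqr hx hxy hy)
  have h2 := hW _ (isCurv_cqi x y) (ric_cqi hx hxy hy)
  have h3 : ∑ i, ∑ j, ∑ k, ∑ l, (cq x y i j k l) • (P i j * L k l) = 0 := by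
    have : ∑ i, ∑ j, ∑ k, ∑ l, (cq x y i j k l) • (P i j * L k l)
        = op2 P L (cqr x y) + Complex.I • op2 P L (cqi x y) := by
      unfold op2
      simp only [Finset.smul_sum]
      rw [← Finset.sum_add_distrib]
      refine Finset.sum_congr rfl fun i _ => ?_
      rw [← Finset.sum_add_distrib]
      refine Finset.sum_congr rfl fun j _ => ?_
      rw [← Finset.sum_add_distrib]
      refine Finset.sum_congr rfl fun k _ => ?_
      rw [← Finset.sum_add_distrib]
      refine Finset.sum_congr rfl fun l _ => ?_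
      rw [smul_smul, ← add_smul]
      congr 1
      unfold cqr cqi
      rw [mul_comm Complex.I, Complex.re_add_im]
    rw [this, h1, h2, smul_zero, add_zero]
  have h4 : ∀ {M : Fin n → Fin n → A}, (∀ i j, M i j = - M j i) →
      ∑ i, ∑ j, (x i * y j - x j * y i) • M i j = (2 : ℂ) • Lc M x y := by
    intro M hM
    simp only [sub_smul, Finset.sum_sub_distrib]
    rw [Lc_swap hM, sub_neg_eq_add, two_smul]
    rfl
  have h5 : ∑ i, ∑ j, ∑ k, ∑ l, (cq x y i j k l) • (P i j * L k l)
      = (∑ i, ∑ j, (x i * y j - x j * y i) • P i j)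
        * (∑ k, ∑ l, (x k * y l - x l * y k) • L k l) := by
    unfold cq
    rw [Finset.sum_mul]
    refine Finset.sum_congr rfl fun i _ => ?_
    rw [Finset.sum_mul]
    refine Finset.sum_congr rfl fun j _ => ?_
    rw [Finset.mul_sum]
    refine Finset.sum_congr rfl fun k _ => ?_
    rw [Finset.mul_sum]
    refine Finset.sum_congr rfl fun l _ => ?_
    rw [smul_mul_smul_comm]
  rw [h5, h4 hP, h4 hL, smul_mul_smul_comm] at h3
  rcases smul_eq_zero.mp h3 with h | h
  · norm_num at h
  · exact h

theorem prod_ite (a b e f : Prop) [Decidable a] [Decidable b] [Decidable e] [Decidable f]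
    (c d : ℂ) : ((if a then (1 : ℂ) else 0) + (if b then c else 0))
      * ((if e then (1 : ℂ) else 0) + (if f then d else 0))
      = (if a then (if e then (1 : ℂ) else 0) else 0) + (if a then (if f then d else 0) else 0)
        + (if b then (if e then c else 0) else 0) + (if b then (if f then c * d else 0) else 0) := by
  split_ifs <;> ring

theorem prod_ite_smul (a b e f : Prop) [Decidable a] [Decidable b] [Decidable e] [Decidable f]
    (c d : ℂ) (M : A) : (((if a then (1 : ℂ) else 0) + (if b then c else 0))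
      * ((if e then (1 : ℂ) else 0) + (if f then d else 0))) • M
      = (if a then (if e then M else 0) else 0) + (if a then (if f then d • M else 0) else 0)
        + (if b then (if e then c • M else 0) else 0)
        + (if b then (if f then (c * d) • M else 0) else 0) := by
  rw [prod_ite]
  split_ifs <;> simp [add_smul]

/-- `e_p + c e_q` -/
noncomputable def vec2 (p q : Fin n) (c : ℂ) : Fin n → ℂ := fun i =>
  (if i = p then 1 else 0) + (if i = q then c else 0)

theorem Lc_vec2 (L : Fin n → Fin n → A) (p q r s : Fin n) (c d : ℂ) :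
    Lc L (vec2 p q c) (vec2 r s d)
      = L p r + d • L p s + c • L q r + (c * d) • L q s := by
  unfold Lc vec2
  have h : ∀ i j : Fin n, (((if i = p then (1 : ℂ) else 0) + (if i = q then c else 0))
      * ((if j = r then (1 : ℂ) else 0) + (if j = s then d else 0))) • L i j
      = (if i = p then (if j = r then L i j else 0) else 0)
        + (if i = p then (if j = s then d • L i j else 0) else 0)
        + (if i = q then (if j = r then c • L i j else 0) else 0)
        + (if i = q then (if j = s then (c * d) • L i j else 0) else 0) := by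
    intro i j
    exact prod_ite_smul _ _ _ _ _ _ _
  simp only [h, Finset.sum_add_distrib]
  have g : ∀ (a b : Fin n) (f : Fin n → Fin n → A),
      ∑ i, ∑ j, (if i = a then (if j = b then f i j else 0) else 0) = f a b := by
    intro a b f
    rw [Finset.sum_eq_single a, Finset.sum_eq_single b]
    · simp
    · intro c _ hc; simp [hc]
    · simp
    · intro c _ hc; simp [hc]
    · simp
  rw [g p r (fun i j => L i j), g p s (fun i j => d • L i j), g q r (fun i j => c • L i j),
    g q s (fun i j => (c * d) • L i j)]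

theorem sum_vec2 (p q r s : Fin n) (c d : ℂ) : ∑ i, vec2 p q c i * vec2 r s d i
    = (if p = r then 1 else 0) + (if p = s then d else 0) + (if q = r then c else 0)
      + (if q = s then c * d else 0) := by
  unfold vec2
  have h : ∀ i : Fin n, ((if i = p then (1 : ℂ) else 0) + (if i = q then c else 0))
      * ((if i = r then (1 : ℂ) else 0) + (if i = s then d else 0))
      = (if i = p then (if i = r then (1 : ℂ) else 0) else 0)
        + (if i = p then (if i = s then d else 0) else 0)
        + (if i = q then (if i = r then c else 0) else 0)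
        + (if i = q then (if i = s then c * d else 0) else 0) := by
    intro i
    exact prod_ite _ _ _ _ _ _
  simp only [h, Finset.sum_add_distrib, Finset.sum_ite_eq', Finset.mem_univ, if_true]

/-- the relation for four distinct indices -/
theorem iso4 {P L : Fin n → Fin n → A} (hP : ∀ i j, P i j = - P j i)
    (hL : ∀ i j, L i j = - L j i)
    (hW : ∀ W : Tens n, IsCurv W → (∀ j l, ric W j l = 0) → op2 P L W = 0)
    {p q r s : Fin n} (hpq : p ≠ q) (hpr : p ≠ r) (hps : p ≠ s) (hqr : q ≠ r) (hqs : q ≠ s)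
    (hrs : r ≠ s) {c : ℂ} (hc : c * c = -1) :
    (P p r - P q s + c • (P p s + P q r)) * (L p r - L q s + c • (L p s + L q r)) = 0 := by
  have h := iso_zero hP hL hW (x := vec2 p q c) (y := vec2 r s c)
    (by rw [sum_vec2]; simp [hpq, Ne.symm hpq, hc])
    (by rw [sum_vec2]; simp [hpr, hps, hqr, hqs])
    (by rw [sum_vec2]; simp [hrs, Ne.symm hrs, hc])
  rw [Lc_vec2, Lc_vec2, hc] at h
  have e : ∀ M : Fin n → Fin n → A, M p r + c • M p s + c • M q r + (-1 : ℂ) • M q s
      = M p r - M q s + c • (M p s + M q r) := by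
    intro M
    rw [neg_smul, one_smul, smul_add]; abel
  rw [e P, e L] at h
  exact h

end alg

section bdd

variable {H : Type*} [NormedAddCommGroup H] [InnerProductSpace ℂ H]

/-- a symmetric curvature term which is bounded on the Einstein tensors with one constant
vanishes on Weyl tensors -/
theorem weyl_vanish (hn : 5 ≤ n) {T : Tens n → Module.End ℂ H}
    (hT : ∀ (R W : Tens n) (t : ℝ), T (R + t • W) = T R + (t : ℂ) • T W)
    {W : Tens n} (hW : IsCurv W) (hr : ∀ j l, ric W j l = 0)
    (hs : ∀ x y, ⟪T W x, y⟫_ℂ = ⟪x, T W y⟫_ℂ) {lam : ℝ}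
    (hb : (∃ C : ℝ, ∀ R : Tens n, IsCurv R → IsEinstein lam R → ∀ x : H,
        C * ‖x‖ ^ 2 ≤ (⟪T R x, x⟫_ℂ).re) ∨
      (∃ C : ℝ, ∀ R : Tens n, IsCurv R → IsEinstein lam R → ∀ x : H,
        (⟪T R x, x⟫_ℂ).re ≤ C * ‖x‖ ^ 2)) : T W = 0 := by
  have hE : ∀ t : ℝ, IsCurv ((cst (lam / (n - 1)) : Tens n) + t • W) ∧
      IsEinstein lam ((cst (lam / (n - 1)) : Tens n) + t • W) := by
    intro t
    refine ⟨(isCurv_cst _).add (hW.smul t), ?_⟩
    intro j l
    rw [ric_add, ric_smul, hr, mul_zero, add_zero]
    exact isEinstein_cst hn lam j l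
  have hexp : ∀ (x : H) (t : ℝ), (⟪T ((cst (lam / (n - 1)) : Tens n) + t • W) x, x⟫_ℂ).re
      = (⟪T (cst (lam / (n - 1))) x, x⟫_ℂ).re + t * (⟪T W x, x⟫_ℂ).re := by
    intro x t
    rw [hT, LinearMap.add_apply, LinearMap.smul_apply, inner_add_left, inner_smul_left,
      Complex.conj_ofReal, Complex.add_re, Complex.re_ofReal_mul]
  have hre : ∀ x : H, (⟪T W x, x⟫_ℂ).re = 0 := by
    intro x
    rcases hb with ⟨C, hC⟩ | ⟨C, hC⟩
    · have : ∀ t : ℝ, C * ‖x‖ ^ 2 ≤ (⟪T (cst (lam / (n - 1))) x, x⟫_ℂ).re
          + t * (⟪T W x, x⟫_ℂ).re := by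
        intro t
        rw [← hexp]
        exact hC _ (hE t).1 (hE t).2 x
      exact lin_zero this
    · have : ∀ t : ℝ, (⟪T (cst (lam / (n - 1))) x, x⟫_ℂ).re
          + t * (⟪T W x, x⟫_ℂ).re ≤ C * ‖x‖ ^ 2 := by
        intro t
        rw [← hexp]
        exact hC _ (hE t).1 (hE t).2 x
      exact lin_zero' this
  have hz : ∀ x : H, ⟪T W x, x⟫_ℂ = 0 := by
    intro x
    apply Complex.ext
    · rw [hre x]; rfl
    · have e2 : (starRingEnd ℂ) ⟪T W x, x⟫_ℂ = ⟪T W x, x⟫_ℂ := by
        rw [inner_conj_symm, hs]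
      have := Complex.conj_eq_iff_im.mp e2
      rw [this]; rfl
  exact (inner_map_self_eq_zero (T W)).mp hz

end bdd

end Pool.Agent.Hhelper14.EW
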