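import Pool.Agent.Hhelper14.EW.Defs

set_option autoImplicit false

/-!
# Definitions: Weitzenböck formulas on an irreducible natural bundle
-/

namespace Pool.Agent.Hhelper14.EW

open scoped InnerProductSpace

variable {n : ℕ} {H : Type*} [NormedAddCommGroup H] [InnerProductSpace ℂ H]

/-- The representation `L` of `so(n)` on `H` is irreducible: an invariant subspace is `0` or
`H`. -/
def IsIrred (L : Fin n → Fin n → Module.End ℂ H) : Prop :=
  ∀ W : Submodule ℂ H, (∀ x ∈ W, ∀ i j, L i j x ∈ W) → W = ⊥ ∨ W = ⊤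

/-- The symbol of a natural Weitzenböck formula on the bundle with fibre `H`: skew-adjoint
operators `F i j = - F j i` on `H`, which under `so(n)` rotate like the elements `E_ij`. -/
structure IsWeitz (L F : Fin n → Fin n → Module.End ℂ H) : Prop where
  anti : ∀ i j, F i j = - F j i
  equiv : ∀ i j k l, L i j * F k l - F k l * L i j
    = (if j = k then F i l else 0) - (if i = k then F j l else 0)
      - (if j = l then F i k else 0) + (if i = l then F j k else 0)
  skew : ∀ i j x y, ⟪F i j x, y⟫_ℂ = - ⟪x, F i j y⟫_ℂ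

/-- The curvature term `K(R) = - 1/4 ∑ R_ijkl F_ij L_kl` of the Weitzenböck formula
`- ∑ F_ij ∇_i ∇_j = K(R)`. -/
noncomputable def wK (L F : Fin n → Fin n → Module.End ℂ H) (R : Tens n) : Module.End ℂ H :=
  (-(1 / 4) : ℂ) • ∑ i, ∑ j, ∑ k, ∑ l, ((R i j k l : ℝ) : ℂ) • (F i j * L k l)

/-- `lam 0, lam 1, ...` is a highest weight of the representation `L`: there is a vector `v ≠ 0`
which is an eigenvector of the operators `- i L_{2k,2k+1}` of the standard Cartan subalgebra with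
eigenvalues `lam k`, and which is killed by the operators `L_{2k,s} + i L_{2k+1,s}`, `s > 2k+1`
(they span the positive root vectors). -/
def IsHighestWeight (L : Fin n → Fin n → Module.End ℂ H) (lam : ℕ → ℝ) : Prop :=
  ∃ v : H, v ≠ 0 ∧
    (∀ (k : ℕ) (hk : 2 * k + 1 < n),
      L ⟨2 * k, by omega⟩ ⟨2 * k + 1, hk⟩ v = (Complex.I * (lam k : ℂ)) • v) ∧
    (∀ (k : ℕ) (hk : 2 * k + 1 < n) (s : Fin n), 2 * k + 1 < (s : ℕ) →
      L ⟨2 * k, by omega⟩ s v + Complex.I • L ⟨2 * k + 1, hk⟩ s v = 0)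

/-- The weight `(1, 0, ..., 0)` of the tangent bundle; `m = n / 2` is the rank. -/
def WVector (n : ℕ) (lam : ℕ → ℝ) : Prop := lam 0 = 1 ∧ ∀ k, 1 ≤ k → k < n / 2 → lam k = 0

/-- The weights `(1/2, ..., 1/2, ± 1/2)` of the (half) spinor bundles; the minus sign occurs only
for even `n`. -/
def WSpin (n : ℕ) (lam : ℕ → ℝ) : Prop :=
  (∀ k, k + 1 < n / 2 → lam k = 1 / 2) ∧
    (lam (n / 2 - 1) = 1 / 2 ∨ (Even n ∧ lam (n / 2 - 1) = -(1 / 2)))

/-- The weights `(3/2, 1/2, ..., 1/2, ± 1/2)` of the Rarita-Schwinger bundles; the minus sign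
occurs only for even `n`. -/
def WRarita (n : ℕ) (lam : ℕ → ℝ) : Prop :=
  lam 0 = 3 / 2 ∧ (∀ k, 1 ≤ k → k + 1 < n / 2 → lam k = 1 / 2) ∧
    (lam (n / 2 - 1) = 1 / 2 ∨ (Even n ∧ lam (n / 2 - 1) = -(1 / 2)))

/-- For even `n`: the weight `(1, ..., 1, 0)` of the bundle of forms of degree `n / 2 - 1`. -/
def WMiddle (n : ℕ) (lam : ℕ → ℝ) : Prop :=
  Even n ∧ (∀ k, k + 1 < n / 2 → lam k = 1) ∧ lam (n / 2 - 1) = 0

end Pool.Agent.Hhelper14.EW
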