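import Pool.Agent.Hhelper14.EW.Bil
import Pool.Agent.Hhelper14.EW.DefsC

set_option autoImplicit false
set_option linter.unusedSectionVars false
set_option linter.unusedSimpArgs false

/-!
# Brackets of a representation of `so(n)` with a tensor operator
-/

namespace Pool.Agent.Hhelper14.EW

open scoped ComplexConjugate InnerProductSpace

variable {n : ℕ} {A : Type*} [Ring A] [Algebra ℂ A]

/-- `M` rotates like the elements `E_ij` -/
structure IsTens (L M : Fin n → Fin n → A) : Prop where
  anti : ∀ i j, M i j = - M j i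
  equiv : ∀ i j k l, L i j * M k l - M k l * L i j
    = (if j = k then M i l else 0) - (if i = k then M j l else 0)
      - (if j = l then M i k else 0) + (if i = l then M j k else 0)

/-- raising operator -/
def up (M : Fin n → Fin n → A) (p q s : Fin n) : A := M p s + Complex.I • M q s

/-- lowering operator -/
def dn (M : Fin n → Fin n → A) (p q s : Fin n) : A := M p s - Complex.I • M q s

/-- Cartan operator -/
def Hh (M : Fin n → Fin n → A) (p q : Fin n) : A := (-Complex.I) • M p q

variable {L M : Fin n → Fin n → A}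

theorem IsTens.diag (h : IsTens L M) (i : Fin n) : M i i = 0 :=
  add_self_zero (by nth_rewrite 1 [h.anti i i]; abel)

theorem IsTens.disj (h : IsTens L M) {a b c d : Fin n} (hac : a ≠ c) (had : a ≠ d) (hbc : b ≠ c)
    (hbd : b ≠ d) : L a b * M c d - M c d * L a b = 0 := by
  rw [h.equiv]; simp [hac, had, hbc, hbd]

theorem IsTens.b1 (h : IsTens L M) {a b c : Fin n} (hab : a ≠ b) (hbc : b ≠ c) (hac : a ≠ c) :
    L a b * M b c - M b c * L a b = M a c := by
  rw [h.equiv]; simp [hab, hbc, hac]

theorem IsTens.b2 (h : IsTens L M) {a b c : Fin n} (hab : a ≠ b) (hbc : b ≠ c) (hac : a ≠ c) :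
    L a b * M a c - M a c * L a b = - M b c := by
  rw [h.equiv]; simp [hab, hbc, hac, Ne.symm hab]

theorem IsTens.b3 (h : IsTens L M) {a b c : Fin n} (hab : a ≠ b) (hbc : b ≠ c) (hac : a ≠ c) :
    L a b * M c b - M c b * L a b = - M a c := by
  rw [h.equiv]; simp [hab, hbc, hac, Ne.symm hbc]

theorem IsTens.b4 (h : IsTens L M) {a b c : Fin n} (hab : a ≠ b) (hbc : b ≠ c) (hac : a ≠ c) :
    L a b * M c a - M c a * L a b = M b c := by
  rw [h.equiv]; simp [hab, hbc, hac, Ne.symm hab]

theorem IsTens.b0 (h : IsTens L M) (a b : Fin n) : L a b * M a b - M a b * L a b = 0 := by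
  rw [h.equiv]
  by_cases hab : a = b
  · subst hab; simp [h.diag]
  · simp [hab, Ne.symm hab, h.diag]

/-- bracket -/
def br (x y : A) : A := x * y - y * x

theorem br_add_left (x y z : A) : br (x + y) z = br x z + br y z := by unfold br; noncomm_ring
theorem br_add_right (x y z : A) : br x (y + z) = br x y + br x z := by unfold br; noncomm_ring
theorem br_sub_left (x y z : A) : br (x - y) z = br x z - br y z := by unfold br; noncomm_ring
theorem br_sub_right (x y z : A) : br x (y - z) = br x y - br x z := by unfold br; noncomm_ring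
theorem br_smul_left (c : ℂ) (x y : A) : br (c • x) y = c • br x y := by
  unfold br; rw [smul_mul_assoc, mul_smul_comm, smul_sub]
theorem br_smul_right (c : ℂ) (x y : A) : br x (c • y) = c • br x y := by
  unfold br; rw [smul_mul_assoc, mul_smul_comm, smul_sub]
theorem br_swap (x y : A) : br x y = - br y x := by unfold br; noncomm_ring

theorem br_Hh_up (h : IsTens L M) {p q s : Fin n} (hpq : p ≠ q) (hps : p ≠ s) (hqs : q ≠ s) :
    br (Hh L p q) (up M p q s) = up M p q s := by
  have c1 : br (L p q) (M p s) = - M q s := h.b2 hpq hqs hps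
  have c2 : br (L p q) (M q s) = M p s := h.b1 hpq hqs hps
  unfold Hh up
  rw [br_smul_left, br_add_right, br_smul_right, c1, c2, smul_add, smul_smul, smul_neg]
  rw [show (-Complex.I) * Complex.I = 1 by rw [neg_mul, Complex.I_mul_I, neg_neg]]
  module

theorem br_Hh_up_disj (h : IsTens L M) {a b p q s : Fin n} (hap : a ≠ p) (haq : a ≠ q)
    (has : a ≠ s) (hbp : b ≠ p) (hbq : b ≠ q) (hbs : b ≠ s) :
    br (Hh L a b) (up M p q s) = 0 := by
  have c1 : br (L a b) (M p s) = 0 := h.disj hap has hbp hbs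
  have c2 : br (L a b) (M q s) = 0 := h.disj haq has hbq hbs
  unfold Hh up
  rw [br_smul_left, br_add_right, br_smul_right, c1, c2]
  module

theorem br_Hh_Hh_self (h : IsTens L M) (p q : Fin n) : br (Hh L p q) (Hh M p q) = 0 := by
  have c1 : br (L p q) (M p q) = 0 := h.b0 p q
  unfold Hh
  rw [br_smul_left, br_smul_right, c1, smul_zero, smul_zero]

theorem br_Hh_Hh_disj (h : IsTens L M) {a b p q : Fin n} (hap : a ≠ p) (haq : a ≠ q)
    (hbp : b ≠ p) (hbq : b ≠ q) : br (Hh L a b) (Hh M p q) = 0 := by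
  have c1 : br (L a b) (M p q) = 0 := h.disj hap haq hbp hbq
  unfold Hh
  rw [br_smul_left, br_smul_right, c1, smul_zero, smul_zero]

/-- `[up, dn]` -/
theorem br_up_dn (h : IsTens L M) {p q s : Fin n} (hpq : p ≠ q) (hps : p ≠ s) (hqs : q ≠ s) :
    br (up L p q s) (dn M p q s) = (2 * Complex.I) • M p q := by
  have c1 : br (L p s) (M p s) = 0 := h.b0 p s
  have c2 : br (L q s) (M q s) = 0 := h.b0 q s
  have c3 : br (L p s) (M q s) = - M p q := h.b3 hps (Ne.symm hqs) hpq
  have c4 : br (L q s) (M p s) = - M q p := h.b3 hqs (Ne.symm hps) (Ne.symm hpq)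
  unfold up dn
  simp only [br_add_left, br_sub_right, br_smul_left, br_smul_right, c1, c2, c3, c4,
    h.anti q p]
  module

/-- `[dn, up]` -/
theorem br_dn_up (h : IsTens L M) {p q s : Fin n} (hpq : p ≠ q) (hps : p ≠ s) (hqs : q ≠ s) :
    br (dn L p q s) (up M p q s) = (-(2 * Complex.I)) • M p q := by
  have c1 : br (L p s) (M p s) = 0 := h.b0 p s
  have c2 : br (L q s) (M q s) = 0 := h.b0 q s
  have c3 : br (L p s) (M q s) = - M p q := h.b3 hps (Ne.symm hqs) hpq
  have c4 : br (L q s) (M p s) = - M q p := h.b3 hqs (Ne.symm hps) (Ne.symm hpq)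
  unfold up dn
  simp only [br_sub_left, br_add_right, br_smul_left, br_smul_right, c1, c2, c3, c4,
    h.anti q p]
  module

/-! ### root vectors of two pairs -/

/-- positive root vector -/
def eL (M : Fin n → Fin n → A) (p q r s : Fin n) : A :=
  (M p r - M q s) + Complex.I • (M p s + M q r)

/-- negative root vector -/
def fL (M : Fin n → Fin n → A) (p q r s : Fin n) : A :=
  (M p r - M q s) - Complex.I • (M p s + M q r)

/-- coroot -/
def hL (M : Fin n → Fin n → A) (p q r s : Fin n) : A := Hh M p q + Hh M r s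

theorem eL_eq (M : Fin n → Fin n → A) (p q r s : Fin n) :
    eL M p q r s = up M p q r + Complex.I • up M p q s := by
  unfold eL up
  rw [smul_add, smul_add, smul_smul, Complex.I_mul_I]
  module

section four

variable {p q r s : Fin n} (hpq : p ≠ q) (hpr : p ≠ r) (hps : p ≠ s) (hqr : q ≠ r) (hqs : q ≠ s)
  (hrs : r ≠ s)
include hpq hpr hps hqr hqs hrs

theorem br_e_f (h : IsTens L M) :
    br (eL L p q r s) (fL M p q r s) = (-4 : ℂ) • hL M p q r s := by
  have c11 : br (L p r) (M p r) = 0 := h.b0 p r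
  have c12 : br (L p r) (M q s) = 0 := h.disj hpq hps (Ne.symm hqr) hrs
  have c13 : br (L p r) (M p s) = - M r s := h.b2 hpr hrs hps
  have c14 : br (L p r) (M q r) = - M p q := h.b3 hpr (Ne.symm hqr) hpq
  have c21 : br (L q s) (M p r) = 0 := h.disj (Ne.symm hpq) hqr (Ne.symm hps) (Ne.symm hrs)
  have c22 : br (L q s) (M q s) = 0 := h.b0 q s
  have c23 : br (L q s) (M p s) = - M q p := h.b3 hqs (Ne.symm hps) (Ne.symm hpq)
  have c24 : br (L q s) (M q r) = - M s r := h.b2 hqs (Ne.symm hrs) hqr
  have c31 : br (L p s) (M p r) = - M s r := h.b2 hps (Ne.symm hrs) hpr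
  have c32 : br (L p s) (M q s) = - M p q := h.b3 hps (Ne.symm hqs) hpq
  have c33 : br (L p s) (M p s) = 0 := h.b0 p s
  have c34 : br (L p s) (M q r) = 0 := h.disj hpq hpr (Ne.symm hqs) (Ne.symm hrs)
  have c41 : br (L q r) (M p r) = - M q p := h.b3 hqr (Ne.symm hpr) (Ne.symm hpq)
  have c42 : br (L q r) (M q s) = - M r s := h.b2 hqr hrs hqs
  have c43 : br (L q r) (M p s) = 0 := h.disj (Ne.symm hpq) hqs (Ne.symm hpr) hrs
  have c44 : br (L q r) (M q r) = 0 := h.b0 q r
  unfold eL fL hL Hh
  simp only [br_add_left, br_sub_right, br_sub_left, br_add_right, br_smul_left, br_smul_right,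
    c11, c12, c13, c14, c21, c22, c23, c24, c31, c32, c33, c34, c41, c42, c43, c44,
    h.anti q p, h.anti s r, smul_add, smul_sub, smul_neg, smul_smul, smul_zero]
  module

theorem br_f_e (h : IsTens L M) :
    br (fL L p q r s) (eL M p q r s) = (4 : ℂ) • hL M p q r s := by
  have c11 : br (L p r) (M p r) = 0 := h.b0 p r
  have c12 : br (L p r) (M q s) = 0 := h.disj hpq hps (Ne.symm hqr) hrs
  have c13 : br (L p r) (M p s) = - M r s := h.b2 hpr hrs hps
  have c14 : br (L p r) (M q r) = - M p q := h.b3 hpr (Ne.symm hqr) hpq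
  have c21 : br (L q s) (M p r) = 0 := h.disj (Ne.symm hpq) hqr (Ne.symm hps) (Ne.symm hrs)
  have c22 : br (L q s) (M q s) = 0 := h.b0 q s
  have c23 : br (L q s) (M p s) = - M q p := h.b3 hqs (Ne.symm hps) (Ne.symm hpq)
  have c24 : br (L q s) (M q r) = - M s r := h.b2 hqs (Ne.symm hrs) hqr
  have c31 : br (L p s) (M p r) = - M s r := h.b2 hps (Ne.symm hrs) hpr
  have c32 : br (L p s) (M q s) = - M p q := h.b3 hps (Ne.symm hqs) hpq
  have c33 : br (L p s) (M p s) = 0 := h.b0 p s
  have c34 : br (L p s) (M q r) = 0 := h.disj hpq hpr (Ne.symm hqs) (Ne.symm hrs)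
  have c41 : br (L q r) (M p r) = - M q p := h.b3 hqr (Ne.symm hpr) (Ne.symm hpq)
  have c42 : br (L q r) (M q s) = - M r s := h.b2 hqr hrs hqs
  have c43 : br (L q r) (M p s) = 0 := h.disj (Ne.symm hpq) hqs (Ne.symm hpr) hrs
  have c44 : br (L q r) (M q r) = 0 := h.b0 q r
  unfold eL fL hL Hh
  simp only [br_add_left, br_sub_right, br_sub_left, br_add_right, br_smul_left, br_smul_right,
    c11, c12, c13, c14, c21, c22, c23, c24, c31, c32, c33, c34, c41, c42, c43, c44,
    h.anti q p, h.anti s r, smul_add, smul_sub, smul_neg, smul_smul, smul_zero]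
  module

theorem br_h_e (h : IsTens L M) :
    br (hL L p q r s) (eL M p q r s) = (2 : ℂ) • eL M p q r s := by
  have c11 : br (L p q) (M p r) = - M q r := h.b2 hpq hqr hpr
  have c12 : br (L p q) (M q s) = M p s := h.b1 hpq hqs hps
  have c13 : br (L p q) (M p s) = - M q s := h.b2 hpq hqs hps
  have c14 : br (L p q) (M q r) = M p r := h.b1 hpq hqr hpr
  have c21 : br (L r s) (M p r) = M s p := h.b4 hrs (Ne.symm hps) (Ne.symm hpr)
  have c22 : br (L r s) (M q s) = - M r q := h.b3 hrs (Ne.symm hqs) (Ne.symm hqr)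
  have c23 : br (L r s) (M p s) = - M r p := h.b3 hrs (Ne.symm hps) (Ne.symm hpr)
  have c24 : br (L r s) (M q r) = M s q := h.b4 hrs (Ne.symm hqs) (Ne.symm hqr)
  unfold hL Hh eL
  simp only [br_add_left, br_sub_right, br_sub_left, br_add_right, br_smul_left, br_smul_right,
    c11, c12, c13, c14, c21, c22, c23, c24, h.anti s p, h.anti r q, h.anti r p, h.anti s q,
    smul_add, smul_sub, smul_neg, smul_smul]
  match_scalars <;> ring_nf <;> simp [Complex.I_sq]

theorem br_h_f (h : IsTens L M) :
    br (hL L p q r s) (fL M p q r s) = (-2 : ℂ) • fL M p q r s := by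
  have c11 : br (L p q) (M p r) = - M q r := h.b2 hpq hqr hpr
  have c12 : br (L p q) (M q s) = M p s := h.b1 hpq hqs hps
  have c13 : br (L p q) (M p s) = - M q s := h.b2 hpq hqs hps
  have c14 : br (L p q) (M q r) = M p r := h.b1 hpq hqr hpr
  have c21 : br (L r s) (M p r) = M s p := h.b4 hrs (Ne.symm hps) (Ne.symm hpr)
  have c22 : br (L r s) (M q s) = - M r q := h.b3 hrs (Ne.symm hqs) (Ne.symm hqr)
  have c23 : br (L r s) (M p s) = - M r p := h.b3 hrs (Ne.symm hps) (Ne.symm hpr)
  have c24 : br (L r s) (M q r) = M s q := h.b4 hrs (Ne.symm hqs) (Ne.symm hqr)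
  unfold hL Hh fL
  simp only [br_add_left, br_sub_right, br_sub_left, br_add_right, br_smul_left, br_smul_right,
    c11, c12, c13, c14, c21, c22, c23, c24, h.anti s p, h.anti r q, h.anti r p, h.anti s q,
    smul_add, smul_sub, smul_neg, smul_smul]
  match_scalars <;> ring_nf <;> simp [Complex.I_sq]

theorem br_e_h (h : IsTens L M) :
    br (eL L p q r s) (hL M p q r s) = (-2 : ℂ) • eL M p q r s := by
  have c11 : br (L p r) (M p q) = - M r q := h.b2 hpr (Ne.symm hqr) hpq
  have c12 : br (L q s) (M p q) = M s p := h.b4 hqs (Ne.symm hps) (Ne.symm hpq)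
  have c13 : br (L p s) (M p q) = - M s q := h.b2 hps (Ne.symm hqs) hpq
  have c14 : br (L q r) (M p q) = M r p := h.b4 hqr (Ne.symm hpr) (Ne.symm hpq)
  have c21 : br (L p r) (M r s) = M p s := h.b1 hpr hrs hps
  have c22 : br (L q s) (M r s) = - M q r := h.b3 hqs (Ne.symm hrs) hqr
  have c23 : br (L p s) (M r s) = - M p r := h.b3 hps (Ne.symm hrs) hpr
  have c24 : br (L q r) (M r s) = M q s := h.b1 hqr hrs hqs
  unfold hL Hh eL
  simp only [br_add_left, br_sub_right, br_sub_left, br_add_right, br_smul_left, br_smul_right,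
    c11, c12, c13, c14, c21, c22, c23, c24, h.anti s p, h.anti r q, h.anti r p, h.anti s q,
    smul_add, smul_sub, smul_neg, smul_smul]
  match_scalars <;> ring_nf <;> simp [Complex.I_sq]

end four

end Pool.Agent.Hhelper14.EW
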