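import Pool.Agent.Hhelper14.EW.C1

set_option autoImplicit false
set_option linter.unusedSectionVars false
set_option linter.unusedSimpArgs false

/-!
# Highest weight vectors
-/

namespace Pool.Agent.Hhelper14.EW

open scoped ComplexConjugate InnerProductSpace

variable {n : ℕ} {H : Type*} [NormedAddCommGroup H] [InnerProductSpace ℂ H]
  {L F : Fin n → Fin n → Module.End ℂ H}

theorem IsRep.tens (h : IsRep L) : IsTens L L := ⟨h.anti, h.comm⟩

theorem IsWeitz.tens (h : IsWeitz L F) : IsTens L F := ⟨h.anti, h.equiv⟩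

theorem br_app (x y : Module.End ℂ H) (v : H) : br x y v = x (y v) - y (x v) := rfl

theorem Hh_app (M : Fin n → Fin n → Module.End ℂ H) (p q : Fin n) (v : H) :
    Hh M p q v = (-Complex.I) • M p q v := rfl

theorem up_app (M : Fin n → Fin n → Module.End ℂ H) (p q s : Fin n) (v : H) :
    up M p q s v = M p s v + Complex.I • M q s v := rfl

theorem dn_app (M : Fin n → Fin n → Module.End ℂ H) (p q s : Fin n) (v : H) :
    dn M p q s v = M p s v - Complex.I • M q s v := rfl

theorem conj_negI : (starRingEnd ℂ) (-Complex.I) = Complex.I := by simp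

theorem Hh_symm {M : Fin n → Fin n → Module.End ℂ H}
    (hM : ∀ i j x y, ⟪M i j x, y⟫_ℂ = - ⟪x, M i j y⟫_ℂ) (p q : Fin n) (x y : H) :
    ⟪Hh M p q x, y⟫_ℂ = ⟪x, Hh M p q y⟫_ℂ := by
  rw [Hh_app, Hh_app, inner_smul_left, inner_smul_right, hM, conj_negI]
  ring

theorem dn_adj {M : Fin n → Fin n → Module.End ℂ H}
    (hM : ∀ i j x y, ⟪M i j x, y⟫_ℂ = - ⟪x, M i j y⟫_ℂ) (p q s : Fin n) (x y : H) :
    ⟪dn M p q s x, y⟫_ℂ = - ⟪x, up M p q s y⟫_ℂ := by
  rw [dn_app, up_app, inner_sub_left, inner_smul_left, inner_add_right, inner_smul_right, hM, hM,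
    Complex.conj_I]
  ring

theorem up_adj {M : Fin n → Fin n → Module.End ℂ H}
    (hM : ∀ i j x y, ⟪M i j x, y⟫_ℂ = - ⟪x, M i j y⟫_ℂ) (p q s : Fin n) (x y : H) :
    ⟪up M p q s x, y⟫_ℂ = - ⟪x, dn M p q s y⟫_ℂ := by
  rw [dn_app, up_app, inner_add_left, inner_smul_left, inner_sub_right, inner_smul_right, hM, hM,
    Complex.conj_I]
  ring

/-- the largest eigenvalue of a symmetric operator on an invariant subspace -/
theorem max_eig [FiniteDimensional ℂ H] {A : Module.End ℂ H}
    (hA : ∀ x y, ⟪A x, y⟫_ℂ = ⟪x, A y⟫_ℂ) (E : Submodule ℂ H) (hE : E ≠ ⊥)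
    (hinv : ∀ x ∈ E, A x ∈ E) :
    ∃ t : ℝ, (∃ w ∈ E, w ≠ 0 ∧ A w = (t : ℂ) • w) ∧
      ∀ t' : ℝ, t < t' → ∀ w ∈ E, A w = (t' : ℂ) • w → w = 0 := by
  have hne : ({t : ℝ | ∃ w ∈ E, w ≠ 0 ∧ A w = (t : ℂ) • w}).Nonempty := by
    haveI : Nontrivial E := (Submodule.nontrivial_iff_ne_bot).mpr hE
    obtain ⟨μ, hμ⟩ := Module.End.exists_eigenvalue (A.restrict hinv)
    obtain ⟨w, hw⟩ := hμ.exists_hasEigenvector
    have h1 : A (w : H) = μ • (w : H) := by
      have := hw.apply_eq_smul
      have h2 := congrArg (fun z : E => (z : H)) this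
      simpa using h2
    have h0 : (w : H) ≠ 0 := by
      intro h
      exact hw.2 (by ext; exact h)
    have h2 : (starRingEnd ℂ) μ = μ := by
      have e := hA w w
      rw [h1, inner_smul_left, inner_smul_right] at e
      have h3 : ⟪(w : H), (w : H)⟫_ℂ ≠ 0 := fun h => h0 (inner_self_eq_zero.mp h)
      exact mul_right_cancel₀ h3 e
    refine ⟨μ.re, w, w.2, h0, ?_⟩
    rw [h1]
    congr 1
    exact (Complex.conj_eq_iff_re.mp h2).symm
  have hfin : ({t : ℝ | ∃ w ∈ E, w ≠ 0 ∧ A w = (t : ℂ) • w}).Finite := by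
    refine Set.Finite.subset (Set.Finite.preimage (Complex.ofReal_injective.injOn)
      A.finite_hasEigenvalue) ?_
    rintro t ⟨w, _, h0, h1⟩
    exact Module.End.hasEigenvalue_of_hasEigenvector
      ⟨Module.End.mem_eigenspace_iff.mpr h1, h0⟩
  obtain ⟨t, ht, hmax⟩ := Set.exists_max_image _ id hfin hne
  refine ⟨t, ht, fun t' htt w hw h1 => ?_⟩
  by_contra h0
  have := hmax t' ⟨w, hw, h0, h1⟩
  simp only [id] at this
  linarith

section ix

variable (n) [NeZero n]

/-- first index of a pair -/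
def P (k : ℕ) : Fin n := Fin.ofNat n (2 * k)

/-- second index of a pair -/
def Q (k : ℕ) : Fin n := Fin.ofNat n (2 * k + 1)

variable {n}

theorem P_val {k : ℕ} (hk : 2 * k + 1 < n) : (P n k : ℕ) = 2 * k := by
  show (2 * k) % n = 2 * k
  exact Nat.mod_eq_of_lt (by omega)

theorem Q_val {k : ℕ} (hk : 2 * k + 1 < n) : (Q n k : ℕ) = 2 * k + 1 := by
  show (2 * k + 1) % n = 2 * k + 1
  exact Nat.mod_eq_of_lt hk

theorem ne_of_val {a b : Fin n} (h : (a : ℕ) ≠ b) : a ≠ b := fun e => h (by rw [e])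

theorem P_ne_Q {k : ℕ} (hk : 2 * k + 1 < n) : P n k ≠ Q n k :=
  ne_of_val (by rw [P_val hk, Q_val hk]; omega)

/-- Cartan operator of the pair `k` -/
def HC (M : Fin n → Fin n → Module.End ℂ H) (k : ℕ) : Module.End ℂ H := Hh M (P n k) (Q n k)

/-- joint eigenspace -/
def Esp (L : Fin n → Fin n → Module.End ℂ H) (lam : ℕ → ℝ) (k : ℕ) : Submodule ℂ H where
  carrier := {w | ∀ i < k, HC L i w = (lam i : ℂ) • w}
  add_mem' := by
    intro a b ha hb i hi
    rw [map_add, ha i hi, hb i hi, smul_add]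
  zero_mem' := by
    intro i _
    rw [map_zero, smul_zero]
  smul_mem' := by
    intro c a ha i hi
    rw [map_smul, ha i hi, smul_comm]

theorem mem_Esp {lam : ℕ → ℝ} {k : ℕ} {w : H} :
    w ∈ Esp L lam k ↔ ∀ i < k, HC L i w = (lam i : ℂ) • w := Iff.rfl

theorem HC_comm {M : Fin n → Fin n → Module.End ℂ H} (h : IsTens L M) {i k : ℕ}
    (hi : 2 * i + 1 < n) (hk : 2 * k + 1 < n) : br (HC L i) (HC M k) = 0 := by
  by_cases hik : i = k
  · subst hik; exact br_Hh_Hh_self h _ _
  · unfold HC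
    refine br_Hh_Hh_disj h ?_ ?_ ?_ ?_ <;>
      · apply ne_of_val
        simp only [P_val hi, Q_val hi, P_val hk, Q_val hk]
        omega

theorem HC_app_comm {M : Fin n → Fin n → Module.End ℂ H} (h : IsTens L M) {i k : ℕ}
    (hi : 2 * i + 1 < n) (hk : 2 * k + 1 < n) (v : H) :
    HC L i (HC M k v) = HC M k (HC L i v) := by
  have := app_eq (HC_comm h hi hk) v
  rw [br_app] at this
  exact sub_eq_zero.mp this

theorem HC_up_lt {M : Fin n → Fin n → Module.End ℂ H} (h : IsTens L M) {i j : ℕ} (hij : i < j)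
    (hj : 2 * j + 1 < n) {s : Fin n} (hs : 2 * j + 1 < (s : ℕ)) :
    br (HC L i) (up M (P n j) (Q n j) s) = 0 := by
  have hi : 2 * i + 1 < n := by omega
  unfold HC
  refine br_Hh_up_disj h ?_ ?_ ?_ ?_ ?_ ?_ <;>
    · apply ne_of_val
      simp only [P_val hi, Q_val hi, P_val hj, Q_val hj]
      omega

theorem HC_up_self {M : Fin n → Fin n → Module.End ℂ H} (h : IsTens L M) {j : ℕ}
    (hj : 2 * j + 1 < n) {s : Fin n} (hs : 2 * j + 1 < (s : ℕ)) :
    br (HC L j) (up M (P n j) (Q n j) s) = up M (P n j) (Q n j) s := by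
  unfold HC
  refine br_Hh_up h (P_ne_Q hj) ?_ ?_ <;>
    · apply ne_of_val
      simp only [P_val hj, Q_val hj]
      omega

/-- a vector of lexicographically maximal weight -/
structure HWV (L : Fin n → Fin n → Module.End ℂ H) (lam : ℕ → ℝ) (v : H) : Prop where
  ne : v ≠ 0
  eig : ∀ k, 2 * k + 1 < n → HC L k v = (lam k : ℂ) • v
  mx : ∀ j, 2 * j + 1 < n → ∀ t : ℝ, lam j < t → ∀ w : H,
    (∀ i < j, HC L i w = (lam i : ℂ) • w) → HC L j w = (t : ℂ) • w → w = 0

theorem exists_lex [FiniteDimensional ℂ H] [Nontrivial H] (h : IsRep L) (k : ℕ)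
    (hk : 2 * k ≤ n) : ∃ (lam : ℕ → ℝ) (v : H), v ≠ 0 ∧ (∀ j < k, HC L j v = (lam j : ℂ) • v) ∧
      (∀ j < k, ∀ t : ℝ, lam j < t → ∀ w : H, (∀ i < j, HC L i w = (lam i : ℂ) • w) →
        HC L j w = (t : ℂ) • w → w = 0) := by
  induction k with
  | zero =>
    obtain ⟨v, hv⟩ := exists_ne (0 : H)
    exact ⟨fun _ => 0, v, hv, fun j hj => absurd hj (by omega), fun j hj => absurd hj (by omega)⟩
  | succ k ih =>
    obtain ⟨lam, v, hv, h1, h2⟩ := ih (by omega)
    have hk' : 2 * k + 1 < n := by omega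
    have hE : Esp L lam k ≠ ⊥ := by
      intro hb
      have : v ∈ Esp L lam k := h1
      rw [hb, Submodule.mem_bot] at this
      exact hv this
    obtain ⟨t, ⟨w, hw, hw0, hwe⟩, hmax⟩ := max_eig (A := HC L k)
      (Hh_symm h.skew _ _) (Esp L lam k) hE (by
        intro x hx i hi
        rw [HC_app_comm h.tens (by omega) hk', hx i hi, map_smul])
    refine ⟨Function.update lam k t, w, hw0, ?_, ?_⟩
    · intro j hj
      by_cases hjk : j = k
      · subst hjk; rw [Function.update_self]; exact hwe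
      · rw [Function.update_of_ne hjk]; exact hw j (by omega)
    · intro j hj t' ht' w' hw' hwe'
      by_cases hjk : j = k
      · subst hjk
        rw [Function.update_self] at ht'
        refine hmax t' ht' w' ?_ hwe'
        intro i hi
        have := hw' i hi
        rwa [Function.update_of_ne (by omega)] at this
      · rw [Function.update_of_ne hjk] at ht'
        refine h2 j (by omega) t' ht' w' ?_ hwe'
        intro i hi
        have := hw' i hi
        rwa [Function.update_of_ne (by omega)] at this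

theorem exists_HWV [FiniteDimensional ℂ H] [Nontrivial H] (h : IsRep L) :
    ∃ (lam : ℕ → ℝ) (v : H), HWV L lam v := by
  obtain ⟨lam, v, h0, h1, h2⟩ := exists_lex h (n / 2) (by omega)
  exact ⟨lam, v, h0, fun k hk => h1 k (by omega), fun j hj => h2 j (by omega)⟩

theorem raise_zero {lam : ℕ → ℝ} {v : H} (hv : HWV L lam v) {j : ℕ} (hj : 2 * j + 1 < n)
    {X : Module.End ℂ H} (hX : ∀ i < j, br (HC L i) X = 0) (hXj : br (HC L j) X = X) :
    X v = 0 := by
  refine hv.mx j hj (lam j + 1) (by linarith) (X v) ?_ ?_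
  · intro i hi
    have := app_eq (hX i hi) v
    rw [br_app] at this
    have e := sub_eq_zero.mp this
    rw [e, hv.eig i (by omega), map_smul]
  · have := app_eq hXj v
    rw [br_app, hv.eig j hj, map_smul, sub_eq_iff_eq_add] at this
    rw [this]
    push_cast
    module

theorem up_zero {lam : ℕ → ℝ} {v : H} (hv : HWV L lam v)
    {M : Fin n → Fin n → Module.End ℂ H} (h : IsTens L M) {j : ℕ} (hj : 2 * j + 1 < n) {s : Fin n}
    (hs : 2 * j + 1 < (s : ℕ)) : up M (P n j) (Q n j) s v = 0 :=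
  raise_zero hv hj (fun i hi => HC_up_lt h hi hj hs) (HC_up_self h hj hs)

/-- every index pair is in a Cartan pair or in a raising/lowering pair -/
theorem index_cases {N : Submodule ℂ H} {M : Fin n → Fin n → Module.End ℂ H}
    (hanti : ∀ i j, M i j = - M j i) {v : H}
    (hH : ∀ k, 2 * k + 1 < n → M (P n k) (Q n k) v ∈ N)
    (h1 : ∀ k, 2 * k + 1 < n → ∀ s : Fin n, 2 * k + 1 < (s : ℕ) → M (P n k) s v ∈ N)
    (h2 : ∀ k, 2 * k + 1 < n → ∀ s : Fin n, 2 * k + 1 < (s : ℕ) → M (Q n k) s v ∈ N)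
    (i j : Fin n) : M i j v ∈ N := by
  have key : ∀ i j : Fin n, (i : ℕ) < j → M i j v ∈ N := by
    intro i j hij
    have hj := j.2
    set k := (i : ℕ) / 2 with hk
    by_cases he : (i : ℕ) = 2 * k
    · have hk' : 2 * k + 1 < n := by omega
      have e1 : i = P n k := Fin.ext (by rw [P_val hk']; exact he)
      by_cases hj2 : (j : ℕ) = 2 * k + 1
      · have e2 : j = Q n k := Fin.ext (by rw [Q_val hk']; exact hj2)
        rw [e1, e2]; exact hH k hk'
      · rw [e1]; exact h1 k hk' j (by omega)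
    · have he' : (i : ℕ) = 2 * k + 1 := by omega
      have hk' : 2 * k + 1 < n := by omega
      have e1 : i = Q n k := Fin.ext (by rw [Q_val hk']; exact he')
      rw [e1]; exact h2 k hk' j (by omega)
  rcases lt_trichotomy (i : ℕ) j with h | h | h
  · exact key i j h
  · have : i = j := Fin.ext h
    subst this
    have : M i i = 0 := add_self_zero (by nth_rewrite 1 [hanti i i]; abel)
    rw [this]; exact Submodule.zero_mem _
  · rw [hanti i j, LinearMap.neg_apply]
    exact Submodule.neg_mem _ (key j i h)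

/-- reduction of the membership to raising, lowering and Cartan operators -/
theorem index_cases' {N : Submodule ℂ H} {M : Fin n → Fin n → Module.End ℂ H}
    (hanti : ∀ i j, M i j = - M j i) {v : H}
    (hH : ∀ k, 2 * k + 1 < n → HC M k v ∈ N)
    (h1 : ∀ k, 2 * k + 1 < n → ∀ s : Fin n, 2 * k + 1 < (s : ℕ) → up M (P n k) (Q n k) s v ∈ N)
    (h2 : ∀ k, 2 * k + 1 < n → ∀ s : Fin n, 2 * k + 1 < (s : ℕ) → dn M (P n k) (Q n k) s v ∈ N)
    (i j : Fin n) : M i j v ∈ N := by
  refine index_cases hanti ?_ ?_ ?_ i j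
  · intro k hk
    have : M (P n k) (Q n k) v = Complex.I • HC M k v := by
      unfold HC
      rw [Hh_app, smul_smul, mul_neg, Complex.I_mul_I, neg_neg, one_smul]
    rw [this]; exact Submodule.smul_mem _ _ (hH k hk)
  · intro k hk s hs
    have : M (P n k) s v = (1 / 2 : ℂ) • (up M (P n k) (Q n k) s v + dn M (P n k) (Q n k) s v) := by
      rw [up_app, dn_app]; module
    rw [this]
    exact Submodule.smul_mem _ _ (Submodule.add_mem _ (h1 k hk s hs) (h2 k hk s hs))
  · intro k hk s hs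
    have : M (Q n k) s v
        = (-(Complex.I / 2)) • (up M (P n k) (Q n k) s v - dn M (P n k) (Q n k) s v) := by
      rw [up_app, dn_app]
      have : M (P n k) s v + Complex.I • M (Q n k) s v - (M (P n k) s v - Complex.I • M (Q n k) s v)
          = (2 * Complex.I) • M (Q n k) s v := by module
      rw [this, smul_smul, show (-(Complex.I / 2)) * (2 * Complex.I) = 1 by
        rw [show (-(Complex.I / 2)) * (2 * Complex.I) = -(Complex.I * Complex.I) by ring,
          Complex.I_mul_I, neg_neg], one_smul]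
    rw [this]
    exact Submodule.smul_mem _ _ (Submodule.sub_mem _ (h1 k hk s hs) (h2 k hk s hs))

/-- the smallest subspace containing `v` and closed under lowering operators -/
def Gen (L : Fin n → Fin n → Module.End ℂ H) (v : H) : Submodule ℂ H :=
  sInf {N | v ∈ N ∧ ∀ k, 2 * k + 1 < n → ∀ s : Fin n, 2 * k + 1 < (s : ℕ) → ∀ u ∈ N,
    dn L (P n k) (Q n k) s u ∈ N}

theorem Gen_mem (v : H) : v ∈ Gen L v := by
  unfold Gen
  rw [Submodule.mem_sInf]
  exact fun N hN => hN.1

theorem Gen_dn (v : H) {k : ℕ} (hk : 2 * k + 1 < n) {s : Fin n} (hs : 2 * k + 1 < (s : ℕ)) {u : H}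
    (hu : u ∈ Gen L v) : dn L (P n k) (Q n k) s u ∈ Gen L v := by
  unfold Gen at *
  rw [Submodule.mem_sInf] at *
  exact fun N hN => hN.2 k hk s hs u (hu N hN)

theorem Gen_le (v : H) {N : Submodule ℂ H} (hv : v ∈ N)
    (hN : ∀ k, 2 * k + 1 < n → ∀ s : Fin n, 2 * k + 1 < (s : ℕ) → ∀ u ∈ N,
      dn L (P n k) (Q n k) s u ∈ N) : Gen L v ≤ N := by
  unfold Gen
  exact sInf_le ⟨hv, hN⟩

theorem ite_mem {N : Submodule ℂ H} {p : Prop} [Decidable p] {X : Module.End ℂ H} {u : H}
    (h : X u ∈ N) : (if p then X else 0 : Module.End ℂ H) u ∈ N := by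
  split_ifs
  · exact h
  · exact Submodule.zero_mem _

/-- brackets preserve membership -/
theorem br_mem {M : Fin n → Fin n → Module.End ℂ H} (h : IsTens L M) {N : Submodule ℂ H} {u : H}
    (hu : ∀ a b, M a b u ∈ N) (i j k l : Fin n) : br (L i j) (M k l) u ∈ N := by
  have : br (L i j) (M k l) = (if j = k then M i l else 0) - (if i = k then M j l else 0)
      - (if j = l then M i k else 0) + (if i = l then M j k else 0) := h.equiv i j k l
  rw [this, LinearMap.add_apply, LinearMap.sub_apply, LinearMap.sub_apply]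
  exact Submodule.add_mem _ (Submodule.sub_mem _ (Submodule.sub_mem _ (ite_mem (hu _ _))
    (ite_mem (hu _ _))) (ite_mem (hu _ _))) (ite_mem (hu _ _))

theorem br_mem_dn {M : Fin n → Fin n → Module.End ℂ H} (h : IsTens L M) {N : Submodule ℂ H} {u : H}
    (hu : ∀ a b, M a b u ∈ N) (p q s k l : Fin n) : br (dn L p q s) (M k l) u ∈ N := by
  unfold dn
  rw [br_sub_left, br_smul_left]
  exact Submodule.sub_mem _ (br_mem h hu _ _ _ _) (Submodule.smul_mem _ _ (br_mem h hu _ _ _ _))

theorem br_mem_up {M : Fin n → Fin n → Module.End ℂ H} (h : IsTens L M) {N : Submodule ℂ H} {u : H}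
    (hu : ∀ a b, M a b u ∈ N) (p q s k l : Fin n) : br (up L p q s) (M k l) u ∈ N := by
  unfold up
  rw [br_add_left, br_smul_left]
  exact Submodule.add_mem _ (br_mem h hu _ _ _ _) (Submodule.smul_mem _ _ (br_mem h hu _ _ _ _))

theorem Gen_inv {lam : ℕ → ℝ} {v : H} (h : IsRep L) (hv : HWV L lam v) :
    ∀ x ∈ Gen L v, ∀ i j, L i j x ∈ Gen L v := by
  let N : Submodule ℂ H :=
    { carrier := {u | u ∈ Gen L v ∧ ∀ i j, L i j u ∈ Gen L v}
      add_mem' := by
        rintro a b ⟨ha, ha'⟩ ⟨hb, hb'⟩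
        refine ⟨Submodule.add_mem _ ha hb, fun i j => ?_⟩
        rw [map_add]; exact Submodule.add_mem _ (ha' i j) (hb' i j)
      zero_mem' := ⟨Submodule.zero_mem _, fun i j => by rw [map_zero]; exact Submodule.zero_mem _⟩
      smul_mem' := by
        rintro c a ⟨ha, ha'⟩
        refine ⟨Submodule.smul_mem _ _ ha, fun i j => ?_⟩
        rw [map_smul]; exact Submodule.smul_mem _ _ (ha' i j) }
  have hle : Gen L v ≤ N := by
    refine Gen_le v ⟨Gen_mem v, ?_⟩ ?_
    · refine index_cases' h.anti ?_ ?_ ?_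
      · intro k hk
        rw [hv.eig k hk]; exact Submodule.smul_mem _ _ (Gen_mem v)
      · intro k hk s hs
        rw [up_zero hv h.tens hk hs]; exact Submodule.zero_mem _
      · intro k hk s hs
        exact Gen_dn v hk hs (Gen_mem v)
    · rintro k hk s hs u ⟨hu, hu'⟩
      refine ⟨Gen_dn v hk hs hu, fun i j => ?_⟩
      have e : L i j (dn L (P n k) (Q n k) s u)
          = dn L (P n k) (Q n k) s (L i j u) - br (dn L (P n k) (Q n k) s) (L i j) u := by
        rw [br_app]; abel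
      rw [e]
      exact Submodule.sub_mem _ (Gen_dn v hk hs (hu' i j)) (br_mem_dn h.tens hu' _ _ _ _ _)
  exact fun x hx => (hle hx).2

/-- a subspace containing `v` and closed under lowering operators is everything -/
theorem gen_top {lam : ℕ → ℝ} {v : H} (h : IsRep L) (hirr : IsIrred L) (hv : HWV L lam v)
    {N : Submodule ℂ H} (hvN : v ∈ N)
    (hN : ∀ k, 2 * k + 1 < n → ∀ s : Fin n, 2 * k + 1 < (s : ℕ) → ∀ u ∈ N,
      dn L (P n k) (Q n k) s u ∈ N) (x : H) : x ∈ N := by
  have h1 := Gen_le (L := L) v hvN hN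
  rcases hirr (Gen L v) (fun x hx i j => Gen_inv h hv x hx i j) with h2 | h2
  · exfalso
    have := Gen_mem (L := L) v
    rw [h2, Submodule.mem_bot] at this
    exact hv.ne this
  · apply h1
    rw [h2]; trivial

/-- a vector orthogonal to `v` and killed by the raising operators is zero -/
theorem hw_unique {lam : ℕ → ℝ} {v : H} (h : IsRep L) (hirr : IsIrred L) (hv : HWV L lam v)
    {w : H} (hw : ⟪v, w⟫_ℂ = 0)
    (hup : ∀ k, 2 * k + 1 < n → ∀ s : Fin n, 2 * k + 1 < (s : ℕ) → up L (P n k) (Q n k) s w = 0) :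
    w = 0 := by
  let N : Submodule ℂ H :=
    { carrier := {u | ⟪u, w⟫_ℂ = 0}
      add_mem' := by
        intro a b ha hb
        show ⟪a + b, w⟫_ℂ = 0
        rw [inner_add_left, show ⟪a, w⟫_ℂ = 0 from ha, show ⟪b, w⟫_ℂ = 0 from hb, add_zero]
      zero_mem' := inner_zero_left _
      smul_mem' := by
        intro c a ha
        show ⟪c • a, w⟫_ℂ = 0
        rw [inner_smul_left, show ⟪a, w⟫_ℂ = 0 from ha, mul_zero] }
  have : w ∈ N := by
    refine gen_top h hirr hv (N := N) hw ?_ w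
    intro k hk s hs u _
    show ⟪dn L (P n k) (Q n k) s u, w⟫_ℂ = 0
    rw [dn_adj h.skew, hup k hk s hs, inner_zero_right, neg_zero]
  exact inner_self_eq_zero.mp this

end ix

end Pool.Agent.Hhelper14.EW
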