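import Pool.Agent.Hhelper14.EW.C2

set_option autoImplicit false
set_option linter.unusedSectionVars false
set_option linter.unusedSimpArgs false

/-!
# The weight of the tensor operator and its constraints
-/

namespace Pool.Agent.Hhelper14.EW

open scoped ComplexConjugate InnerProductSpace

variable {n : ℕ} {H : Type*} [NormedAddCommGroup H] [InnerProductSpace ℂ H]
  {L F : Fin n → Fin n → Module.End ℂ H} [NeZero n]

theorem br_mul_zero {x y z : Module.End ℂ H} (h1 : br x y = 0) (h2 : br x z = 0) :
    br x (y * z) = 0 := by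
  have : br x (y * z) = br x y * z + y * br x z := by unfold br; noncomm_ring
  rw [this, h1, h2, zero_mul, mul_zero, add_zero]

theorem br_mul_self {x y z : Module.End ℂ H} (h1 : br x y = y) (h2 : br x z = 0) :
    br x (y * z) = y * z := by
  have : br x (y * z) = br x y * z + y * br x z := by unfold br; noncomm_ring
  rw [this, h1, h2, mul_zero, add_zero]

/-- `v` is an eigenvector of the Cartan part of `F` -/
theorem exists_ell {lam : ℕ → ℝ} {v : H} (h : IsRep L) (hF : IsWeitz L F) (hirr : IsIrred L)
    (hv : HWV L lam v) {k : ℕ} (hk : 2 * k + 1 < n) :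
    ∃ c : ℝ, HC F k v = (c : ℂ) • v := by
  have hvv : ⟪v, v⟫_ℂ ≠ 0 := fun e => hv.ne (inner_self_eq_zero.mp e)
  set c : ℂ := ⟪v, HC F k v⟫_ℂ / ⟪v, v⟫_ℂ with hc
  have h0 : HC F k v - c • v = 0 := by
    refine hw_unique h hirr hv ?_ ?_
    · rw [inner_sub_right, inner_smul_right, hc, div_mul_cancel₀ _ hvv, sub_self]
    · intro j hj s hs
      have e1 : (up L (P n j) (Q n j) s * HC F k) v = 0 := by
        refine raise_zero hv hj ?_ ?_
        · intro i hi
          exact br_mul_zero (HC_up_lt h.tens hi hj hs) (HC_comm hF.tens (by omega) hk)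
        · exact br_mul_self (HC_up_self h.tens hj hs) (HC_comm hF.tens hj hk)
      rw [Module.End.mul_apply] at e1
      rw [map_sub, map_smul, e1, up_zero hv h.tens hj hs, smul_zero, sub_zero]
  have h1 : HC F k v = c • v := sub_eq_zero.mp h0
  have h2 : (starRingEnd ℂ) c = c := by
    have e := Hh_symm hF.skew (P n k) (Q n k) v v
    change ⟪HC F k v, v⟫_ℂ = ⟪v, HC F k v⟫_ℂ at e
    rw [h1, inner_smul_left, inner_smul_right] at e
    exact mul_right_cancel₀ hvv e
  refine ⟨c.re, ?_⟩
  rw [h1]
  congr 1
  exact (Complex.conj_eq_iff_re.mp h2).symm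

/-- if the Cartan part of `F` kills `v` then `F = 0` -/
theorem F_zero {lam : ℕ → ℝ} {v : H} (h : IsRep L) (hF : IsWeitz L F) (hirr : IsIrred L)
    (hv : HWV L lam v) (hl : ∀ k, 2 * k + 1 < n → HC F k v = 0) (i j : Fin n) : F i j = 0 := by
  -- first `F i j v = 0`
  have hFv : ∀ i j, F i j v = 0 := by
    intro i j
    let N : Submodule ℂ H :=
      { carrier := {u | ∀ i j, ⟪F i j v, u⟫_ℂ = 0}
        add_mem' := by
          intro a b ha hb i j
          rw [inner_add_right, ha i j, hb i j, add_zero]
        zero_mem' := fun i j => inner_zero_right _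
        smul_mem' := by
          intro c a ha i j
          rw [inner_smul_right, ha i j, mul_zero] }
    have hvN : v ∈ N := by
      -- all `F i j v` are orthogonal to `v`
      let V : Submodule ℂ H :=
        { carrier := {u | ⟪u, v⟫_ℂ = 0}
          add_mem' := by
            intro a b ha hb
            show ⟪a + b, v⟫_ℂ = 0
            rw [inner_add_left, show ⟪a, v⟫_ℂ = 0 from ha, show ⟪b, v⟫_ℂ = 0 from hb, add_zero]
          zero_mem' := inner_zero_left _
          smul_mem' := by
            intro c a ha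
            show ⟪c • a, v⟫_ℂ = 0
            rw [inner_smul_left, show ⟪a, v⟫_ℂ = 0 from ha, mul_zero] }
      show ∀ i j, F i j v ∈ V
      refine index_cases' hF.anti ?_ ?_ ?_
      · intro k hk
        rw [hl k hk]; exact Submodule.zero_mem _
      · intro k hk s hs
        rw [up_zero hv hF.tens hk hs]; exact Submodule.zero_mem _
      · intro k hk s hs
        show ⟪dn F (P n k) (Q n k) s v, v⟫_ℂ = 0
        rw [dn_adj hF.skew, up_zero hv hF.tens hk hs, inner_zero_right, neg_zero]
    have key : F i j v ∈ N := by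
      refine gen_top h hirr hv hvN ?_ _
      intro k hk s hs u hu a b
      have e1 : ⟪F a b v, dn L (P n k) (Q n k) s u⟫_ℂ
          = - ⟪up L (P n k) (Q n k) s (F a b v), u⟫_ℂ := by
        rw [up_adj h.skew, neg_neg]
      have e2 : up L (P n k) (Q n k) s (F a b v) = br (up L (P n k) (Q n k) s) (F a b) v := by
        rw [br_app, up_zero hv h.tens hk hs, map_zero, sub_zero]
      let V : Submodule ℂ H :=
        { carrier := {z | ⟪z, u⟫_ℂ = 0}
          add_mem' := by
            intro a b ha hb
            show ⟪a + b, u⟫_ℂ = 0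
            rw [inner_add_left, show ⟪a, u⟫_ℂ = 0 from ha, show ⟪b, u⟫_ℂ = 0 from hb, add_zero]
          zero_mem' := inner_zero_left _
          smul_mem' := by
            intro c a ha
            show ⟪c • a, u⟫_ℂ = 0
            rw [inner_smul_left, show ⟪a, u⟫_ℂ = 0 from ha, mul_zero] }
      have e3 : br (up L (P n k) (Q n k) s) (F a b) v ∈ V :=
        br_mem_up hF.tens (N := V) (u := v) (fun c d => hu c d) _ _ _ _ _
      rw [e1, e2, show ⟪br (up L (P n k) (Q n k) s) (F a b) v, u⟫_ℂ = 0 from e3, neg_zero]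
    exact inner_self_eq_zero.mp (key i j)
  -- then `F i j = 0`
  let N : Submodule ℂ H :=
    { carrier := {u | ∀ i j, F i j u = 0}
      add_mem' := by
        intro a b ha hb i j
        rw [map_add, ha i j, hb i j, add_zero]
      zero_mem' := fun i j => map_zero _
      smul_mem' := by
        intro c a ha i j
        rw [map_smul, ha i j, smul_zero] }
  refine LinearMap.ext fun x => ?_
  have : x ∈ N := by
    refine gen_top h hirr hv (N := N) hFv ?_ x
    intro k hk s hs u hu a b
    have e : F a b (dn L (P n k) (Q n k) s u)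
        = dn L (P n k) (Q n k) s (F a b u) - br (dn L (P n k) (Q n k) s) (F a b) u := by
      rw [br_app]; abel
    have e3 : br (dn L (P n k) (Q n k) s) (F a b) u ∈ (⊥ : Submodule ℂ H) :=
      br_mem_dn hF.tens (N := ⊥) (u := u) (fun c d => by
        rw [Submodule.mem_bot]; exact hu c d) _ _ _ _ _
    rw [Submodule.mem_bot] at e3
    rw [e, hu a b, map_zero, e3, sub_zero]
  exact this i j

/-! ### constraints -/

theorem pair_ne {j k : ℕ} (hjk : j < k) (hk : 2 * k + 1 < n) :
    P n j ≠ Q n j ∧ P n j ≠ P n k ∧ P n j ≠ Q n k ∧ Q n j ≠ P n k ∧ Q n j ≠ Q n k ∧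
      P n k ≠ Q n k := by
  have hj : 2 * j + 1 < n := by omega
  refine ⟨?_, ?_, ?_, ?_, ?_, ?_⟩ <;>
    · apply ne_of_val
      simp only [P_val hj, Q_val hj, P_val hk, Q_val hk]
      omega

/-- abstract form of the main computation: with the `sl_2` triple of a root -/
theorem sl2_calc {eL' fL' hL' eF fF hF' : Module.End ℂ H} {v : H} {μ l : ℂ}
    (b1 : br eL' fL' = (-4 : ℂ) • hL') (b2 : br eL' fF = (-4 : ℂ) • hF')
    (b3 : br eL' hF' = (-2 : ℂ) • eF) (b4 : br fL' eF = (4 : ℂ) • hF')
    (e1 : eL' v = 0) (e2 : eF v = 0) (hv : hL' v = μ • v) (hl : hF' v = l • v)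
    (hz : fF (fL' v) = 0) (v0 : v ≠ 0) : (μ - 1) * l = 0 := by
  have a1 : eL' (fL' v) = (-4 * μ) • v := by
    have := app_eq b1 v
    rw [br_app, e1, map_zero, sub_zero, LinearMap.smul_apply, hv, smul_smul] at this
    exact this
  have a2 : eL' (fF v) = (-4 * l) • v := by
    have := app_eq b2 v
    rw [br_app, e1, map_zero, sub_zero, LinearMap.smul_apply, hl, smul_smul] at this
    exact this
  have a3 : eF (fL' v) = (-4 * l) • v := by
    have := app_eq b4 v
    rw [br_app, e2, map_zero, zero_sub, LinearMap.smul_apply, hl, smul_smul] at this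
    rw [← neg_neg (eF (fL' v)), this]
    module
  have a4 : (-4 * μ) • fF v - (4 : ℂ) • hF' (fL' v) = 0 := by
    have := app_eq b2 (fL' v)
    rw [br_app, hz, map_zero, zero_sub, LinearMap.smul_apply, a1, map_smul] at this
    have h2 : (4 : ℂ) • hF' (fL' v) = (-4 * μ) • fF v := by
      have h3 : (4 : ℂ) • hF' (fL' v) = -((-4 : ℂ) • hF' (fL' v)) := by module
      rw [h3, ← this, neg_neg]
    rw [h2, sub_self]
  have a5 : eL' (hF' (fL' v)) = (-4 * μ * l + 8 * l) • v := by
    have := app_eq b3 (fL' v)
    rw [br_app, a1, map_smul, hl, LinearMap.smul_apply, a3, smul_smul, smul_smul,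
      sub_eq_iff_eq_add] at this
    rw [this]
    module
  have a6 := congrArg eL' a4
  rw [map_sub, map_smul, map_smul, a2, a5, map_zero, smul_smul, smul_smul, ← sub_smul] at a6
  rcases smul_eq_zero.mp a6 with h1 | h1
  · have : (32 : ℂ) * ((μ - 1) * l) = 0 := by linear_combination h1
    rcases mul_eq_zero.mp this with h2 | h2
    · norm_num at h2
    · exact h2
  · exact absurd h1 v0

section constr

variable {lam ell : ℕ → ℝ} {v : H} (h : IsRep L) (hF : IsWeitz L F)
  (hv : HWV L lam v) (hell : ∀ k, 2 * k + 1 < n → HC F k v = (ell k : ℂ) • v)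
  (hW : ∀ W : Tens n, IsCurv W → (∀ j l, ric W j l = 0) → op2 F L W = 0)

include h hF hv hell hW

theorem constr_sum {j k : ℕ} (hjk : j < k) (hk : 2 * k + 1 < n) :
    (lam j + lam k - 1) * (ell j + ell k) = 0 := by
  have hj : 2 * j + 1 < n := by omega
  obtain ⟨n1, n2, n3, n4, n5, n6⟩ := pair_ne hjk hk
  have hr : 2 * j + 1 < (P n k : ℕ) := by rw [P_val hk]; omega
  have hs : 2 * j + 1 < (Q n k : ℕ) := by rw [Q_val hk]; omega
  have key := sl2_calc (v := v) (μ := ((lam j + lam k : ℝ) : ℂ)) (l := ((ell j + ell k : ℝ) : ℂ))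
    (br_e_f n1 n2 n3 n4 n5 n6 h.tens) (br_e_f n1 n2 n3 n4 n5 n6 hF.tens)
    (br_e_h n1 n2 n3 n4 n5 n6 hF.tens) (br_f_e n1 n2 n3 n4 n5 n6 hF.tens)
    (by rw [eL_eq, LinearMap.add_apply, LinearMap.smul_apply, up_zero hv h.tens hj hr,
      up_zero hv h.tens hj hs, smul_zero, add_zero])
    (by rw [eL_eq, LinearMap.add_apply, LinearMap.smul_apply, up_zero hv hF.tens hj hr,
      up_zero hv hF.tens hj hs, smul_zero, add_zero])
    (by
      unfold hL
      rw [LinearMap.add_apply]
      change HC L j v + HC L k v = _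
      rw [hv.eig j hj, hv.eig k hk]; push_cast; module)
    (by
      unfold hL
      rw [LinearMap.add_apply]
      change HC F j v + HC F k v = _
      rw [hell j hj, hell k hk]; push_cast; module)
    (by
      have := iso4 hF.anti h.anti hW n1 n2 n3 n4 n5 n6 (c := -Complex.I)
        (by rw [neg_mul_neg, Complex.I_mul_I])
      have e : ∀ M : Fin n → Fin n → Module.End ℂ H,
          M (P n j) (P n k) - M (Q n j) (Q n k)
            + (-Complex.I) • (M (P n j) (Q n k) + M (Q n j) (P n k))
          = fL M (P n j) (Q n j) (P n k) (Q n k) := by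
        intro M; unfold fL; module
      rw [e F, e L] at this
      have := app_eq this v
      rw [Module.End.mul_apply, LinearMap.zero_apply] at this
      exact this) hv.ne
  exact_mod_cast key

theorem constr_diff {j k : ℕ} (hjk : j < k) (hk : 2 * k + 1 < n) :
    (lam j - lam k - 1) * (ell j - ell k) = 0 := by
  have hj : 2 * j + 1 < n := by omega
  obtain ⟨n1, n2, n3, n4, n5, n6⟩ := pair_ne hjk hk
  have hr : 2 * j + 1 < (P n k : ℕ) := by rw [P_val hk]; omega
  have hs : 2 * j + 1 < (Q n k : ℕ) := by rw [Q_val hk]; omega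
  have sw : ∀ {M : Fin n → Fin n → Module.End ℂ H}, (∀ i j, M i j = - M j i) →
      Hh M (Q n k) (P n k) = - HC M k := by
    intro M hM
    unfold HC Hh
    rw [hM (Q n k) (P n k)]; module
  have key := sl2_calc (v := v) (μ := ((lam j - lam k : ℝ) : ℂ)) (l := ((ell j - ell k : ℝ) : ℂ))
    (br_e_f n1 n3 n2 n5 n4 (Ne.symm n6) h.tens) (br_e_f n1 n3 n2 n5 n4 (Ne.symm n6) hF.tens)
    (br_e_h n1 n3 n2 n5 n4 (Ne.symm n6) hF.tens) (br_f_e n1 n3 n2 n5 n4 (Ne.symm n6) hF.tens)
    (by rw [eL_eq, LinearMap.add_apply, LinearMap.smul_apply, up_zero hv h.tens hj hr,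
      up_zero hv h.tens hj hs, smul_zero, add_zero])
    (by rw [eL_eq, LinearMap.add_apply, LinearMap.smul_apply, up_zero hv hF.tens hj hr,
      up_zero hv hF.tens hj hs, smul_zero, add_zero])
    (by
      unfold hL
      rw [LinearMap.add_apply, sw h.anti, LinearMap.neg_apply]
      change HC L j v + - HC L k v = _
      rw [hv.eig j hj, hv.eig k hk]; push_cast; module)
    (by
      unfold hL
      rw [LinearMap.add_apply, sw hF.anti, LinearMap.neg_apply]
      change HC F j v + - HC F k v = _
      rw [hell j hj, hell k hk]; push_cast; module)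
    (by
      have := iso4 hF.anti h.anti hW n1 n3 n2 n5 n4 (Ne.symm n6) (c := -Complex.I)
        (by rw [neg_mul_neg, Complex.I_mul_I])
      have e : ∀ M : Fin n → Fin n → Module.End ℂ H,
          M (P n j) (Q n k) - M (Q n j) (P n k)
            + (-Complex.I) • (M (P n j) (P n k) + M (Q n j) (Q n k))
          = fL M (P n j) (Q n j) (Q n k) (P n k) := by
        intro M; unfold fL; module
      rw [e F, e L] at this
      have := app_eq this v
      rw [Module.End.mul_apply, LinearMap.zero_apply] at this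
      exact this) hv.ne
  exact_mod_cast key

end constr

end Pool.Agent.Hhelper14.EW
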