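import Pool.Agent.Hhelper14.EW.C3

set_option autoImplicit false
set_option linter.unusedSectionVars false
set_option linter.unusedSimpArgs false

/-!
# Further constraints and integrality
-/

namespace Pool.Agent.Hhelper14.EW

open scoped ComplexConjugate InnerProductSpace

variable {n : ℕ} {H : Type*} [NormedAddCommGroup H] [InnerProductSpace ℂ H]
  {L F : Fin n → Fin n → Module.End ℂ H}

theorem op2_sqt {A : Type*} [Ring A] [Algebra ℂ A] {P L : Fin n → Fin n → A}
    (hP : ∀ i j, P i j = - P j i) (hL : ∀ i j, L i j = - L j i) (x y : Fin n → ℝ) :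
    op2 P L (sqt x y) = (4 : ℂ) • (Lv P x y * Lv L x y) := by
  have h2 : ∀ {M : Fin n → Fin n → A}, (∀ i j, M i j = - M j i) →
      ∑ i, ∑ j, ((x i * y j - x j * y i : ℝ) : ℂ) • M i j = (2 : ℂ) • Lv M x y := by
    intro M hM
    simp only [Complex.ofReal_sub, sub_smul, Finset.sum_sub_distrib]
    rw [Lv_swap hM, sub_neg_eq_add, two_smul]
    rfl
  have h3 : op2 P L (sqt x y)
      = (∑ i, ∑ j, ((x i * y j - x j * y i : ℝ) : ℂ) • P i j)
        * (∑ k, ∑ l, ((x k * y l - x l * y k : ℝ) : ℂ) • L k l) := by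
    unfold op2 sqt
    rw [Finset.sum_mul]
    refine Finset.sum_congr rfl fun i _ => ?_
    rw [Finset.sum_mul]
    refine Finset.sum_congr rfl fun j _ => ?_
    rw [Finset.mul_sum]
    refine Finset.sum_congr rfl fun k _ => ?_
    rw [Finset.mul_sum]
    refine Finset.sum_congr rfl fun l _ => ?_
    rw [smul_mul_smul_comm, ← Complex.ofReal_mul]
  rw [h3, h2 hP, h2 hL, smul_mul_smul_comm]
  norm_num

/-- the relation with five distinct indices -/
theorem rel5 {A : Type*} [Ring A] [Algebra ℂ A] {P L : Fin n → Fin n → A}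
    (hP : ∀ i j, P i j = - P j i) (hL : ∀ i j, L i j = - L j i)
    (hW : ∀ W : Tens n, IsCurv W → (∀ j l, ric W j l = 0) → op2 P L W = 0)
    {p q r s c : Fin n} (hpq : p ≠ q) (hrs : r ≠ s)
    (hpc : p ≠ c) (hqc : q ≠ c) (hrc : r ≠ c) (hsc : s ≠ c) :
    P p c * L p c + P q c * L q c - P p q * L p q
      = P r c * L r c + P s c * L s c - P r s * L r s := by
  have e := hW ((sqt (bas p) (bas c) + sqt (bas q) (bas c) + (-1 : ℝ) • sqt (bas p) (bas q))
      + (-1 : ℝ) • (sqt (bas r) (bas c) + sqt (bas s) (bas c) + (-1 : ℝ) • sqt (bas r) (bas s)))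
      ((((isCurv_sqt _ _).add (isCurv_sqt _ _)).add ((isCurv_sqt _ _).smul _)).add
        ((((isCurv_sqt _ _).add (isCurv_sqt _ _)).add ((isCurv_sqt _ _).smul _)).smul _))
      (by
        intro a b
        simp only [ric_add, ric_smul, ric_sqt, dot_bas, if_neg hpq, if_neg hrs,
          if_neg hpc, if_neg hqc, if_neg hrc, if_neg hsc, if_true]
        ring)
  simp only [op2_add, op2_smul, op2_sqt hP hL, Lv_bas] at e
  have h4 : (4 : ℂ) • ((P p c * L p c + P q c * L q c - P p q * L p q)
      - (P r c * L r c + P s c * L s c - P r s * L r s)) = 0 := by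
    rw [← e]; push_cast; module
  rcases smul_eq_zero.mp h4 with h5 | h5
  · norm_num at h5
  · exact sub_eq_zero.mp h5

theorem sl2_nat [FiniteDimensional ℂ H] {e f h : Module.End ℂ H} {v : H} {μ : ℂ}
    (b1 : br e f = h) (b2 : br h f = (-2 : ℂ) • f) (he : e v = 0) (hh : h v = μ • v)
    (v0 : v ≠ 0) : ∃ N : ℕ, μ = N := by
  have hk : ∀ k : ℕ, h ((f ^ k) v) = (μ - 2 * k) • (f ^ k) v := by
    intro k
    induction k with
    | zero => simp [hh]
    | succ k ih =>
      have := app_eq b2 ((f ^ k) v)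
      rw [br_app, ih, map_smul, LinearMap.smul_apply, sub_eq_iff_eq_add] at this
      rw [pow_succ', Module.End.mul_apply, this]
      push_cast
      module
  have ek : ∀ k : ℕ, e ((f ^ (k + 1)) v) = ((k + 1) * (μ - k)) • (f ^ k) v := by
    intro k
    induction k with
    | zero =>
      have := app_eq b1 v
      rw [br_app, he, map_zero, sub_zero, hh] at this
      simp only [zero_add, pow_one, Nat.cast_zero, sub_zero, one_mul, pow_zero,
        Module.End.one_apply]
      exact this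
    | succ k ih =>
      have := app_eq b1 ((f ^ (k + 1)) v)
      rw [br_app, ih, map_smul, hk, sub_eq_iff_eq_add] at this
      rw [pow_succ' f (k + 1), Module.End.mul_apply, this,
        show f ((f ^ k) v) = (f ^ (k + 1)) v by rw [pow_succ' f k, Module.End.mul_apply]]
      push_cast
      module
  have hex : ∃ k : ℕ, (f ^ k) v = 0 := by
    by_contra hc
    push Not at hc
    have hinj : Function.Injective (fun k : ℕ => μ - 2 * (k : ℂ)) := by
      intro a b hab
      simp only at hab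
      have : (a : ℂ) = b := by linear_combination (-1 / 2 : ℂ) * hab
      exact_mod_cast this
    have hsub : Set.range (fun k : ℕ => μ - 2 * (k : ℂ)) ⊆ {t | h.HasEigenvalue t} := by
      rintro _ ⟨k, rfl⟩
      exact Module.End.hasEigenvalue_of_hasEigenvector
        ⟨Module.End.mem_eigenspace_iff.mpr (hk k), hc k⟩
    exact Set.infinite_range_of_injective hinj (h.finite_hasEigenvalue.subset hsub)
  classical
  set N := Nat.find hex with hN
  have h1 : (f ^ N) v = 0 := Nat.find_spec hex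
  have hN0 : N ≠ 0 := by
    intro h0
    rw [h0] at h1
    exact v0 (by simpa using h1)
  obtain ⟨m, hm⟩ := Nat.exists_eq_succ_of_ne_zero hN0
  have h2 : (f ^ m) v ≠ 0 := by
    apply Nat.find_min hex
    omega
  have h3 := ek m
  rw [show m + 1 = N from hm.symm, h1, map_zero] at h3
  rcases smul_eq_zero.mp h3.symm with h4 | h4
  · rcases mul_eq_zero.mp h4 with h5 | h5
    · exfalso
      have : ((m + 1 : ℕ) : ℂ) = 0 := by push_cast; exact h5
      exact Nat.cast_ne_zero.mpr (Nat.succ_ne_zero m) this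
    · exact ⟨m, by linear_combination h5⟩
  · exact absurd h4 h2

variable [NeZero n]

section integral

variable [FiniteDimensional ℂ H] {lam : ℕ → ℝ} {v : H} (h : IsRep L) (hv : HWV L lam v)

include h hv

theorem int_sum {j k : ℕ} (hjk : j < k) (hk : 2 * k + 1 < n) : ∃ N : ℕ, lam j + lam k = N := by
  have hj : 2 * j + 1 < n := by omega
  obtain ⟨n1, n2, n3, n4, n5, n6⟩ := pair_ne hjk hk
  have hr : 2 * j + 1 < (P n k : ℕ) := by rw [P_val hk]; omega
  have hs : 2 * j + 1 < (Q n k : ℕ) := by rw [Q_val hk]; omega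
  obtain ⟨N, hN⟩ := sl2_nat (v := v) (μ := ((lam j + lam k : ℝ) : ℂ))
    (e := eL L (P n j) (Q n j) (P n k) (Q n k))
    (f := (-(1 / 4) : ℂ) • fL L (P n j) (Q n j) (P n k) (Q n k))
    (h := hL L (P n j) (Q n j) (P n k) (Q n k))
    (by rw [br_smul_right, br_e_f n1 n2 n3 n4 n5 n6 h.tens, smul_smul]; norm_num)
    (by rw [br_smul_right, br_h_f n1 n2 n3 n4 n5 n6 h.tens, smul_comm])
    (by rw [eL_eq, LinearMap.add_apply, LinearMap.smul_apply, up_zero hv h.tens hj hr,
      up_zero hv h.tens hj hs, smul_zero, add_zero])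
    (by
      unfold hL
      rw [LinearMap.add_apply]
      change HC L j v + HC L k v = _
      rw [hv.eig j hj, hv.eig k hk]; push_cast; module) hv.ne
  exact ⟨N, by exact_mod_cast hN⟩

theorem int_diff {j k : ℕ} (hjk : j < k) (hk : 2 * k + 1 < n) : ∃ N : ℕ, lam j - lam k = N := by
  have hj : 2 * j + 1 < n := by omega
  obtain ⟨n1, n2, n3, n4, n5, n6⟩ := pair_ne hjk hk
  have hr : 2 * j + 1 < (P n k : ℕ) := by rw [P_val hk]; omega
  have hs : 2 * j + 1 < (Q n k : ℕ) := by rw [Q_val hk]; omega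
  have sw : Hh L (Q n k) (P n k) = - HC L k := by
    unfold HC Hh
    rw [h.anti (Q n k) (P n k)]; module
  obtain ⟨N, hN⟩ := sl2_nat (v := v) (μ := ((lam j - lam k : ℝ) : ℂ))
    (e := eL L (P n j) (Q n j) (Q n k) (P n k))
    (f := (-(1 / 4) : ℂ) • fL L (P n j) (Q n j) (Q n k) (P n k))
    (h := hL L (P n j) (Q n j) (Q n k) (P n k))
    (by rw [br_smul_right, br_e_f n1 n3 n2 n5 n4 (Ne.symm n6) h.tens, smul_smul]; norm_num)
    (by rw [br_smul_right, br_h_f n1 n3 n2 n5 n4 (Ne.symm n6) h.tens, smul_comm])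
    (by rw [eL_eq, LinearMap.add_apply, LinearMap.smul_apply, up_zero hv h.tens hj hr,
      up_zero hv h.tens hj hs, smul_zero, add_zero])
    (by
      unfold hL
      rw [LinearMap.add_apply, sw, LinearMap.neg_apply]
      change HC L j v + - HC L k v = _
      rw [hv.eig j hj, hv.eig k hk]; push_cast; module) hv.ne
  exact ⟨N, by exact_mod_cast hN⟩

end integral

section odd

variable {lam ell : ℕ → ℝ} {v : H} (h : IsRep L) (hF : IsWeitz L F)
  (hv : HWV L lam v) (hell : ∀ k, 2 * k + 1 < n → HC F k v = (ell k : ℂ) • v)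

theorem HC_inv {M : Fin n → Fin n → Module.End ℂ H} {k : ℕ} {c : ℝ} {v : H}
    (hc : HC M k v = (c : ℂ) • v) : M (P n k) (Q n k) v = (Complex.I * c) • v := by
  have : M (P n k) (Q n k) v = Complex.I • HC M k v := by
    unfold HC
    rw [Hh_app, smul_smul, mul_neg, Complex.I_mul_I, neg_neg, one_smul]
  rw [this, hc, smul_smul]

include h hv

theorem lam_nonneg {k : ℕ} (hk : 2 * k + 1 < n) {c : Fin n} (hc : 2 * k + 1 < (c : ℕ)) :
    0 ≤ lam k ∧ (lam k = 0 → dn L (P n k) (Q n k) c v = 0) := by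
  have n1 : P n k ≠ Q n k := P_ne_Q hk
  have n2 : P n k ≠ c := ne_of_val (by rw [P_val hk]; omega)
  have n3 : Q n k ≠ c := ne_of_val (by rw [Q_val hk]; omega)
  have e1 := app_eq (br_up_dn h.tens n1 n2 n3) v
  rw [br_app, up_zero hv h.tens hk hc, map_zero, sub_zero, LinearMap.smul_apply,
    HC_inv (hv.eig k hk), smul_smul,
    show 2 * Complex.I * (Complex.I * (lam k : ℂ)) = ((-(2 * lam k) : ℝ) : ℂ) by
      push_cast
      linear_combination (2 * (lam k : ℂ)) * Complex.I_mul_I] at e1
  have e2 : ⟪dn L (P n k) (Q n k) c v, dn L (P n k) (Q n k) c v⟫_ℂ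
      = ((2 * lam k : ℝ) : ℂ) * ⟪v, v⟫_ℂ := by
    rw [dn_adj h.skew, e1, inner_smul_right]
    push_cast; ring
  have e3 : ‖dn L (P n k) (Q n k) c v‖ ^ 2 = (2 * lam k) * ‖v‖ ^ 2 := by
    have e := congrArg Complex.re e2
    rw [Complex.re_ofReal_mul] at e
    have i1 : Complex.re ⟪dn L (P n k) (Q n k) c v, dn L (P n k) (Q n k) c v⟫_ℂ
      = ‖dn L (P n k) (Q n k) c v‖ ^ 2 := inner_self_eq_norm_sq (𝕜 := ℂ) _
    have i2 : Complex.re ⟪v, v⟫_ℂ = ‖v‖ ^ 2 := inner_self_eq_norm_sq (𝕜 := ℂ) _
    rw [i1, i2] at e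
    exact e
  have hv0 : 0 < ‖v‖ ^ 2 := by
    have := norm_pos_iff.mpr hv.ne
    positivity
  constructor
  · by_contra hneg
    push Not at hneg
    have : (2 * lam k) * ‖v‖ ^ 2 < 0 := mul_neg_of_neg_of_pos (by linarith) hv0
    have h2 : 0 ≤ ‖dn L (P n k) (Q n k) c v‖ ^ 2 := by positivity
    linarith
  · intro h0
    rw [h0, mul_zero, zero_mul] at e3
    have := pow_eq_zero_iff (two_ne_zero) |>.mp e3
    exact norm_eq_zero.mp this

include hF hell

theorem ell_zero {k : ℕ} (hk : 2 * k + 1 < n) {c : Fin n} (hc : 2 * k + 1 < (c : ℕ))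
    (h0 : lam k = 0) : ell k = 0 := by
  have n1 : P n k ≠ Q n k := P_ne_Q hk
  have n2 : P n k ≠ c := ne_of_val (by rw [P_val hk]; omega)
  have n3 : Q n k ≠ c := ne_of_val (by rw [Q_val hk]; omega)
  have e0 := (lam_nonneg h hv hk hc).2 h0
  have e1 := app_eq (br_dn_up hF.tens n1 n2 n3) v
  rw [br_app, e0, up_zero hv hF.tens hk hc, map_zero, map_zero, sub_zero, LinearMap.smul_apply,
    HC_inv (hell k hk), smul_smul] at e1
  rcases smul_eq_zero.mp e1.symm with h1 | h1
  · have : (ell k : ℂ) = 0 := by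
      have h2 : (2 : ℂ) * (ell k : ℂ) = 0 := by
        linear_combination h1 + (2 * (ell k : ℂ)) * Complex.I_mul_I
      rcases mul_eq_zero.mp h2 with h3 | h3
      · norm_num at h3
      · exact h3
    exact_mod_cast this
  · exact absurd h1 hv.ne

theorem side_calc {k : ℕ} (hk : 2 * k + 1 < n) {c : Fin n} (hc : 2 * k + 1 < (c : ℕ)) :
    (F (P n k) c * L (P n k) c + F (Q n k) c * L (Q n k) c
      - F (P n k) (Q n k) * L (P n k) (Q n k)) v = ((ell k * (lam k - 1) : ℝ) : ℂ) • v := by
  have n1 : P n k ≠ Q n k := P_ne_Q hk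
  have n2 : P n k ≠ c := ne_of_val (by rw [P_val hk]; omega)
  have n3 : Q n k ≠ c := ne_of_val (by rw [Q_val hk]; omega)
  -- Cartan term
  have a1 : (F (P n k) (Q n k) * L (P n k) (Q n k)) v = (-(ell k * lam k : ℝ) : ℂ) • v := by
    rw [Module.End.mul_apply, HC_inv (hv.eig k hk), map_smul, HC_inv (hell k hk), smul_smul]
    congr 1
    push_cast
    linear_combination ((lam k : ℂ) * (ell k : ℂ)) * Complex.I_mul_I
  -- side terms
  have a2 : (F (P n k) c * L (P n k) c) v = L (P n k) c (F (P n k) c v) := by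
    have := app_eq (hF.tens.b0 (P n k) c) v
    rw [LinearMap.sub_apply, Module.End.mul_apply, LinearMap.zero_apply] at this
    exact (sub_eq_zero.mp this).symm
  have a3 : (F (Q n k) c * L (Q n k) c) v = L (Q n k) c (F (Q n k) c v) := by
    have := app_eq (hF.tens.b0 (Q n k) c) v
    rw [LinearMap.sub_apply, Module.End.mul_apply, LinearMap.zero_apply] at this
    exact (sub_eq_zero.mp this).symm
  have a4 : F (P n k) c v = (-Complex.I) • F (Q n k) c v := by
    have := up_zero hv hF.tens hk hc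
    rw [up_app] at this
    rw [eq_neg_of_add_eq_zero_left this]; module
  have a5 : L (P n k) c (F (Q n k) c v) + Complex.I • L (Q n k) c (F (Q n k) c v)
      = (-Complex.I * ell k) • v := by
    have e1 : br (up L (P n k) (Q n k) c) (F (Q n k) c) = - F (P n k) (Q n k) := by
      have c2 : br (L (Q n k) c) (F (Q n k) c) = 0 := hF.tens.b0 _ _
      have c3 : br (L (P n k) c) (F (Q n k) c) = - F (P n k) (Q n k) :=
        hF.tens.b3 n2 (Ne.symm n3) n1
      unfold up
      rw [br_add_left, br_smul_left, c2, c3]; module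
    have := app_eq e1 v
    rw [br_app, up_zero hv h.tens hk hc, map_zero, sub_zero, up_app, LinearMap.neg_apply,
      HC_inv (hell k hk)] at this
    rw [this]; module
  have a6 : L (P n k) c (F (P n k) c v) + L (Q n k) c (F (Q n k) c v) = (-(ell k : ℂ)) • v := by
    have e : L (P n k) c (F (P n k) c v) + L (Q n k) c (F (Q n k) c v)
        = (-Complex.I) • (L (P n k) c (F (Q n k) c v)
          + Complex.I • L (Q n k) c (F (Q n k) c v)) := by
      rw [a4, map_smul, smul_add, smul_smul, neg_mul, Complex.I_mul_I, neg_neg, one_smul]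
    rw [e, a5, smul_smul]
    congr 1
    linear_combination (ell k : ℂ) * Complex.I_mul_I
  rw [LinearMap.sub_apply, LinearMap.add_apply, a1, a2, a3, a6, ← sub_smul]
  congr 1
  push_cast; ring

theorem constr_side (hW : ∀ W : Tens n, IsCurv W → (∀ j l, ric W j l = 0) → op2 F L W = 0)
    {j k : ℕ} (hjk : j < k) (hk : 2 * k + 1 < n) {c : Fin n}
    (hc : 2 * k + 1 < (c : ℕ)) : ell j * (lam j - 1) = ell k * (lam k - 1) := by
  have hj : 2 * j + 1 < n := by omega
  have hcj : 2 * j + 1 < (c : ℕ) := by omega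
  obtain ⟨n1, n2, n3, n4, n5, n6⟩ := pair_ne hjk hk
  have m1 : P n j ≠ c := ne_of_val (by rw [P_val hj]; omega)
  have m2 : Q n j ≠ c := ne_of_val (by rw [Q_val hj]; omega)
  have m3 : P n k ≠ c := ne_of_val (by rw [P_val hk]; omega)
  have m4 : Q n k ≠ c := ne_of_val (by rw [Q_val hk]; omega)
  have e := app_eq (rel5 hF.anti h.anti hW n1 n6 m1 m2 m3 m4) v
  rw [side_calc h hF hv hell hj hcj, side_calc h hF hv hell hk hc] at e
  have e2 : ((ell j * (lam j - 1) - ell k * (lam k - 1) : ℝ) : ℂ) • v = 0 := by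
    push_cast
    push_cast at e
    rw [sub_smul, e, sub_self]
  rcases smul_eq_zero.mp e2 with h1 | h1
  · have : ell j * (lam j - 1) - ell k * (lam k - 1) = 0 := by exact_mod_cast h1
    linarith
  · exact absurd h1 hv.ne

end odd

end Pool.Agent.Hhelper14.EW
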