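import Pool.Agent.Hhelper14.EW.C4

set_option autoImplicit false
set_option linter.unusedSectionVars false
set_option linter.unusedSimpArgs false

/-!
# Classification of the weights
-/

namespace Pool.Agent.Hhelper14.EW

open scoped ComplexConjugate InnerProductSpace

section comb

variable {m : ℕ} {x : ℕ → ℤ} {l : ℕ → ℝ}

/-- three or more Cartan directions -/
theorem classify3 (hm : 3 ≤ m)
    (hp : ∀ j k, j < k → k < m → ∃ b : ℕ, x j - x k = 2 * b)
    (hs : ∀ j k, j < k → k < m → ∃ b : ℕ, x j + x k = 2 * b)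
    (c1 : ∀ j k, j < k → k < m → x j + x k = 2 ∨ l j + l k = 0)
    (c2 : ∀ j k, j < k → k < m → x j - x k = 2 ∨ l j - l k = 0)
    (hl : ∃ j, j < m ∧ l j ≠ 0) :
    (x 0 = 2 ∧ ∀ k, 1 ≤ k → k < m → x k = 0) ∨
      ((x 0 = 1 ∨ x 0 = 3) ∧ (∀ k, 1 ≤ k → k + 1 < m → x k = 1) ∧
        (x (m - 1) = 1 ∨ x (m - 1) = -1)) ∨
      ((∀ k, k + 1 < m → x k = 2) ∧ x (m - 1) = 0 ∧ l (m - 1) ≠ 0) := by
  have G : ∀ j k, j < k → k < m → (l j ≠ 0 ∨ l k ≠ 0) → x j + x k = 2 ∨ x j - x k = 2 := by
    intro j k hjk hk hne
    rcases c1 j k hjk hk with h | h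
    · exact Or.inl h
    rcases c2 j k hjk hk with h' | h'
    · exact Or.inr h'
    exfalso
    have a : l j = 0 := by linarith
    have b : l k = 0 := by linarith
    rcases hne with h1 | h1
    · exact h1 a
    · exact h1 b
  have E : ∀ j k, j < k → k < m → ¬(x j = 2 ∧ x k = 0) → (l j ≠ 0 ↔ l k ≠ 0) := by
    intro j k hjk hk hne
    rcases c1 j k hjk hk with h | h
    · rcases c2 j k hjk hk with h' | h'
      · exfalso; apply hne; omega
      · have : l j = l k := by linarith
        rw [this]
    · have : l j = - l k := by linarith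
      rw [this, neg_ne_zero]
  obtain ⟨j0, hj0, hl0⟩ := hl
  rcases Int.even_or_odd (x 0) with hev | hodd
  · -- even case
    have hevk : ∀ k, k < m → ∃ c, x k = 2 * c := by
      intro k hk
      obtain ⟨c, hc⟩ := hev
      by_cases h0 : k = 0
      · subst h0; exact ⟨c, by omega⟩
      · obtain ⟨b, hb⟩ := hp 0 k (by omega) hk
        exact ⟨c - b, by omega⟩
    have triple : ∀ a b c, a < b → b < c → c < m → (x a + x b = 2 ∨ x a - x b = 2) →
        (x a + x c = 2 ∨ x a - x c = 2) → (x b + x c = 2 ∨ x b - x c = 2) → False := by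
      intro a b c hab hbc hc g1 g2 g3
      obtain ⟨u, hu⟩ := hevk a (by omega)
      obtain ⟨v, hv⟩ := hevk b (by omega)
      obtain ⟨w, hw⟩ := hevk c (by omega)
      obtain ⟨p1, q1⟩ := hp a b hab (by omega)
      obtain ⟨p2, q2⟩ := hp b c hbc (by omega)
      obtain ⟨p3, q3⟩ := hs b c hbc (by omega)
      omega
    have uniq : ∀ j k, j < k → k < m → l j ≠ 0 → l k ≠ 0 → False := by
      intro j k hjk hk h1 h2
      by_cases ha : 0 < j
      · exact triple 0 j k ha hjk hk (G 0 j ha (by omega) (Or.inr h1))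
          (G 0 k (by omega) hk (Or.inr h2)) (G j k hjk hk (Or.inl h1))
      · by_cases hb : j + 1 < k
        · exact triple j (j + 1) k (by omega) hb hk (G j (j + 1) (by omega) (by omega) (Or.inl h1))
            (G j k hjk hk (Or.inl h1)) (G (j + 1) k hb hk (Or.inr h2))
        · exact triple j k 2 hjk (by omega) (by omega) (G j k hjk hk (Or.inl h1))
            (G j 2 (by omega) (by omega) (Or.inl h1)) (G k 2 (by omega) (by omega) (Or.inl h2))
    have right : ∀ k, j0 < k → k < m → x j0 = 2 ∧ x k = 0 := by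
      intro k hk hkm
      by_contra hc
      exact uniq j0 k hk hkm hl0 ((E j0 k hk hkm hc).mp hl0)
    have left : ∀ k, k < j0 → x k = 2 ∧ x j0 = 0 := by
      intro k hk
      by_contra hc
      exact uniq k j0 hk hj0 ((E k j0 hk hj0 hc).mpr hl0) hl0
    by_cases h0 : j0 = 0
    · left
      refine ⟨?_, fun k hk hkm => ?_⟩
      · have := (right 1 (by omega) (by omega)).1
        rwa [h0] at this
      · exact (right k (by omega) hkm).2
    · by_cases h1 : j0 + 1 = m
      · right; right
        refine ⟨fun k hk => (left k (by omega)).1, ?_, ?_⟩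
        · rw [show m - 1 = j0 by omega]; exact (left 0 (by omega)).2
        · rw [show m - 1 = j0 by omega]; exact hl0
      · exfalso
        have a := (left 0 (by omega)).2
        have b := (right (m - 1) (by omega) (by omega)).1
        omega
  · -- odd case
    have hoddk : ∀ k, k < m → ∃ c, x k = 2 * c + 1 := by
      intro k hk
      obtain ⟨c, hc⟩ := hodd
      by_cases h0 : k = 0
      · subst h0; exact ⟨c, by omega⟩
      · obtain ⟨b, hb⟩ := hp 0 k (by omega) hk
        exact ⟨c - b, by omega⟩
    have all : ∀ k, k < m → l k ≠ 0 := by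
      intro k hk
      rcases lt_trichotomy j0 k with h | h | h
      · refine (E j0 k h hk ?_).mp hl0
        rintro ⟨a, _⟩
        obtain ⟨c, hc⟩ := hoddk j0 hj0
        omega
      · rw [← h]; exact hl0
      · refine (E k j0 h hj0 ?_).mpr hl0
        rintro ⟨a, _⟩
        obtain ⟨c, hc⟩ := hoddk k hk
        omega
    have tri : ∀ k, 1 ≤ k → k + 1 < m → x k = 1 ∧ (x 0 = 1 ∨ x 0 = 3) ∧
        (x (m - 1) = 1 ∨ x (m - 1) = -1) := by
      intro k hk hkm
      have g1 := G 0 k (by omega) (by omega) (Or.inl (all 0 (by omega)))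
      have g2 := G 0 (m - 1) (by omega) (by omega) (Or.inl (all 0 (by omega)))
      have g3 := G k (m - 1) (by omega) (by omega) (Or.inl (all k (by omega)))
      obtain ⟨u, hu⟩ := hoddk 0 (by omega)
      obtain ⟨v, hv⟩ := hoddk k (by omega)
      obtain ⟨w, hw⟩ := hoddk (m - 1) (by omega)
      obtain ⟨p1, q1⟩ := hp 0 k (by omega) (by omega)
      obtain ⟨p2, q2⟩ := hp k (m - 1) (by omega) (by omega)
      obtain ⟨p3, q3⟩ := hs k (m - 1) (by omega) (by omega)
      omega
    right; left
    obtain ⟨_, a2, a3⟩ := tri 1 (le_refl _) (by omega)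
    exact ⟨a2, fun k hk hkm => (tri k hk hkm).1, a3⟩

/-- two Cartan directions, odd dimension -/
theorem classify2
    (c1 : x 0 + x 1 = 2 ∨ l 0 + l 1 = 0) (c2 : x 0 - x 1 = 2 ∨ l 0 - l 1 = 0)
    (c3 : l 0 * ((x 0 : ℝ) - 2) = l 1 * ((x 1 : ℝ) - 2))
    (hl : l 0 ≠ 0 ∨ l 1 ≠ 0) :
    (x 0 = 2 ∧ x 1 = 0) ∨ (x 0 = 1 ∧ x 1 = 1) ∨ (x 0 = 3 ∧ x 1 = 1) := by
  rcases c1 with h1 | h1
  · rcases c2 with h2 | h2
    · left; omega
    · right; left
      have e : l 0 = l 1 := by linarith
      have h0 : l 1 ≠ 0 := by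
        rcases hl with h | h
        · rwa [e] at h
        · exact h
      rw [e] at c3
      have := mul_left_cancel₀ h0 c3
      have h3 : (x 0 : ℝ) = x 1 := by linarith
      have h4 : x 0 = x 1 := by exact_mod_cast h3
      omega
  · rcases c2 with h2 | h2
    · right; right
      have e : l 0 = - l 1 := by linarith
      have h0 : l 1 ≠ 0 := by
        rcases hl with h | h
        · rwa [e, neg_ne_zero] at h
        · exact h
      rw [e] at c3
      have h5 : l 1 * (-((x 0 : ℝ) - 2)) = l 1 * ((x 1 : ℝ) - 2) := by linarith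
      have := mul_left_cancel₀ h0 h5
      have h3 : (x 0 : ℝ) + x 1 = 4 := by linarith
      have h4 : x 0 + x 1 = 4 := by exact_mod_cast h3
      omega
    · exfalso
      have a : l 0 = 0 := by linarith
      have b : l 1 = 0 := by linarith
      rcases hl with h | h
      · exact h a
      · exact h b

end comb

variable {n : ℕ} {H : Type*} [NormedAddCommGroup H] [InnerProductSpace ℂ H]
  {L F : Fin n → Fin n → Module.End ℂ H} [NeZero n]

theorem weights (hn : 5 ≤ n) [FiniteDimensional ℂ H] {lam ell : ℕ → ℝ} {v : H} (h : IsRep L)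
    (hF : IsWeitz L F) (hv : HWV L lam v)
    (hell : ∀ k, 2 * k + 1 < n → HC F k v = (ell k : ℂ) • v)
    (hW : ∀ W : Tens n, IsCurv W → (∀ j l, ric W j l = 0) → op2 F L W = 0)
    (hne : ∃ k, 2 * k + 1 < n ∧ ell k ≠ 0) :
    WVector n lam ∨ WSpin n lam ∨ WRarita n lam ∨ WMiddle n lam := by
  have hint : ∀ k, 2 * k + 1 < n → ∃ y : ℤ, 2 * lam k = y := by
    intro k hk
    by_cases h0 : k = 0
    · subst h0
      obtain ⟨a, ha⟩ := int_sum h hv (j := 0) (k := 1) (by omega) (by omega)
      obtain ⟨b, hb⟩ := int_diff h hv (j := 0) (k := 1) (by omega) (by omega)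
      exact ⟨a + b, by push_cast; linarith⟩
    · obtain ⟨a, ha⟩ := int_sum h hv (j := 0) (k := k) (by omega) hk
      obtain ⟨b, hb⟩ := int_diff h hv (j := 0) (k := k) (by omega) hk
      exact ⟨a - b, by push_cast; linarith⟩
  choose! x hx using hint
  have hp : ∀ j k, j < k → k < n / 2 → ∃ b : ℕ, x j - x k = 2 * b := by
    intro j k hjk hk
    obtain ⟨b, hb⟩ := int_diff h hv hjk (by omega)
    have e1 := hx j (by omega)
    have e2 := hx k (by omega)
    refine ⟨b, ?_⟩
    have : ((x j - x k : ℤ) : ℝ) = ((2 * b : ℤ) : ℝ) := by push_cast; linarith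
    exact_mod_cast this
  have hs : ∀ j k, j < k → k < n / 2 → ∃ b : ℕ, x j + x k = 2 * b := by
    intro j k hjk hk
    obtain ⟨b, hb⟩ := int_sum h hv hjk (by omega)
    have e1 := hx j (by omega)
    have e2 := hx k (by omega)
    refine ⟨b, ?_⟩
    have : ((x j + x k : ℤ) : ℝ) = ((2 * b : ℤ) : ℝ) := by push_cast; linarith
    exact_mod_cast this
  have c1 : ∀ j k, j < k → k < n / 2 → x j + x k = 2 ∨ ell j + ell k = 0 := by
    intro j k hjk hk
    have e1 := hx j (by omega)
    have e2 := hx k (by omega)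
    rcases mul_eq_zero.mp (constr_sum h hF hv hell hW hjk (by omega)) with h1 | h1
    · left
      have : ((x j + x k : ℤ) : ℝ) = ((2 : ℤ) : ℝ) := by push_cast; linarith
      exact_mod_cast this
    · exact Or.inr h1
  have c2 : ∀ j k, j < k → k < n / 2 → x j - x k = 2 ∨ ell j - ell k = 0 := by
    intro j k hjk hk
    have e1 := hx j (by omega)
    have e2 := hx k (by omega)
    rcases mul_eq_zero.mp (constr_diff h hF hv hell hW hjk (by omega)) with h1 | h1
    · left
      have : ((x j - x k : ℤ) : ℝ) = ((2 : ℤ) : ℝ) := by push_cast; linarith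
      exact_mod_cast this
    · exact Or.inr h1
  obtain ⟨k0, hk0, hl0⟩ := hne
  -- odd dimension: the last index
  have hodd : ¬ Even n → ∀ k, k < n / 2 → 0 ≤ lam k ∧ (lam k = 0 → ell k = 0) := by
    intro ho k hk
    have hk' : 2 * k + 1 < n := by omega
    have hlast : 2 * k + 1 < ((⟨n - 1, by omega⟩ : Fin n) : ℕ) := by
      rw [Nat.not_even_iff_odd] at ho
      obtain ⟨r, hr⟩ := ho
      show 2 * k + 1 < n - 1
      omega
    exact ⟨(lam_nonneg h hv hk' hlast).1, ell_zero h hF hv hell hk' hlast⟩
  by_cases hm : 3 ≤ n / 2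
  · rcases classify3 hm hp hs c1 c2 ⟨k0, by omega, hl0⟩ with h1 | h1 | h1
    · left
      refine ⟨?_, fun k hk hkm => ?_⟩
      · have := hx 0 (by omega)
        rw [h1.1] at this; push_cast at this; linarith
      · have := hx k (by omega)
        rw [h1.2 k hk hkm] at this; push_cast at this; linarith
    · obtain ⟨a1, a2, a3⟩ := h1
      have hlast : lam (n / 2 - 1) = 1 / 2 ∨ (Even n ∧ lam (n / 2 - 1) = -(1 / 2)) := by
        have e := hx (n / 2 - 1) (by omega)
        rcases a3 with h3 | h3
        · left; rw [h3] at e; push_cast at e; linarith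
        · rw [h3] at e; push_cast at e
          right
          refine ⟨?_, by linarith⟩
          by_contra ho
          have := (hodd ho (n / 2 - 1) (by omega)).1
          linarith
      have hmid : ∀ k, 1 ≤ k → k + 1 < n / 2 → lam k = 1 / 2 := by
        intro k hk hkm
        have := hx k (by omega)
        rw [a2 k hk hkm] at this; push_cast at this; linarith
      have e0 := hx 0 (by omega)
      rcases a1 with h0 | h0
      · right; left
        refine ⟨fun k hk => ?_, hlast⟩
        by_cases hk0' : k = 0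
        · subst hk0'; rw [h0] at e0; push_cast at e0; linarith
        · exact hmid k (by omega) hk
      · right; right; left
        exact ⟨by rw [h0] at e0; push_cast at e0; linarith, hmid, hlast⟩
    · obtain ⟨a1, a2, a3⟩ := h1
      right; right; right
      have e := hx (n / 2 - 1) (by omega)
      rw [a2] at e; push_cast at e
      have e' : lam (n / 2 - 1) = 0 := by linarith
      refine ⟨?_, fun k hk => ?_, e'⟩
      · by_contra ho
        exact a3 ((hodd ho (n / 2 - 1) (by omega)).2 e')
      · have := hx k (by omega)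
        rw [a1 k hk] at this; push_cast at this; linarith
  · -- `n = 5`
    have hn5 : n = 5 := by omega
    have h01 : (0 : ℕ) < 1 := by omega
    have e0 := hx 0 (by omega)
    have e1 := hx 1 (by omega)
    have hside := constr_side h hF hv hell hW (j := 0) (k := 1) h01 (by omega)
      (c := ⟨4, by omega⟩) (by show 2 * 1 + 1 < 4; omega)
    have c3 : ell 0 * ((x 0 : ℝ) - 2) = ell 1 * ((x 1 : ℝ) - 2) := by
      rw [← e0, ← e1]; linarith
    have hl : ell 0 ≠ 0 ∨ ell 1 ≠ 0 := by
      have : k0 = 0 ∨ k0 = 1 := by omega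
      rcases this with h1 | h1
      · left; rw [← h1]; exact hl0
      · right; rw [← h1]; exact hl0
    have hm2 : n / 2 = 2 := by omega
    rcases classify2 (c1 0 1 h01 (by omega)) (c2 0 1 h01 (by omega)) c3 hl with h1 | h1 | h1
    · left
      refine ⟨by rw [h1.1] at e0; push_cast at e0; linarith, fun k hk hkm => ?_⟩
      have : k = 1 := by omega
      subst this
      rw [h1.2] at e1; push_cast at e1; linarith
    · right; left
      refine ⟨fun k hk => ?_, ?_⟩
      · have : k = 0 := by omega
        subst this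
        rw [h1.1] at e0; push_cast at e0; linarith
      · left
        rw [hm2]
        show lam 1 = 1 / 2
        rw [h1.2] at e1; push_cast at e1; linarith
    · right; right; left
      refine ⟨by rw [h1.1] at e0; push_cast at e0; linarith, fun k hk hkm => by omega, ?_⟩
      left
      rw [hm2]
      show lam 1 = 1 / 2
      rw [h1.2] at e1; push_cast at e1; linarith

end Pool.Agent.Hhelper14.EW
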