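import Pool.Agent.Hhelper14.EW.C5

set_option autoImplicit false
set_option linter.unusedSectionVars false
set_option linter.unusedSimpArgs false

/-!
# The classification theorem for Weitzenböck formulas
-/

namespace Pool.Agent.Hhelper14.EW

open scoped ComplexConjugate InnerProductSpace

variable {n : ℕ} {H : Type*} [NormedAddCommGroup H] [InnerProductSpace ℂ H]
  {L F : Fin n → Fin n → Module.End ℂ H}

theorem ite_app (p : Prop) [Decidable p] (X : Module.End ℂ H) (y : H) :
    (if p then X else 0 : Module.End ℂ H) y = if p then X y else 0 := by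
  split_ifs <;> rfl

theorem cs_br (h : IsTens L F) {W : Tens n} (hW : IsCurv W) (hr : ∀ j l, ric W j l = 0) (y : H) :
    cs W (fun i j k l => br (L k l) (F i j) y) = 0 := by
  have hE : IsEinstein 0 W := fun j l => by rw [hr]; simp
  have b0 : cs W (fun i j k l => if i = k then F l j y else 0) = 0 := by
    rw [cs_delta hE (fun j l => F l j y)]
    simp
  have a0 : cs W (fun i j k l => if i = l then F k j y else 0) = 0 := by
    rw [cs_swap2 hW (fun i j k l => if i = k then F l j y else 0), b0, neg_zero]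
  have d0 : cs W (fun i j k l => if j = k then F l i y else 0) = 0 := by
    rw [cs_swap1 hW (fun i j k l => if i = k then F l j y else 0), b0, neg_zero]
  have c0 : cs W (fun i j k l => if j = l then F k i y else 0) = 0 := by
    rw [cs_swap1 hW (fun i j k l => if i = l then F k j y else 0), a0, neg_zero]
  have e : (fun i j k l => br (L k l) (F i j) y) = fun i j k l =>
      (((if i = l then F k j y else 0) - (if i = k then F l j y else 0))
        - (if j = l then F k i y else 0)) + (if j = k then F l i y else 0) := by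
    funext i j k l
    have : br (L k l) (F i j) = (if l = i then F k j else 0) - (if k = i then F l j else 0)
      - (if l = j then F k i else 0) + (if k = j then F l i else 0) := h.equiv k l i j
    rw [this]
    simp only [LinearMap.add_apply, LinearMap.sub_apply, ite_app, eq_comm (a := l) (b := i),
      eq_comm (a := k) (b := i), eq_comm (a := l) (b := j), eq_comm (a := k) (b := j)]
  rw [e, cs_add, cs_sub, cs_sub, a0, b0, c0, d0]
  simp

theorem op2_symm (h : IsRep L) (hF : IsWeitz L F) {W : Tens n} (hW : IsCurv W)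
    (hr : ∀ j l, ric W j l = 0) (x y : H) : ⟪op2 F L W x, y⟫_ℂ = ⟪x, op2 F L W y⟫_ℂ := by
  have e1 : ⟪op2 F L W x, y⟫_ℂ
      = ⟪x, ∑ i, ∑ j, ∑ k, ∑ l, ((W i j k l : ℝ) : ℂ) • (L k l (F i j y))⟫_ℂ := by
    unfold op2
    simp only [LinearMap.sum_apply, LinearMap.smul_apply, Module.End.mul_apply, sum_inner,
      inner_sum, inner_smul_left, inner_smul_right, Complex.conj_ofReal, hF.skew, h.skew, neg_neg]
  have e2 : op2 F L W y = ∑ i, ∑ j, ∑ k, ∑ l, ((W i j k l : ℝ) : ℂ) • (F i j (L k l y)) := by
    unfold op2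
    simp only [LinearMap.sum_apply, LinearMap.smul_apply, Module.End.mul_apply]
  have e3 := cs_br hF.tens hW hr y
  unfold cs at e3
  simp only [br_app, smul_sub, Finset.sum_sub_distrib] at e3
  rw [e1, e2, sub_eq_zero.mp e3]

/-! ### the scalar -/

/-- `∑ F_ij L_ij` -/
noncomputable def ZZ (L F : Fin n → Fin n → Module.End ℂ H) : Module.End ℂ H :=
  ∑ i, ∑ j, F i j * L i j

theorem sum_ite1 {M : Type*} [AddCommMonoid M] (b : Fin n) (g : Fin n → Fin n → M) :
    ∑ i, ∑ j, (if b = i then g i j else 0) = ∑ j, g b j := by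
  rw [Finset.sum_eq_single b]
  · simp
  · intro c _ hc; simp [Ne.symm hc]
  · simp

theorem sum_ite2 {M : Type*} [AddCommMonoid M] (b : Fin n) (g : Fin n → Fin n → M) :
    ∑ i, ∑ j, (if b = j then g i j else 0) = ∑ i, g i b := by
  rw [Finset.sum_comm]
  exact sum_ite1 b (fun i j => g j i)

theorem br_sum2 (x : Module.End ℂ H) (g : Fin n → Fin n → Module.End ℂ H) :
    br x (∑ i, ∑ j, g i j) = ∑ i, ∑ j, br x (g i j) := by
  unfold br
  simp only [Finset.mul_sum, Finset.sum_mul, Finset.sum_sub_distrib]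

theorem ZZ_comm (h : IsRep L) (hF : IsWeitz L F) (a b : Fin n) : br (L a b) (ZZ L F) = 0 := by
  have e1 : ∀ i j, br (L a b) (F i j * L i j)
      = br (L a b) (F i j) * L i j + F i j * br (L a b) (L i j) := by
    intro i j; unfold br; noncomm_ring
  have e2 : ∀ i j, br (L a b) (F i j) * L i j
      = (((if b = i then F a j * L i j else 0) - (if a = i then F b j * L i j else 0))
        - (if b = j then F a i * L i j else 0)) + (if a = j then F b i * L i j else 0) := by
    intro i j
    have : br (L a b) (F i j) = (if b = i then F a j else 0) - (if a = i then F b j else 0)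
      - (if b = j then F a i else 0) + (if a = j then F b i else 0) := hF.equiv a b i j
    rw [this]
    simp only [add_mul, sub_mul, ite_mul, zero_mul]
  have e3 : ∀ i j, F i j * br (L a b) (L i j)
      = (((if b = i then F i j * L a j else 0) - (if a = i then F i j * L b j else 0))
        - (if b = j then F i j * L a i else 0)) + (if a = j then F i j * L b i else 0) := by
    intro i j
    have : br (L a b) (L i j) = (if b = i then L a j else 0) - (if a = i then L b j else 0)
      - (if b = j then L a i else 0) + (if a = j then L b i else 0) := h.comm a b i j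
    rw [this]
    simp only [mul_add, mul_sub, mul_ite, mul_zero]
  unfold ZZ
  rw [br_sum2]
  simp only [e1, Finset.sum_add_distrib]
  simp only [e2, e3, Finset.sum_add_distrib, Finset.sum_sub_distrib]
  rw [sum_ite1 b (fun i j => F a j * L i j), sum_ite1 a (fun i j => F b j * L i j),
    sum_ite2 b (fun i j => F a i * L i j), sum_ite2 a (fun i j => F b i * L i j),
    sum_ite1 b (fun i j => F i j * L a j), sum_ite1 a (fun i j => F i j * L b j),
    sum_ite2 b (fun i j => F i j * L a i), sum_ite2 a (fun i j => F i j * L b i)]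
  have f1 : ∑ i, F a i * L i b = - ∑ i, F a i * L b i := by
    rw [← Finset.sum_neg_distrib]
    refine Finset.sum_congr rfl fun i _ => ?_
    rw [h.anti i b, mul_neg]
  have f2 : ∑ i, F b i * L i a = - ∑ i, F b i * L a i := by
    rw [← Finset.sum_neg_distrib]
    refine Finset.sum_congr rfl fun i _ => ?_
    rw [h.anti i a, mul_neg]
  have f3 : ∑ i, F i b * L a i = - ∑ i, F b i * L a i := by
    rw [← Finset.sum_neg_distrib]
    refine Finset.sum_congr rfl fun i _ => ?_
    rw [hF.anti i b, neg_mul]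
  have f4 : ∑ i, F i a * L b i = - ∑ i, F a i * L b i := by
    rw [← Finset.sum_neg_distrib]
    refine Finset.sum_congr rfl fun i _ => ?_
    rw [hF.anti i a, neg_mul]
  rw [f1, f2, f3, f4]
  abel

theorem ZZ_symm (h : IsRep L) (hF : IsWeitz L F) (x y : H) :
    ⟪ZZ L F x, y⟫_ℂ = ⟪x, ZZ L F y⟫_ℂ := by
  unfold ZZ
  simp only [LinearMap.sum_apply, sum_inner, inner_sum]
  refine Finset.sum_congr rfl fun i _ => Finset.sum_congr rfl fun j _ => ?_
  have e := app_eq (hF.tens.b0 i j) y
  rw [LinearMap.sub_apply, LinearMap.zero_apply] at e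
  rw [Module.End.mul_apply, hF.skew, h.skew, neg_neg, ← Module.End.mul_apply, sub_eq_zero.mp e]

theorem op2_cst (h : IsRep L) (c : ℝ) :
    op2 F L (cst c : Tens n) = ((2 * c : ℝ) : ℂ) • ZZ L F := by
  have e1 : ∀ i j, ∑ k, ∑ l, ((cst c i j k l : ℝ) : ℂ) • (F i j * L k l)
      = ((2 * c : ℝ) : ℂ) • (F i j * L i j) := by
    intro i j
    have e2 : ∀ k l, ((cst c i j k l : ℝ) : ℂ) • (F i j * L k l)
        = (if i = k then (if j = l then (c : ℂ) • (F i j * L k l) else 0) else 0)
          - (if i = l then (if j = k then (c : ℂ) • (F i j * L k l) else 0) else 0) := by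
      intro k l
      unfold cst
      split_ifs <;> simp
    simp only [e2, Finset.sum_sub_distrib]
    rw [sum_ite1 i (fun k l => if j = l then (c : ℂ) • (F i j * L k l) else 0),
      sum_ite2 i (fun k l => if j = k then (c : ℂ) • (F i j * L k l) else 0)]
    simp only [Finset.sum_ite_eq, Finset.mem_univ, if_true]
    rw [h.anti j i, mul_neg]
    push_cast
    module
  unfold op2 ZZ
  simp only [e1, Finset.smul_sum]

variable [NeZero n]

theorem ZZ_scalar {lam : ℕ → ℝ} {v : H} (h : IsRep L) (hF : IsWeitz L F) (hirr : IsIrred L)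
    (hv : HWV L lam v) : ∃ c : ℝ, ZZ L F = (c : ℂ) • 1 := by
  have hvv : ⟪v, v⟫_ℂ ≠ 0 := fun e => hv.ne (inner_self_eq_zero.mp e)
  set c : ℂ := ⟪v, ZZ L F v⟫_ℂ / ⟪v, v⟫_ℂ with hc
  have cm : ∀ a b (u : H), L a b (ZZ L F u) = ZZ L F (L a b u) := by
    intro a b u
    have := app_eq (ZZ_comm h hF a b) u
    rw [br_app, LinearMap.zero_apply] at this
    exact sub_eq_zero.mp this
  have h0 : ZZ L F v - c • v = 0 := by
    refine hw_unique h hirr hv ?_ ?_
    · rw [inner_sub_right, inner_smul_right, hc, div_mul_cancel₀ _ hvv, sub_self]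
    · intro j hj s hs
      have e := up_zero hv h.tens hj hs
      have e1 : up L (P n j) (Q n j) s (ZZ L F v) = ZZ L F (up L (P n j) (Q n j) s v) := by
        rw [up_app, up_app, cm, cm, map_add, map_smul]
      rw [map_sub, map_smul, e1, e, map_zero, smul_zero, sub_zero]
  have h1 : ZZ L F v = c • v := sub_eq_zero.mp h0
  have h2 : (starRingEnd ℂ) c = c := by
    have e := ZZ_symm h hF v v
    rw [h1, inner_smul_left, inner_smul_right] at e
    exact mul_right_cancel₀ hvv e
  refine ⟨c.re, LinearMap.ext fun x => ?_⟩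
  let N : Submodule ℂ H :=
    { carrier := {u | ZZ L F u = c • u}
      add_mem' := by
        intro a b ha hb
        show ZZ L F (a + b) = c • (a + b)
        rw [map_add, show ZZ L F a = c • a from ha, show ZZ L F b = c • b from hb, smul_add]
      zero_mem' := by
        show ZZ L F 0 = c • 0
        rw [map_zero, smul_zero]
      smul_mem' := by
        intro d a ha
        show ZZ L F (d • a) = c • (d • a)
        rw [map_smul, show ZZ L F a = c • a from ha, smul_comm] }
  have hx : ZZ L F x = c • x := by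
    refine gen_top h hirr hv (N := N) h1 ?_ x
    intro k hk s hs u hu
    show ZZ L F (dn L (P n k) (Q n k) s u) = c • dn L (P n k) (Q n k) s u
    rw [dn_app, map_sub, map_smul, ← cm, ← cm, show ZZ L F u = c • u from hu, map_smul, map_smul]
    module
  rw [hx, LinearMap.smul_apply, Module.End.one_apply]
  congr 1
  exact (Complex.conj_eq_iff_re.mp h2).symm

theorem wK_eq (R : Tens n) : wK L F R = (-(1 / 4) : ℂ) • op2 F L R := rfl

theorem wK_lin (R W : Tens n) (t : ℝ) : wK L F (R + t • W) = wK L F R + (t : ℂ) • wK L F W := by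
  rw [wK_eq, wK_eq, wK_eq, op2_add, op2_smul, smul_add, smul_comm]

theorem HWV.toHW {lam : ℕ → ℝ} {v : H} (h : IsRep L) (hv : HWV L lam v) :
    IsHighestWeight L lam := by
  have eP : ∀ k (hk : 2 * k + 1 < n), (⟨2 * k, by omega⟩ : Fin n) = P n k :=
    fun k hk => Fin.ext (by rw [P_val hk])
  have eQ : ∀ k (hk : 2 * k + 1 < n), (⟨2 * k + 1, hk⟩ : Fin n) = Q n k :=
    fun k hk => Fin.ext (by rw [Q_val hk])
  refine ⟨v, hv.ne, fun k hk => ?_, fun k hk s hs => ?_⟩
  · rw [eP k hk, eQ k hk]
    exact HC_inv (hv.eig k hk)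
  · rw [eP k hk, eQ k hk]
    exact up_zero hv h.tens hk hs

end Pool.Agent.Hhelper14.EW

namespace Pool.Agent.Hhelper14.EW

open scoped ComplexConjugate InnerProductSpace

variable {n : ℕ} {H : Type*} [NormedAddCommGroup H] [InnerProductSpace ℂ H]
  {L F : Fin n → Fin n → Module.End ℂ H}

theorem weitz_main (hn : 5 ≤ n) [FiniteDimensional ℂ H] (hL : IsRep L) (hirr : IsIrred L)
    (hF : IsWeitz L F) (lam : ℝ)
    (hb : (∃ C : ℝ, ∀ R : Tens n, IsCurv R → IsEinstein lam R → ∀ x : H,
        C * ‖x‖ ^ 2 ≤ (⟪wK L F R x, x⟫_ℂ).re) ∨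
      (∃ C : ℝ, ∀ R : Tens n, IsCurv R → IsEinstein lam R → ∀ x : H,
        (⟪wK L F R x, x⟫_ℂ).re ≤ C * ‖x‖ ^ 2)) :
    F = 0 ∨ ((∃ c : ℝ, ∀ (μ : ℝ) (R : Tens n), IsCurv R → IsEinstein μ R →
        wK L F R = ((c * μ : ℝ) : ℂ) • 1) ∧
      ∃ w : ℕ → ℝ, IsHighestWeight L w ∧ (WVector n w ∨ WSpin n w ∨ WRarita n w ∨ WMiddle n w)) := by
  haveI : NeZero n := ⟨by omega⟩
  by_cases hnt : Nontrivial H
  swap
  · left
    rw [not_nontrivial_iff_subsingleton] at hnt
    funext i j
    refine LinearMap.ext fun x => ?_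
    exact Subsingleton.elim _ _
  have hz : ∀ W : Tens n, IsCurv W → (∀ j l, ric W j l = 0) → op2 F L W = 0 := by
    intro W hW hr
    have e := weyl_vanish hn (T := wK L F) wK_lin hW hr (fun x y => by
      rw [wK_eq, LinearMap.smul_apply, LinearMap.smul_apply, inner_smul_left,
        inner_smul_right, op2_symm hL hF hW hr]
      congr 1
      rw [show (-(1 / 4) : ℂ) = ((-(1/4) : ℝ) : ℂ) by push_cast; ring, Complex.conj_ofReal]) hb
    rw [wK_eq] at e
    rcases smul_eq_zero.mp e with h1 | h1
    · norm_num at h1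
    · exact h1
  obtain ⟨w, v, hv⟩ := exists_HWV hL
  have hell : ∀ k, ∃ c : ℝ, 2 * k + 1 < n → HC F k v = (c : ℂ) • v := by
    intro k
    by_cases hk : 2 * k + 1 < n
    · obtain ⟨c, hc⟩ := exists_ell hL hF hirr hv hk
      exact ⟨c, fun _ => hc⟩
    · exact ⟨0, fun h => absurd h hk⟩
  choose ell hell using hell
  by_cases hne : ∃ k, 2 * k + 1 < n ∧ ell k ≠ 0
  swap
  · left
    push Not at hne
    funext i j
    refine F_zero hL hF hirr hv (fun k hk => ?_) i j
    rw [hell k hk, hne k hk]; simp
  · right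
    refine ⟨?_, w, hv.toHW hL, weights hn hL hF hv hell hz hne⟩
    obtain ⟨c, hc⟩ := ZZ_scalar hL hF hirr hv
    have hn1 : (n : ℝ) - 1 ≠ 0 := by
      have : (5 : ℝ) ≤ n := by exact_mod_cast hn
      linarith
    refine ⟨-(c / (2 * (n - 1))), fun μ R hR hE => ?_⟩
    have hWc : IsCurv (R + (-1 : ℝ) • (cst (μ / (n - 1)) : Tens n)) :=
      hR.add ((isCurv_cst _).smul _)
    have hWr : ∀ j l, ric (R + (-1 : ℝ) • (cst (μ / (n - 1)) : Tens n)) j l = 0 := by
      intro j l
      rw [ric_add, ric_smul, hE j l, isEinstein_cst hn μ j l]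
      ring
    have e1 := hz _ hWc hWr
    rw [op2_add, op2_smul, op2_cst hL, hc] at e1
    have e2 : op2 F L R = ((2 * (μ / (n - 1)) * c : ℝ) : ℂ) • (1 : Module.End ℂ H) := by
      rw [eq_neg_of_add_eq_zero_left e1]
      push_cast
      module
    rw [wK_eq, e2, smul_smul]
    congr 1
    rw [show (-(1 / 4) : ℂ) = ((-(1/4) : ℝ) : ℂ) by push_cast; ring, ← Complex.ofReal_mul]
    congr 1
    field_simp
    ring

end Pool.Agent.Hhelper14.EW
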