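import Pool.Agent.Hhelper14.EW.Decomp

set_option autoImplicit false
set_option linter.unusedSectionVars false

/-!
# The curvature endomorphism on trivial, vector and spin parts
-/

namespace Pool.Agent.Hhelper14.EW

open scoped ComplexConjugate InnerProductSpace

variable {n : ℕ} {H : Type*} [NormedAddCommGroup H] [InnerProductSpace ℂ H]
  {L : Fin n → Fin n → Module.End ℂ H}

theorem q_triv {H0 : Submodule ℂ H} (h0 : TrivOn L H0) (R : Tens n) {x : H} (hx : x ∈ H0) :
    q L R x = 0 := by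
  unfold q
  rw [LinearMap.smul_apply, opr_apply]
  have : ∀ i j k l : Fin n, ((R i j k l : ℝ) : ℂ) • (L i j (L k l x)) = 0 := by
    intro i j k l
    rw [h0 x hx, map_zero, smul_zero]
  simp [this]

theorem sum_delta (f : Fin n → H) (m : Fin n) (T : Fin n → Fin n → ℝ)
    (hT : ∀ k l, T k l = - T l k) :
    ∑ k, ∑ l, ((T k l : ℝ) : ℂ) • ((if l = m then f k else 0) - (if k = m then f l else 0))
      = (2 : ℂ) • ∑ k, ((T k m : ℝ) : ℂ) • f k := by
  have h1 : ∑ k, ∑ l, ((T k l : ℝ) : ℂ) • (if l = m then f k else 0)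
      = ∑ k, ((T k m : ℝ) : ℂ) • f k := by
    refine Finset.sum_congr rfl fun k _ => ?_
    rw [Finset.sum_eq_single m]
    · simp
    · intro b _ hb; simp [hb]
    · simp
  have h2 : ∑ k, ∑ l, ((T k l : ℝ) : ℂ) • (if k = m then f l else 0)
      = - ∑ k, ((T k m : ℝ) : ℂ) • f k := by
    rw [Finset.sum_eq_single m]
    · rw [← Finset.sum_neg_distrib]
      refine Finset.sum_congr rfl fun l _ => ?_
      rw [hT m l]; simp
    · intro b _ hb; simp [hb]
    · simp
  simp only [smul_sub, Finset.sum_sub_distrib]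
  rw [h1, h2, two_smul]; abel

theorem q_vec_aux {K : Submodule ℂ H} {u : Fin n → K →ₗ[ℂ] H}
    (hu : ∀ i j k, ∀ x : K, L i j (u k x)
      = (if j = k then u i x else 0) - (if i = k then u j x else 0))
    {lam : ℝ} {R : Tens n} (hR : IsCurv R) (hE : IsEinstein lam R) (m : Fin n) (x : K) :
    q L R (u m x) = (lam : ℂ) • u m x := by
  unfold q
  rw [LinearMap.smul_apply, opr_apply]
  have e1 : ∀ i j, ∑ k, ∑ l, ((R i j k l : ℝ) : ℂ) • (L i j (L k l (u m x)))
      = (2 : ℂ) • ∑ k, ((R i j k m : ℝ) : ℂ) • (L i j (u k x)) := by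
    intro i j
    have := sum_delta (fun k => u k x) m (R i j) (fun k l => hR.anti₂ i j k l)
    have h2 := congrArg (L i j) this
    simp only [map_sum, map_smul] at h2
    rw [← h2]
    refine Finset.sum_congr rfl fun k _ => Finset.sum_congr rfl fun l _ => ?_
    rw [hu k l m x]
  simp only [e1]
  have e2 : ∑ i, ∑ j, (2 : ℂ) • ∑ k, ((R i j k m : ℝ) : ℂ) • (L i j (u k x))
      = (2 : ℂ) • ∑ k, ∑ i, ∑ j, ((R i j k m : ℝ) : ℂ) • (L i j (u k x)) := by
    simp only [Finset.smul_sum]
    rw [Finset.sum_comm]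
    rw [Finset.sum_congr rfl fun j _ => Finset.sum_comm]
    rw [Finset.sum_comm]
    refine Finset.sum_congr rfl fun k _ => Finset.sum_comm
  rw [e2]
  have e3 : ∀ k, ∑ i, ∑ j, ((R i j k m : ℝ) : ℂ) • (L i j (u k x))
      = (2 : ℂ) • ∑ i, ((R i k k m : ℝ) : ℂ) • u i x := by
    intro k
    rw [← sum_delta (fun i => u i x) k (fun i j => R i j k m) (fun i j => hR.anti₁ i j k m)]
    refine Finset.sum_congr rfl fun i _ => Finset.sum_congr rfl fun j _ => ?_
    rw [hu i j k x]
  simp only [e3]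
  have e4 : ∑ k, (2 : ℂ) • ∑ i, ((R i k k m : ℝ) : ℂ) • u i x
      = -((2 : ℂ) • ((lam : ℂ) • u m x)) := by
    rw [← Finset.smul_sum, Finset.sum_comm]
    have : ∀ i, ∑ k, ((R i k k m : ℝ) : ℂ) • u i x = if i = m then -((lam : ℂ) • u i x) else 0 := by
      intro i
      rw [← Finset.sum_smul]
      have : ∑ k, ((R i k k m : ℝ) : ℂ) = -((ric R i m : ℝ) : ℂ) := by
        unfold ric
        rw [Complex.ofReal_sum, ← Finset.sum_neg_distrib]
        refine Finset.sum_congr rfl fun k _ => ?_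
        rw [hR.anti₁ i k k m]; push_cast; ring
      rw [this, hE i m]
      by_cases him : i = m
      · simp [him]
      · simp [him]
    simp only [this, Finset.sum_ite_eq', Finset.mem_univ, if_true, smul_neg]
  rw [e4, smul_neg, smul_neg, smul_smul, smul_smul, smul_smul]
  rw [← neg_smul]
  congr 1
  ring

theorem q_vec {H1 : Submodule ℂ H} (h1 : VecOn L H1) {lam : ℝ} {R : Tens n} (hR : IsCurv R)
    (hE : IsEinstein lam R) {x : H} (hx : x ∈ H1) : q L R x = (lam : ℂ) • x := by
  obtain ⟨K, u, _, _, h3, h4⟩ := h1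
  have : H1 ≤ LinearMap.ker (q L R - (lam : ℂ) • 1) := by
    rw [← h3]
    refine iSup_le fun i => ?_
    rintro _ ⟨y, rfl⟩
    rw [LinearMap.mem_ker, LinearMap.sub_apply, q_vec_aux h4 hR hE]
    simp
  have := this hx
  rw [LinearMap.mem_ker, LinearMap.sub_apply] at this
  simpa using sub_eq_zero.mp this

/-! ### spin type -/

section spin

variable {H2 : Submodule ℂ H}

theorem spin_swap (h : IsRep L) (h2 : SpinOn L H2) {x : H} (hx : x ∈ H2) {i j k l : Fin n}
    (hij : i ≠ j) (hik : i ≠ k) (hjk : j ≠ k) (hjl : j ≠ l) (hkl : k ≠ l) :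
    L i j (L k l x) = - L i k (L j l x) := by
  obtain ⟨a, b, c⟩ := h2
  have e1 : L k l x = (2 : ℂ) • L k j (L j l x) := by
    rw [c x hx k j l (Ne.symm hjk) hjl hkl, smul_smul]; norm_num
  have e2 := c (L j l x) (a x hx j l) i j k hij hjk hik
  rw [e1, map_smul, h.anti k j, LinearMap.neg_apply, map_neg, e2, smul_neg, smul_smul]
  norm_num

open Classical in
/-- the totally antisymmetric part -/
noncomputable def MM (L : Fin n → Fin n → Module.End ℂ H) (x : H) (i j k l : Fin n) : H :=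
  if i ≠ j ∧ j ≠ k ∧ i ≠ k ∧ i ≠ l ∧ j ≠ l ∧ k ≠ l then L i j (L k l x) else 0

theorem MM_cyc (h : IsRep L) (h2 : SpinOn L H2) {x : H} (hx : x ∈ H2) (i j k l : Fin n) :
    MM L x i j k l = MM L x k i j l := by
  unfold MM
  by_cases hc : i ≠ j ∧ j ≠ k ∧ i ≠ k ∧ i ≠ l ∧ j ≠ l ∧ k ≠ l
  · obtain ⟨c1, c2, c3, c4, c5, c6⟩ := hc
    rw [if_pos ⟨c1, c2, c3, c4, c5, c6⟩, if_pos ⟨Ne.symm c3, c1, Ne.symm c2, c6, c4, c5⟩,
      spin_swap h h2 hx c1 c3 c2 c5 c6, h.anti i k, LinearMap.neg_apply, neg_neg]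
  · rw [if_neg hc, if_neg]
    rintro ⟨c1, c2, c3, c4, c5, c6⟩
    exact hc ⟨c2, Ne.symm c3, Ne.symm c1, c5, c6, c4⟩

theorem spin_T (h : IsRep L) (h2 : SpinOn L H2) {x : H} (hx : x ∈ H2) (i j k l : Fin n) :
    L i j (L k l x) = MM L x i j k l
      + (1 / 2 : ℂ) • ((if j = k then L i l x else 0) - (if i = k then L j l x else 0)
        - (if j = l then L i k x else 0) + (if i = l then L j k x else 0))
      - (1 / 4 : ℂ) • ((if i = k then (if j = l then x else 0) else 0)
        - (if i = l then (if j = k then x else 0) else 0)) := by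
  obtain ⟨a, b, c⟩ := h2
  have ld : ∀ i (y : H), L i i y = 0 := fun i y => by rw [L_diag h]; rfl
  by_cases hij : i = j
  · subst hij
    have : MM L x i i k l = 0 := by unfold MM; rw [if_neg]; tauto
    rw [this, ld]
    by_cases hk : i = k <;> by_cases hl : i = l <;> simp [hk, hl]
  by_cases hkl : k = l
  · subst hkl
    have : MM L x i j k k = 0 := by unfold MM; rw [if_neg]; tauto
    rw [this, ld, map_zero]
    by_cases hk : i = k <;> by_cases hl : j = k <;> simp [hk, hl]
  by_cases hjk : j = k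
  · subst hjk
    have : MM L x i j j l = 0 := by unfold MM; rw [if_neg]; tauto
    rw [this]
    by_cases hil : i = l
    · subst hil
      have e := b x hx i j hij
      rw [h.anti j i, LinearMap.neg_apply, map_neg, e]
      simp [hij, hkl, ld]
    · rw [c x hx i j l hij hkl hil]
      simp [hij, hil, hkl]
  by_cases hik : i = k
  · subst hik
    have : MM L x i j i l = 0 := by unfold MM; rw [if_neg]; tauto
    rw [this]
    by_cases hjl : j = l
    · subst hjl
      rw [b x hx i j hij]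
      simp [hij, ld, hjk]
    · have e := c x hx j i l (Ne.symm hij) hkl hjl
      rw [h.anti i j, LinearMap.neg_apply, e]
      simp [hij, hjk, hkl, hjl]
  by_cases hil : i = l
  · subst hil
    have : MM L x i j k i = 0 := by unfold MM; rw [if_neg]; tauto
    rw [this]
    have e := c x hx j i k (Ne.symm hij) hik hjk
    rw [h.anti i j, h.anti k i, LinearMap.neg_apply, LinearMap.neg_apply, map_neg, neg_neg, e]
    simp [hjk, hik, Ne.symm hij]
  by_cases hjl : j = l
  · subst hjl
    have : MM L x i j k j = 0 := by unfold MM; rw [if_neg]; tauto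
    rw [this]
    have e := c x hx i j k hij hjk hik
    rw [h.anti k j, LinearMap.neg_apply, map_neg, e]
    simp [hjk, hik, hij]
  · have : MM L x i j k l = L i j (L k l x) := by
      unfold MM; rw [if_pos ⟨hij, hjk, hik, hil, hjl, hkl⟩]
    rw [this]
    simp [hjk, hik, hil, hjl]

theorem sum_MM (h : IsRep L) (h2 : SpinOn L H2) {x : H} (hx : x ∈ H2) {R : Tens n}
    (hR : IsCurv R) : ∑ i, ∑ j, ∑ k, ∑ l, ((R i j k l : ℝ) : ℂ) • MM L x i j k l = 0 := by
  set T := ∑ i, ∑ j, ∑ k, ∑ l, ((R i j k l : ℝ) : ℂ) • MM L x i j k l with hT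
  have cyc : ∀ f : Fin n → Fin n → Fin n → Fin n → H,
      ∑ i, ∑ j, ∑ k, ∑ l, f k i j l = ∑ i, ∑ j, ∑ k, ∑ l, f i j k l := by
    intro f
    calc ∑ i, ∑ j, ∑ k, ∑ l, f k i j l
        = ∑ i, ∑ k, ∑ j, ∑ l, f k i j l := Finset.sum_congr rfl fun i _ => Finset.sum_comm
      _ = ∑ k, ∑ i, ∑ j, ∑ l, f k i j l := Finset.sum_comm
  have t1 : ∑ i, ∑ j, ∑ k, ∑ l, ((R k i j l : ℝ) : ℂ) • MM L x i j k l = T := by
    have e := cyc (fun i j k l => ((R i j k l : ℝ) : ℂ) • MM L x i j k l)
    refine Eq.trans ?_ (e.trans hT.symm)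
    refine Finset.sum_congr rfl fun i _ => Finset.sum_congr rfl fun j _ => ?_
    refine Finset.sum_congr rfl fun k _ => Finset.sum_congr rfl fun l _ => ?_
    show _ = ((R k i j l : ℝ) : ℂ) • MM L x k i j l
    rw [MM_cyc h h2 hx i j k l]
  have t2 : ∑ i, ∑ j, ∑ k, ∑ l, ((R j k i l : ℝ) : ℂ) • MM L x i j k l = T := by
    have e := cyc (fun i j k l => ((R k i j l : ℝ) : ℂ) • MM L x i j k l)
    refine Eq.trans ?_ (e.trans t1)
    refine Finset.sum_congr rfl fun i _ => Finset.sum_congr rfl fun j _ => ?_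
    refine Finset.sum_congr rfl fun k _ => Finset.sum_congr rfl fun l _ => ?_
    show _ = ((R j k i l : ℝ) : ℂ) • MM L x k i j l
    rw [MM_cyc h h2 hx i j k l]
  have t3 : T + T + T = 0 := by
    nth_rewrite 2 [← t1]
    nth_rewrite 2 [← t2]
    rw [hT, ← Finset.sum_add_distrib, ← Finset.sum_add_distrib]
    refine Finset.sum_eq_zero fun i _ => ?_
    rw [← Finset.sum_add_distrib, ← Finset.sum_add_distrib]
    refine Finset.sum_eq_zero fun j _ => ?_
    rw [← Finset.sum_add_distrib, ← Finset.sum_add_distrib]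
    refine Finset.sum_eq_zero fun k _ => ?_
    rw [← Finset.sum_add_distrib, ← Finset.sum_add_distrib]
    refine Finset.sum_eq_zero fun l _ => ?_
    rw [← add_smul, ← add_smul, ← Complex.ofReal_add, ← Complex.ofReal_add]
    have := hR.bianchi i j k l
    rw [show R i j k l + R k i j l + R j k i l = 0 by linarith]
    simp
  have : (3 : ℂ) • T = 0 := by
    rw [← t3, show (3 : ℂ) = 1 + 1 + 1 by norm_num, add_smul, add_smul, one_smul]
  rcases smul_eq_zero.mp this with h4 | h4
  · exact absurd h4 (by norm_num)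
  · exact h4

end spin

end Pool.Agent.Hhelper14.EW
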