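import Pool.Agent.Hhelper14.EW.Rels

set_option autoImplicit false
set_option linter.unusedSectionVars false

/-!
# Decomposition into a trivial, a vector and a spin part
-/

namespace Pool.Agent.Hhelper14.EW

open scoped ComplexConjugate InnerProductSpace

variable {n : ℕ} {H : Type*} [NormedAddCommGroup H] [InnerProductSpace ℂ H]
  {L : Fin n → Fin n → Module.End ℂ H}

/-- relation applied to a vector -/
theorem app_eq {a b : Module.End ℂ H} (h : a = b) (x : H) : a x = b x := by rw [h]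

theorem L_diag (h : IsRep L) (i : Fin n) : L i i = 0 := by
  have := h.anti i i
  exact add_self_zero (by nth_rewrite 1 [this]; abel)

/-- the vectors of type `e_i` -/
def U (L : Fin n → Fin n → Module.End ℂ H) (i : Fin n) : Submodule ℂ H where
  carrier := {u | (∀ j k, j ≠ i → k ≠ i → L j k u = 0) ∧ (∀ j, j ≠ i → L i j (L i j u) = -u)}
  add_mem' := by
    rintro a b ⟨ha1, ha2⟩ ⟨hb1, hb2⟩
    refine ⟨fun j k hj hk => ?_, fun j hj => ?_⟩
    · rw [map_add, ha1 j k hj hk, hb1 j k hj hk, add_zero]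
    · rw [map_add, map_add, ha2 j hj, hb2 j hj, neg_add]
  zero_mem' := by
    refine ⟨fun j k hj hk => ?_, fun j hj => ?_⟩ <;> simp
  smul_mem' := by
    rintro c a ⟨ha1, ha2⟩
    refine ⟨fun j k hj hk => ?_, fun j hj => ?_⟩
    · rw [map_smul, ha1 j k hj hk, smul_zero]
    · rw [map_smul, map_smul, ha2 j hj, smul_neg]

theorem mem_U {i : Fin n} {u : H} : u ∈ U L i ↔
    (∀ j k, j ≠ i → k ≠ i → L j k u = 0) ∧ (∀ j, j ≠ i → L i j (L i j u) = -u) := Iff.rfl

theorem S_of_U (hn : 5 ≤ n) (hr : Rel L) {i a k : Fin n} {u : H} (hu : u ∈ U L i) (hai : a ≠ i)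
    (hki : k ≠ i) (hak : a ≠ k) : S L a k u = 0 := by
  obtain ⟨m, m1, m2, m3⟩ := avoid3 hn i a k
  rw [S_eq hn hr hak (Ne.symm m2) (Ne.symm m3), LinearMap.add_apply, Module.End.mul_apply,
    Module.End.mul_apply, hu.1 k m hki m1, hu.1 a m hai m1, map_zero, map_zero, add_zero]

/-- `L_jk L_ki u = L_ji u` for `u` of type `e_i` -/
theorem F4 (hn : 5 ≤ n) (hr : Rel L) {i j k : Fin n} {u : H} (hu : u ∈ U L i) (hij : i ≠ j)
    (hik : i ≠ k) (hjk : j ≠ k) : L j k (L k i u) = L j i u := by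
  have e := app_eq (P1 hn hr (a := j) (b := k) (c := i) hjk (Ne.symm hik) (Ne.symm hij)) u
  have e2 := app_eq (S_eq hn hr (i := j) (k := i) (j := k) (Ne.symm hij) hjk hik) u
  simp only [LinearMap.add_apply, LinearMap.sub_apply, Module.End.mul_apply] at e e2
  rw [hu.1 j k (Ne.symm hij) (Ne.symm hik), map_zero, add_zero, hr.anti i k,
    LinearMap.neg_apply, map_neg] at e2
  rw [e2, sub_neg_eq_add] at e
  exact add_right_cancel e

/-- `L_ki` maps type `e_i` to type `e_k` -/
theorem LU (hn : 5 ≤ n) (h : IsRep L) (hr : Rel L) {i k : Fin n} {u : H} (hu : u ∈ U L i)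
    (hik : i ≠ k) : L k i u ∈ U L k := by
  have aux : ∀ a, a ≠ k → a ≠ i → L a i (L k i u) = 0 := by
    intro a hak hai
    have e := app_eq (P1 hn hr (a := a) (b := i) (c := k) hai hik hak) u
    simp only [LinearMap.add_apply, LinearMap.sub_apply, Module.End.mul_apply] at e
    rw [hu.1 a k hai (Ne.symm hik), S_of_U hn hr hu hai (Ne.symm hik) hak, sub_zero] at e
    have e' : L a i (L i k u) = 0 := by
      have e2 : (2 : ℂ) • L a i (L i k u) = 0 := by rw [two_smul]; exact e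
      rcases smul_eq_zero.mp e2 with h2 | h2
      · exact absurd h2 two_ne_zero
      · exact h2
    rw [hr.anti k i, LinearMap.neg_apply, map_neg, e', neg_zero]
  refine ⟨fun a b ha hb => ?_, fun j hj => ?_⟩
  · by_cases hab : a = b
    · rw [hab, L_diag h]; rfl
    by_cases hai : a = i
    · subst hai
      rw [hr.anti a b, LinearMap.neg_apply, aux b hb (Ne.symm hab), neg_zero]
    by_cases hbi : b = i
    · subst hbi
      exact aux a ha hai
    · have e := app_eq (hr.c0 a b k i ha hai hb hbi) u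
      simp only [Module.End.mul_apply] at e
      rw [e, hu.1 a b hai hbi, map_zero]
  · by_cases hji : j = i
    · subst hji
      have e : L k j (L k j u) = -u := by
        have := hu.2 k (Ne.symm hik)
        rw [hr.anti k j]
        simp only [LinearMap.neg_apply, map_neg, neg_neg]
        exact this
      rw [e, map_neg]
    · have e1 := F4 hn hr hu (Ne.symm hji) hik hj
      have e2 := F4 hn hr hu hik (Ne.symm hji) (Ne.symm hj)
      have e3 : L k j (L k i u) = - L j i u := by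
        rw [hr.anti k j, LinearMap.neg_apply, e1]
      rw [e3, map_neg, e2]

theorem U_orth (hn : 5 ≤ n) (h : IsRep L) {i j : Fin n} (hij : i ≠ j) {u v : H}
    (hu : u ∈ U L i) (hv : v ∈ U L j) : ⟪u, v⟫_ℂ = 0 := by
  obtain ⟨k, k1, k2⟩ := avoid2 hn i j
  have e : u = - L i k (L i k u) := by rw [hu.2 k k1, neg_neg]
  rw [e, inner_neg_left, h.skew, hv.1 i k hij k2]
  simp

/-- `- s_i S_ik x` is of type `e_i` -/
theorem sS_mem_U (hn : 5 ≤ n) (h : IsRep L) (hr : Rel L) {i k : Fin n} (hik : i ≠ k) (x : H) :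
    s L i (S L i k x) ∈ U L i := by
  have zz := app_eq (ssS_zero' hn hr hik) x
  have d1 := app_eq (R12 hn hr hik) x
  simp only [Module.End.mul_apply, LinearMap.zero_apply, LinearMap.neg_apply] at zz d1
  have aux : ∀ j, j ≠ i → j ≠ k → L j k (s L i (S L i k x)) = 0 := by
    intro j hji hjk
    have c := app_eq (comm_Ls hn hr (i := i) (j := j) (k := k) (Ne.symm hji) hik) (S L i k x)
    have r := app_eq (R11 hn hr (i := j) (j := k) (k := i) hjk hji (Ne.symm hik)) x
    have z := app_eq (ssS_zero' hn hr (i := j) (k := i) hji) x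
    simp only [Module.End.mul_apply, LinearMap.zero_apply, LinearMap.neg_apply] at c r z
    rw [c, S_symm hn hr hik, r, map_neg, z, neg_zero]
  refine ⟨fun a b ha hb => ?_, fun j hj => ?_⟩
  · by_cases hab : a = b
    · rw [hab, L_diag h]; rfl
    by_cases hak : a = k
    · subst hak
      rw [hr.anti a b, LinearMap.neg_apply, aux b hb (Ne.symm hab), neg_zero]
    by_cases hbk : b = k
    · subst hbk
      exact aux a ha hak
    · have c := app_eq (comm_Ls hn hr (i := i) (j := a) (k := b) (Ne.symm ha) (Ne.symm hb))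
        (S L i k x)
      have z := app_eq (LS_zero hn hr hab ha hak hb hbk hik) x
      simp only [Module.End.mul_apply, LinearMap.zero_apply] at c z
      rw [c, z, map_zero]
  · have e := app_eq (L_sq hn hr (Ne.symm hj)) (s L i (S L i k x))
    simp only [Module.End.mul_apply, LinearMap.add_apply] at e
    rw [e, d1]
    by_cases hjk : j = k
    · subst hjk
      rw [zz, add_zero]
    · have c := app_eq (s_comm hn hr hj) (S L i k x)
      have z := app_eq (sS_zero hn hr hj hjk hik) x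
      simp only [Module.End.mul_apply, LinearMap.zero_apply] at c z
      rw [c, z, map_zero, add_zero]

/-! ### symmetry of `S` and `s` -/

theorem LL_inner (h : IsRep L) (i j k l : Fin n) (x y : H) :
    ⟪(L i j * L k l) x, y⟫_ℂ = ⟪x, (L k l * L i j) y⟫_ℂ := by
  rw [Module.End.mul_apply, Module.End.mul_apply, h.skew, h.skew, neg_neg]

theorem S_inner (hn : 5 ≤ n) (h : IsRep L) (hr : Rel L) {i k : Fin n} (hik : i ≠ k) (x y : H) :
    ⟪S L i k x, y⟫_ℂ = ⟪x, S L i k y⟫_ℂ := by
  obtain ⟨j, j1, j2⟩ := avoid2 hn i k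
  rw [S_eq hn hr hik (Ne.symm j1) (Ne.symm j2), LinearMap.add_apply, LinearMap.add_apply,
    inner_add_left, inner_add_right, LL_inner h, LL_inner h, add_comm]

theorem s_inner (hn : 5 ≤ n) (h : IsRep L) (hr : Rel L) (i : Fin n) (x y : H) :
    ⟪s L i x, y⟫_ℂ = ⟪x, s L i y⟫_ℂ := by
  obtain ⟨j, j1, j2⟩ := avoid2 hn i i
  obtain ⟨k, k1, k2⟩ := avoid2 hn i j
  rw [s_eq hn hr (Ne.symm j1) (Ne.symm k1) (Ne.symm k2)]
  unfold gg
  simp only [LinearMap.smul_apply, LinearMap.sub_apply, LinearMap.add_apply, inner_smul_left,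
    inner_smul_right, inner_sub_left, inner_sub_right, inner_add_left, inner_add_right,
    LL_inner h]
  congr 1
  rw [map_div₀, map_one, map_ofNat]

theorem S_cancel (hn : 5 ≤ n) (h : IsRep L) (hr : Rel L) {i k : Fin n} (hik : i ≠ k) {x : H}
    (hx : S L i k (S L i k x) = 0) : S L i k x = 0 := by
  have : ⟪S L i k x, S L i k x⟫_ℂ = 0 := by rw [S_inner hn h hr hik, hx, inner_zero_right]
  exact inner_self_eq_zero.mp this

/-- `S_ik = - s_i S_ik - s_k S_ik` -/
theorem S_split (hn : 5 ≤ n) (h : IsRep L) (hr : Rel L) {i k : Fin n} (hik : i ≠ k) (x : H) :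
    S L i k x = - s L i (S L i k x) - s L k (S L k i x) := by
  obtain ⟨e5, e3⟩ := S5 hn hr hik
  have e5 := app_eq e5 x
  have e3 := app_eq e3 x
  simp only [Module.End.mul_apply, LinearMap.sub_apply, LinearMap.neg_apply] at e5 e3
  have h1 : S L i k (S L i k (S L i k (S L i k (S L i k x) - x))) = 0 := by
    simp only [map_sub]; rw [e5, sub_self]
  have h2 := S_cancel hn h hr hik (S_cancel hn h hr hik h1)
  rw [map_sub, e3] at h2
  rw [S_symm hn hr (Ne.symm hik)]
  exact (sub_eq_zero.mp h2).symm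

/-! ### the summands -/

/-- the vector part -/
def HV (L : Fin n → Fin n → Module.End ℂ H) : Submodule ℂ H := ⨆ i, U L i

theorem S_mem_HV (hn : 5 ≤ n) (h : IsRep L) (hr : Rel L) {i k : Fin n} (hik : i ≠ k) (x : H) :
    S L i k x ∈ HV L := by
  rw [S_split hn h hr hik]
  refine Submodule.sub_mem _ (Submodule.neg_mem _ ?_) ?_
  · exact Submodule.mem_iSup_of_mem i (sS_mem_U hn h hr hik x)
  · exact Submodule.mem_iSup_of_mem k (sS_mem_U hn h hr (Ne.symm hik) x)

theorem HV_inv (hn : 5 ≤ n) (h : IsRep L) (hr : Rel L) (a b : Fin n) {x : H} (hx : x ∈ HV L) :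
    L a b x ∈ HV L := by
  have : HV L ≤ (HV L).comap (L a b) := by
    refine iSup_le fun i => ?_
    intro u hu
    rw [Submodule.mem_comap]
    by_cases hai : a = i
    · by_cases hbi : b = i
      · rw [hai, hbi, L_diag h]; exact Submodule.zero_mem _
      · subst hai
        rw [hr.anti a b, LinearMap.neg_apply]
        exact Submodule.neg_mem _ (Submodule.mem_iSup_of_mem b (LU hn h hr hu (Ne.symm hbi)))
    · by_cases hbi : b = i
      · subst hbi
        exact Submodule.mem_iSup_of_mem a (LU hn h hr hu (Ne.symm hai))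
      · rw [hu.1 a b hai hbi]; exact Submodule.zero_mem _
  exact this hx

theorem orth_inv (hn : 5 ≤ n) (h : IsRep L) (hr : Rel L) (a b : Fin n) {x : H}
    (hx : x ∈ (HV L)ᗮ) : L a b x ∈ (HV L)ᗮ := by
  rw [Submodule.mem_orthogonal'] at hx ⊢
  intro u hu
  rw [h.skew, hx _ (HV_inv hn h hr a b hu), neg_zero]

theorem S_orth (hn : 5 ≤ n) (h : IsRep L) (hr : Rel L) {i k : Fin n} (hik : i ≠ k) {x : H}
    (hx : x ∈ (HV L)ᗮ) : S L i k x = 0 := by
  have h1 : S L i k x ∈ (HV L)ᗮ := by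
    obtain ⟨j, j1, j2⟩ := avoid2 hn i k
    rw [S_eq hn hr hik (Ne.symm j1) (Ne.symm j2), LinearMap.add_apply, Module.End.mul_apply,
      Module.End.mul_apply]
    exact Submodule.add_mem _ (orth_inv hn h hr _ _ (orth_inv hn h hr _ _ hx))
      (orth_inv hn h hr _ _ (orth_inv hn h hr _ _ hx))
  have h2 := S_mem_HV hn h hr hik x
  rw [Submodule.mem_orthogonal] at h1
  exact inner_self_eq_zero.mp (h1 _ h2)

theorem s_orth (hn : 5 ≤ n) (h : IsRep L) (hr : Rel L) (i k : Fin n) {x : H}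
    (hx : x ∈ (HV L)ᗮ) : s L i x = s L k x := by
  by_cases hik : i = k
  · rw [hik]
  obtain ⟨l, l1, l2⟩ := avoid2 hn i k
  have e := app_eq (brack_S2 hn hr hik (Ne.symm l1) (Ne.symm l2)) x
  rw [L_sq hn hr (Ne.symm l1), L_sq hn hr (Ne.symm l2)] at e
  simp only [LinearMap.sub_apply, LinearMap.add_apply, Module.End.mul_apply] at e
  rw [S_orth hn h hr hik hx, S_orth hn h hr hik (orth_inv hn h hr i k hx), map_zero,
    sub_zero] at e
  have e2 : (2 : ℂ) • (s L i x - s L k x) = 0 := by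
    rw [two_smul, e]; abel
  rcases smul_eq_zero.mp e2 with h2 | h2
  · exact absurd h2 two_ne_zero
  · exact sub_eq_zero.mp h2

/-- `8 s L_cd x = - L_cd x` on the orthogonal complement -/
theorem sL_orth (hn : 5 ≤ n) (h : IsRep L) (hr : Rel L) (e c d : Fin n) {x : H}
    (hx : x ∈ (HV L)ᗮ) : (8 : ℂ) • s L e (L c d x) = - L c d x := by
  by_cases hcd : c = d
  · rw [hcd, L_diag h]; simp
  obtain ⟨a, a1, a2⟩ := avoid2 hn c d
  obtain ⟨b, b1, b2, b3⟩ := avoid3 hn c d a
  have f := app_eq (R7 hn hr (a := a) (b := b) (c := c) (d := d) (Ne.symm b3) a1 a2 b1 b2 hcd) x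
  rw [L_sq hn hr (Ne.symm b3)] at f
  simp only [LinearMap.sub_apply, LinearMap.add_apply, LinearMap.smul_apply,
    Module.End.mul_apply] at f
  have hy := orth_inv hn h hr c d hx
  rw [S_orth hn h hr b1 (orth_inv hn h hr d b hx), S_orth hn h hr hcd hx,
    s_orth hn h hr a e hy, s_orth hn h hr b e hy, smul_zero, zero_sub, add_zero] at f
  rw [← f, ← two_smul ℂ, smul_smul]; norm_num

theorem ss_orth (hn : 5 ≤ n) (h : IsRep L) (hr : Rel L) (e : Fin n) {x : H}
    (hx : x ∈ (HV L)ᗮ) : (8 : ℂ) • s L e (s L e x) = - s L e x := by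
  obtain ⟨c, c1, _⟩ := avoid2 hn e e
  obtain ⟨d, d1, d2⟩ := avoid2 hn e c
  have h1 := sL_orth hn h hr e c d (orth_inv hn h hr c d hx)
  have h2 := app_eq (L_sq hn hr (Ne.symm d2)) x
  simp only [LinearMap.add_apply, Module.End.mul_apply] at h2
  rw [s_orth hn h hr c e hx, s_orth hn h hr d e hx, ← two_smul ℂ] at h2
  rw [h2, map_smul, smul_comm, ← smul_neg] at h1
  have : (2 : ℂ) • ((8 : ℂ) • s L e (s L e x) - - s L e x) = 0 := by
    rw [smul_sub, h1, sub_self]
  rcases smul_eq_zero.mp this with h3 | h3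
  · exact absurd h3 two_ne_zero
  · exact sub_eq_zero.mp h3

theorem L_zero_of_sq (h : IsRep L) {i j : Fin n} {x : H} (hx : L i j (L i j x) = 0) :
    L i j x = 0 := by
  have : ⟪L i j x, L i j x⟫_ℂ = 0 := by rw [h.skew, hx, inner_zero_right, neg_zero]
  exact inner_self_eq_zero.mp this

/-- the trivial part -/
noncomputable def HT (L : Fin n → Fin n → Module.End ℂ H) (e : Fin n) : Submodule ℂ H :=
  (HV L)ᗮ ⊓ LinearMap.ker (s L e)

/-- the spin part -/
noncomputable def HS (L : Fin n → Fin n → Module.End ℂ H) (e : Fin n) : Submodule ℂ H :=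
  (HV L)ᗮ ⊓ LinearMap.ker ((8 : ℂ) • s L e + 1)

theorem mem_HT {e : Fin n} {x : H} : x ∈ HT L e ↔ x ∈ (HV L)ᗮ ∧ s L e x = 0 := by
  unfold HT; rw [Submodule.mem_inf, LinearMap.mem_ker]

theorem mem_HS {e : Fin n} {x : H} : x ∈ HS L e ↔ x ∈ (HV L)ᗮ ∧ (8 : ℂ) • s L e x = -x := by
  unfold HS
  rw [Submodule.mem_inf, LinearMap.mem_ker]
  simp only [LinearMap.add_apply, LinearMap.smul_apply, Module.End.one_apply]
  rw [add_eq_zero_iff_eq_neg]

theorem HT_trivial (hn : 5 ≤ n) (h : IsRep L) (hr : Rel L) {e : Fin n} {x : H}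
    (hx : x ∈ HT L e) (i j : Fin n) : L i j x = 0 := by
  rw [mem_HT] at hx
  by_cases hij : i = j
  · rw [hij, L_diag h]; rfl
  have h2 := app_eq (L_sq hn hr hij) x
  simp only [LinearMap.add_apply, Module.End.mul_apply] at h2
  rw [s_orth hn h hr i e hx.1, s_orth hn h hr j e hx.1, hx.2, add_zero] at h2
  exact L_zero_of_sq h h2

theorem HS_sq (hn : 5 ≤ n) (h : IsRep L) (hr : Rel L) {e : Fin n} {x : H}
    (hx : x ∈ HS L e) {i j : Fin n} (hij : i ≠ j) : L i j (L i j x) = -((1 / 4 : ℂ) • x) := by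
  rw [mem_HS] at hx
  have h2 := app_eq (L_sq hn hr hij) x
  simp only [LinearMap.add_apply, Module.End.mul_apply] at h2
  rw [s_orth hn h hr i e hx.1, s_orth hn h hr j e hx.1] at h2
  rw [h2]
  have : s L e x + s L e x = (1 / 4 : ℂ) • ((8 : ℂ) • s L e x) := by
    rw [smul_smul, ← two_smul ℂ]; norm_num
  rw [this, hx.2, smul_neg]

theorem HS_prod (hn : 5 ≤ n) (h : IsRep L) (hr : Rel L) {e : Fin n} {x : H}
    (hx : x ∈ HS L e) {i j k : Fin n} (hij : i ≠ j) (hjk : j ≠ k) (hik : i ≠ k) :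
    L i j (L j k x) = (1 / 2 : ℂ) • L i k x := by
  rw [mem_HS] at hx
  have e1 := app_eq (P1 hn hr hij hjk hik) x
  simp only [LinearMap.add_apply, LinearMap.sub_apply, Module.End.mul_apply] at e1
  rw [S_orth hn h hr hik hx.1, sub_zero] at e1
  rw [← e1, ← two_smul ℂ, smul_smul]; norm_num

theorem HS_inv (hn : 5 ≤ n) (h : IsRep L) (hr : Rel L) {e : Fin n} {x : H}
    (hx : x ∈ HS L e) (i j : Fin n) : L i j x ∈ HS L e := by
  rw [mem_HS] at hx ⊢
  exact ⟨orth_inv hn h hr i j hx.1, sL_orth hn h hr e i j hx.1⟩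

theorem HT_HS_orth (hn : 5 ≤ n) (h : IsRep L) (hr : Rel L) {e : Fin n} {x y : H}
    (hx : x ∈ HT L e) (hy : y ∈ HS L e) : ⟪x, y⟫_ℂ = 0 := by
  rw [mem_HT] at hx
  rw [mem_HS] at hy
  have : y = -((8 : ℂ) • s L e y) := by rw [hy.2, neg_neg]
  rw [this, inner_neg_right, inner_smul_right, ← s_inner hn h hr, hx.2, inner_zero_left]
  simp

theorem split_orth (hn : 5 ≤ n) (h : IsRep L) (hr : Rel L) (e : Fin n) {x : H}
    (hx : x ∈ (HV L)ᗮ) : x ∈ HT L e ⊔ HS L e := by
  have hs : s L e x ∈ (HV L)ᗮ := by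
    obtain ⟨d, d1, _⟩ := avoid2 hn e e
    have h2 := app_eq (L_sq hn hr (Ne.symm d1)) x
    simp only [LinearMap.add_apply, Module.End.mul_apply] at h2
    rw [s_orth hn h hr d e hx, ← two_smul ℂ] at h2
    have : s L e x = (1 / 2 : ℂ) • L e d (L e d x) := by
      rw [h2, smul_smul]; norm_num
    rw [this]
    exact Submodule.smul_mem _ _ (orth_inv hn h hr _ _ (orth_inv hn h hr _ _ hx))
  have hss := ss_orth hn h hr e hx
  have e1 : x = (x + (8 : ℂ) • s L e x) + (-((8 : ℂ) • s L e x)) := by abel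
  rw [e1]
  refine Submodule.add_mem_sup ?_ ?_
  · rw [mem_HT]
    refine ⟨Submodule.add_mem _ hx (Submodule.smul_mem _ _ hs), ?_⟩
    rw [map_add, map_smul, hss, add_neg_cancel]
  · rw [mem_HS]
    refine ⟨Submodule.neg_mem _ (Submodule.smul_mem _ _ hs), ?_⟩
    rw [map_neg, map_smul, smul_neg, hss, smul_neg, neg_neg]

end Pool.Agent.Hhelper14.EW
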