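import Mathlib

set_option autoImplicit false

/-!
# Definitions: curvature tensors, representations of `so(n)`, the curvature endomorphism
-/

namespace Pool.Agent.Hhelper14.EW

open scoped InnerProductSpace

variable {n : ℕ}

/-- Rank four tensors on `ℝ^n`, components in the standard orthonormal basis. -/
abbrev Tens (n : ℕ) := Fin n → Fin n → Fin n → Fin n → ℝ

/-- Algebraic curvature tensors. -/
structure IsCurv (R : Tens n) : Prop where
  anti₁ : ∀ i j k l, R i j k l = - R j i k l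
  anti₂ : ∀ i j k l, R i j k l = - R i j l k
  bianchi : ∀ i j k l, R i j k l + R j k i l + R k i j l = 0

/-- Ricci tensor. -/
def ric (R : Tens n) (j l : Fin n) : ℝ := ∑ i, R i j i l

/-- `Ric = lam g`. -/
def IsEinstein (lam : ℝ) (R : Tens n) : Prop := ∀ j l, ric R j l = if j = l then lam else 0

variable {H : Type*} [NormedAddCommGroup H] [InnerProductSpace ℂ H]

/-- A unitary representation of `so(n)` on `H`: `L i j` is the operator of the element `E_ij` of
`so(n)` with `E_ij e_j = e_i`, `E_ij e_i = - e_j`. -/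
structure IsRep (L : Fin n → Fin n → Module.End ℂ H) : Prop where
  anti : ∀ i j, L i j = - L j i
  comm : ∀ i j k l, L i j * L k l - L k l * L i j
    = (if j = k then L i l else 0) - (if i = k then L j l else 0)
      - (if j = l then L i k else 0) + (if i = l then L j k else 0)
  skew : ∀ i j x y, ⟪L i j x, y⟫_ℂ = - ⟪x, L i j y⟫_ℂ

/-- `∑ R_ijkl L_ij L_kl` -/
noncomputable def opr {A : Type*} [Ring A] [Algebra ℂ A] (L : Fin n → Fin n → A) (R : Tens n) :
    A :=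
  ∑ i, ∑ j, ∑ k, ∑ l, ((R i j k l : ℝ) : ℂ) • (L i j * L k l)

/-- The curvature endomorphism `q(R) = - 1/4 ∑ R_ijkl L_ij L_kl`. -/
noncomputable def q (L : Fin n → Fin n → Module.End ℂ H) (R : Tens n) : Module.End ℂ H :=
  (-(1 / 4) : ℂ) • opr L R

/-- `q` is bounded below on the Einstein tensors with constant `lam`. -/
def BddBelowOn (L : Fin n → Fin n → Module.End ℂ H) (lam : ℝ) : Prop :=
  ∃ C : ℝ, ∀ R : Tens n, IsCurv R → IsEinstein lam R → ∀ x : H,
    C * ‖x‖ ^ 2 ≤ (⟪q L R x, x⟫_ℂ).re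

/-- `q` is bounded above on the Einstein tensors with constant `lam`. -/
def BddAboveOn (L : Fin n → Fin n → Module.End ℂ H) (lam : ℝ) : Prop :=
  ∃ C : ℝ, ∀ R : Tens n, IsCurv R → IsEinstein lam R → ∀ x : H,
    (⟪q L R x, x⟫_ℂ).re ≤ C * ‖x‖ ^ 2

/-- `so(n)` acts trivially on the subspace `H0`. -/
def TrivOn (L : Fin n → Fin n → Module.End ℂ H) (H0 : Submodule ℂ H) : Prop :=
  ∀ x ∈ H0, ∀ i j, L i j x = 0

/-- `H1` is a sum of copies of the vector representation `ℂ^n`: it is the orthogonal sum of the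
images of isometric maps `u 1, ..., u n` of a space `K`, and `L i j` maps `u j x` to `u i x`,
`u i x` to `- u j x` and `u k x` to `0` for `k ≠ i, j` (and `i ≠ j`). -/
def VecOn (L : Fin n → Fin n → Module.End ℂ H) (H1 : Submodule ℂ H) : Prop :=
  ∃ (K : Submodule ℂ H) (u : Fin n → K →ₗ[ℂ] H),
    (∀ i, ∀ x y : K, ⟪u i x, u i y⟫_ℂ = ⟪(x : H), (y : H)⟫_ℂ) ∧
    (∀ i j, i ≠ j → ∀ x y : K, ⟪u i x, u j y⟫_ℂ = 0) ∧
    (⨆ i, LinearMap.range (u i)) = H1 ∧
    (∀ i j k, ∀ x : K, L i j (u k x) = (if j = k then u i x else 0) - (if i = k then u j x else 0))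

/-- Spin type: `H2` is invariant and on it the operators `2 L i j` satisfy the relations of the
products `e_i e_j`, `i ≠ j`, in the even Clifford algebra (with `e_i ^ 2 = 1`). -/
def SpinOn (L : Fin n → Fin n → Module.End ℂ H) (H2 : Submodule ℂ H) : Prop :=
  (∀ x ∈ H2, ∀ i j, L i j x ∈ H2) ∧
  (∀ x ∈ H2, ∀ i j, i ≠ j → L i j (L i j x) = -((1 / 4 : ℂ) • x)) ∧
  (∀ x ∈ H2, ∀ i j k, i ≠ j → j ≠ k → i ≠ k → L i j (L j k x) = (1 / 2 : ℂ) • L i k x)

/-- `H` is the orthogonal sum of a trivial part, a vector part and a spin part. -/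
structure Decomp (L : Fin n → Fin n → Module.End ℂ H) (H0 H1 H2 : Submodule ℂ H) : Prop where
  top : H0 ⊔ H1 ⊔ H2 = ⊤
  o01 : ∀ x ∈ H0, ∀ y ∈ H1, ⟪x, y⟫_ℂ = 0
  o02 : ∀ x ∈ H0, ∀ y ∈ H2, ⟪x, y⟫_ℂ = 0
  o12 : ∀ x ∈ H1, ∀ y ∈ H2, ⟪x, y⟫_ℂ = 0
  triv : TrivOn L H0
  vec : VecOn L H1
  spin : SpinOn L H2

end Pool.Agent.Hhelper14.EW
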