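import Pool.Agent.Hhelper14.EW.Defs

set_option autoImplicit false

/-!
# Definitions: twisted spinor bundles
-/

namespace Pool.Agent.Hhelper14.EW

open scoped InnerProductSpace

variable {n : ℕ} {H : Type*} [NormedAddCommGroup H] [InnerProductSpace ℂ H]

/-- The fibre of a natural twisted spinor bundle `S ⊗ E`, where `S` is a (half) spinor bundle or a
sum of such: `τ` is the action of `so(n)` on the factor `S` alone, of spin type, so that
`- 2 τ_ij` is the Clifford product `γ_i γ_j` (`γ_i ^ 2 = - 1`) for `i ≠ j`; `L` is the unitary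
representation of `so(n)` on the whole of `S ⊗ E`; and `L - τ`, the action on `E`, commutes with
`τ`. -/
structure IsTwisted (τ L : Fin n → Fin n → Module.End ℂ H) : Prop where
  spin : IsRep τ
  cliff : SpinOn τ ⊤
  rep : IsRep L
  comm : ∀ i j k l, (L i j - τ i j) * τ k l = τ k l * (L i j - τ i j)

/-- The zero order term `K` in the Weitzenböck formula `D* D = ∇* ∇ + K` for the Dirac operator
`D = ∑ γ_i ∇_i` on the bundle: the curvature of the bundle is `R^H_ij = 1/2 ∑ R_ijkl L_kl`, and
`K = 1/2 ∑ γ_i γ_j R^H_ij = - 1/2 ∑ R_ijkl τ_ij L_kl`. -/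
noncomputable def twK (τ L : Fin n → Fin n → Module.End ℂ H) (R : Tens n) : Module.End ℂ H :=
  (-(1 / 2) : ℂ) • ∑ i, ∑ j, ∑ k, ∑ l, ((R i j k l : ℝ) : ℂ) • (τ i j * L k l)

end Pool.Agent.Hhelper14.EW
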