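import Pool.Agent.Hhelper14.EW.Bil
import Pool.Agent.Hhelper14.EW.DefsB

set_option autoImplicit false
set_option linter.unusedSectionVars false

/-!
# Twisted spinor bundles
-/

namespace Pool.Agent.Hhelper14.EW

open scoped ComplexConjugate InnerProductSpace

variable {n : ℕ} {H : Type*} [NormedAddCommGroup H] [InnerProductSpace ℂ H]
  {τ L : Fin n → Fin n → Module.End ℂ H}

/-- the twisting representation -/
def tw (τ L : Fin n → Fin n → Module.End ℂ H) (i j : Fin n) : Module.End ℂ H := L i j - τ i j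

theorem tw_anti (h : IsTwisted τ L) (i j : Fin n) : tw τ L i j = - tw τ L j i := by
  unfold tw; rw [h.rep.anti i j, h.spin.anti i j]; abel

theorem tw_tau (h : IsTwisted τ L) (i j k l : Fin n) :
    tw τ L i j * τ k l = τ k l * tw τ L i j := h.comm i j k l

theorem tw_tw (h : IsTwisted τ L) {i j k : Fin n} (hij : i ≠ j) (hjk : j ≠ k) (hik : i ≠ k) :
    tw τ L i j * tw τ L j k - tw τ L j k * tw τ L i j = tw τ L i k := by
  have h1 := h.rep.comm i j j k
  have h2 := h.spin.comm i j j k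
  have h3 := tw_tau h i j j k
  have h4 := tw_tau h j k i j
  simp only [if_true, if_neg hij, if_neg hjk, if_neg hik, sub_zero, add_zero] at h1 h2
  have hL : ∀ a b, L a b = tw τ L a b + τ a b := by
    intro a b; unfold tw; abel
  rw [hL i j, hL j k, hL i k] at h1
  have e : tw τ L i j * tw τ L j k - tw τ L j k * tw τ L i j
      = ((tw τ L i j + τ i j) * (tw τ L j k + τ j k)
        - (tw τ L j k + τ j k) * (tw τ L i j + τ i j))
        - (τ i j * τ j k - τ j k * τ i j)
        - (tw τ L i j * τ j k - τ j k * tw τ L i j)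
        + (tw τ L j k * τ i j - τ i j * tw τ L j k) := by noncomm_ring
  rw [e, h1, h2, h3, h4]; abel

theorem tw_skew (h : IsTwisted τ L) (i j : Fin n) (x y : H) :
    ⟪tw τ L i j x, y⟫_ℂ = - ⟪x, tw τ L i j y⟫_ℂ := by
  unfold tw
  rw [LinearMap.sub_apply, LinearMap.sub_apply, inner_sub_left, inner_sub_right, h.rep.skew,
    h.spin.skew]
  ring

theorem twK_eq (R : Tens n) : twK τ L R = (-(1 / 2) : ℂ) • op2 τ L R := rfl

theorem op2_split (R : Tens n) : op2 τ L R = op2 τ (tw τ L) R + opr τ R := by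
  rw [← op2_self]
  unfold op2
  simp only [← Finset.sum_add_distrib]
  refine Finset.sum_congr rfl fun i _ => Finset.sum_congr rfl fun j _ => ?_
  refine Finset.sum_congr rfl fun k _ => Finset.sum_congr rfl fun l _ => ?_
  rw [← smul_add, ← mul_add]
  congr 2
  unfold tw; abel

theorem opr_tau (h : IsTwisted τ L) {lam : ℝ} {R : Tens n} (hR : IsCurv R)
    (hE : IsEinstein lam R) : opr τ R = ((-(n * lam / 2) : ℝ) : ℂ) • 1 := by
  ext x
  have := q_spin h.spin h.cliff hR hE (x := x) trivial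
  unfold q at this
  rw [LinearMap.smul_apply] at this
  have e : opr τ R x = (-4 : ℂ) • ((-(1 / 4) : ℂ) • opr τ R x) := by
    rw [smul_smul]; norm_num
  rw [e, this, smul_smul, LinearMap.smul_apply, Module.End.one_apply]
  congr 1
  push_cast; ring

theorem op2_tw_symm (h : IsTwisted τ L) (R : Tens n) (x y : H) :
    ⟪op2 τ (tw τ L) R x, y⟫_ℂ = ⟪x, op2 τ (tw τ L) R y⟫_ℂ := by
  unfold op2
  simp only [LinearMap.sum_apply, LinearMap.smul_apply, sum_inner, inner_sum, inner_smul_left,
    inner_smul_right, Complex.conj_ofReal]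
  refine Finset.sum_congr rfl fun i _ => Finset.sum_congr rfl fun j _ => ?_
  refine Finset.sum_congr rfl fun k _ => Finset.sum_congr rfl fun l _ => ?_
  congr 1
  rw [Module.End.mul_apply, h.spin.skew, tw_skew h, neg_neg, ← Module.End.mul_apply, tw_tau h]

theorem op_eq_of_app {a b : Module.End ℂ H} (h : ∀ x, a x = b x) : a = b := LinearMap.ext h

theorem tau_sq (h : IsTwisted τ L) {i j : Fin n} (hij : i ≠ j) :
    τ i j * τ i j = (-(1 / 4) : ℂ) • 1 := by
  refine op_eq_of_app fun x => ?_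
  rw [Module.End.mul_apply, h.cliff.2.1 x trivial i j hij, LinearMap.smul_apply,
    Module.End.one_apply, neg_smul]

theorem tau_mul (h : IsTwisted τ L) {i j k : Fin n} (hij : i ≠ j) (hjk : j ≠ k) (hik : i ≠ k) :
    τ i j * τ j k = (1 / 2 : ℂ) • τ i k := by
  refine op_eq_of_app fun x => ?_
  rw [Module.End.mul_apply, h.cliff.2.2 x trivial i j k hij hjk hik, LinearMap.smul_apply]

theorem tw_zero (hn : 5 ≤ n) (h : IsTwisted τ L)
    (hW : ∀ W : Tens n, IsCurv W → (∀ j l, ric W j l = 0) → op2 τ (tw τ L) W = 0)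
    {i j : Fin n} (hij : i ≠ j) : tw τ L i j = 0 := by
  have key : ∀ {p q r s : Fin n}, p ≠ q → p ≠ r → p ≠ s → q ≠ r → q ≠ s → r ≠ s →
      ∀ c : ℂ, c * c = -1 →
      tw τ L p r - tw τ L q s + c • (tw τ L p s + tw τ L q r) = 0 := by
    intro p q r s hpq hpr hps hqr hqs hrs c hc
    have e := iso4 h.spin.anti (tw_anti h) hW hpq hpr hps hqr hqs hrs hc
    set X := tw τ L p r - tw τ L q s + c • (tw τ L p s + tw τ L q r) with hX
    have hXc : ∀ k l, X * τ k l = τ k l * X := by
      intro k l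
      rw [hX]
      simp only [add_mul, sub_mul, mul_add, mul_sub, smul_mul_assoc, mul_smul_comm, tw_tau h]
    set P := τ p r - τ q s + c • (τ p s + τ q r) with hP
    obtain ⟨m, m1, m2, m3, m4⟩ := avoid4 hn p q r s
    have e2 : τ p m * P - P * τ p m = -(τ m r + c • τ m s) := by
      have c1 := h.spin.comm p m p r
      have c2 := h.spin.comm p m q s
      have c3 := h.spin.comm p m p s
      have c4 := h.spin.comm p m q r
      simp only [if_true, if_neg m1, if_neg m2, if_neg m3, if_neg m4, if_neg hpq, if_neg hpr,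
        if_neg hps, sub_zero, add_zero, zero_sub] at c1 c2 c3 c4
      have : τ p m * P - P * τ p m = (τ p m * τ p r - τ p r * τ p m)
          - (τ p m * τ q s - τ q s * τ p m)
          + c • ((τ p m * τ p s - τ p s * τ p m) + (τ p m * τ q r - τ q r * τ p m)) := by
        rw [hP]
        simp only [mul_add, add_mul, mul_sub, sub_mul, mul_smul_comm, smul_mul_assoc]
        module
      rw [this, c1, c2, c3, c4]
      module
    have e3 : (τ m r + c • τ m s) * X = 0 := by
      have h1 : (τ p m * P - P * τ p m) * X = 0 := by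
        rw [sub_mul, mul_assoc, e, mul_zero, mul_assoc, ← hXc, ← mul_assoc, e, zero_mul,
          sub_zero]
      rw [e2, neg_mul, neg_eq_zero] at h1
      exact h1
    have e4 : (τ m r * (τ m r + c • τ m s) + (τ m r + c • τ m s) * τ m r) * X = 0 := by
      rw [add_mul, mul_assoc, e3, mul_zero, mul_assoc, ← hXc, ← mul_assoc, e3, zero_mul, add_zero]
    have e5 : τ m r * (τ m r + c • τ m s) + (τ m r + c • τ m s) * τ m r = (-(1 / 2) : ℂ) • 1 := by
      have h1 := tau_sq h m3
      have h2 : τ m r * τ m s = (-(1 / 2) : ℂ) • τ r s := by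
        rw [h.spin.anti m r, neg_mul, tau_mul h (Ne.symm m3) m4 hrs]
        module
      have h3 : τ m s * τ m r = (1 / 2 : ℂ) • τ r s := by
        rw [h.spin.anti m s, neg_mul, tau_mul h (Ne.symm m4) m3 (Ne.symm hrs), h.spin.anti s r]
        module
      have : τ m r * (τ m r + c • τ m s) + (τ m r + c • τ m s) * τ m r
          = (τ m r * τ m r + τ m r * τ m r) + c • (τ m r * τ m s + τ m s * τ m r) := by
        simp only [mul_add, add_mul, mul_smul_comm, smul_mul_assoc]
        module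
      rw [this, h1, h2, h3]
      module
    rw [e5, smul_mul_assoc, one_mul] at e4
    rcases smul_eq_zero.mp e4 with h1 | h1
    · norm_num at h1
    · exact h1
  have key2 : ∀ {p q r s : Fin n}, p ≠ q → p ≠ r → p ≠ s → q ≠ r → q ≠ s → r ≠ s →
      tw τ L p r = tw τ L q s := by
    intro p q r s hpq hpr hps hqr hqs hrs
    have e1 := key hpq hpr hps hqr hqs hrs Complex.I Complex.I_mul_I
    have e2 := key hpq hpr hps hqr hqs hrs (-Complex.I) (by rw [neg_mul_neg, Complex.I_mul_I])
    have : (2 : ℂ) • (tw τ L p r - tw τ L q s) = 0 := by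
      have h3 : (2 : ℂ) • (tw τ L p r - tw τ L q s)
          = (tw τ L p r - tw τ L q s + Complex.I • (tw τ L p s + tw τ L q r))
          + (tw τ L p r - tw τ L q s + (-Complex.I) • (tw τ L p s + tw τ L q r)) := by module
      rw [h3, e1, e2, add_zero]
    rcases smul_eq_zero.mp this with h1 | h1
    · norm_num at h1
    · exact sub_eq_zero.mp h1
  obtain ⟨a, a1, a2⟩ := avoid2 hn i j
  obtain ⟨b, b1, b2, b3⟩ := avoid3 hn i j a
  obtain ⟨c, c1, c2, c3, c4⟩ := avoid4 hn i j a b
  have f1 : tw τ L a i = tw τ L b c :=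
    key2 (Ne.symm b3) a1 (Ne.symm c3) b1 (Ne.symm c4) (Ne.symm c1)
  have f2 : tw τ L a j = tw τ L b c :=
    key2 (Ne.symm b3) a2 (Ne.symm c3) b2 (Ne.symm c4) (Ne.symm c2)
  have f3 : tw τ L i a = - tw τ L a j := by rw [tw_anti h i a, f1, f2]
  have e := tw_tw h (Ne.symm a1) a2 hij
  rw [← e, f3]
  noncomm_ring

theorem twK_lin (R W : Tens n) (t : ℝ) :
    twK τ L (R + t • W) = twK τ L R + (t : ℂ) • twK τ L W := by
  rw [twK_eq, twK_eq, twK_eq, op2_add, op2_smul, smul_add, smul_comm]

theorem twisted_main (hn : 5 ≤ n) (h : IsTwisted τ L) (lam : ℝ) :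
    [(∃ C : ℝ, ∀ R : Tens n, IsCurv R → IsEinstein lam R → ∀ x : H,
        C * ‖x‖ ^ 2 ≤ (⟪twK τ L R x, x⟫_ℂ).re),
      (∃ C : ℝ, ∀ R : Tens n, IsCurv R → IsEinstein lam R → ∀ x : H,
        (⟪twK τ L R x, x⟫_ℂ).re ≤ C * ‖x‖ ^ 2),
      L = τ ∧ ∀ R : Tens n, IsCurv R → IsEinstein lam R →
          twK τ L R = ((n * lam / 4 : ℝ) : ℂ) • 1].TFAE := by
  have hz : ∀ W : Tens n, IsCurv W → (∀ j l, ric W j l = 0) →
      twK τ L W = (-(1 / 2) : ℂ) • op2 τ (tw τ L) W := by
    intro W hW hr
    rw [twK_eq, op2_split, opr_tau h hW (lam := 0) (fun j l => by rw [hr]; simp)]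
    simp
  have main : ((∃ C : ℝ, ∀ R : Tens n, IsCurv R → IsEinstein lam R → ∀ x : H,
        C * ‖x‖ ^ 2 ≤ (⟪twK τ L R x, x⟫_ℂ).re) ∨
      (∃ C : ℝ, ∀ R : Tens n, IsCurv R → IsEinstein lam R → ∀ x : H,
        (⟪twK τ L R x, x⟫_ℂ).re ≤ C * ‖x‖ ^ 2)) → L = τ := by
    intro hb
    funext i j
    by_cases hij : i = j
    · subst hij
      rw [L_diag h.rep, L_diag h.spin]
    have hW : ∀ W : Tens n, IsCurv W → (∀ j l, ric W j l = 0) →
        op2 τ (tw τ L) W = 0 := by
      intro W hW hr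
      have e := weyl_vanish hn (T := twK τ L) twK_lin hW hr (fun x y => by
        rw [hz W hW hr, LinearMap.smul_apply, LinearMap.smul_apply, inner_smul_left,
          inner_smul_right, op2_tw_symm h]
        congr 1
        rw [show (-(1 / 2) : ℂ) = ((-(1/2) : ℝ) : ℂ) by push_cast; ring, Complex.conj_ofReal]) hb
      rw [hz W hW hr] at e
      rcases smul_eq_zero.mp e with h1 | h1
      · norm_num at h1
      · exact h1
    have := tw_zero hn h hW hij
    unfold tw at this
    exact sub_eq_zero.mp this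
  have back : L = τ → ∀ R : Tens n, IsCurv R → IsEinstein lam R →
          twK τ L R = ((n * lam / 4 : ℝ) : ℂ) • 1 := by
    intro hL R hR hE
    rw [twK_eq, hL, op2_self, opr_tau h hR hE, smul_smul]
    congr 1
    push_cast; ring
  have key : ∀ R : Tens n, twK τ L R = ((n * lam / 4 : ℝ) : ℂ) • 1 → ∀ x : H,
      (⟪twK τ L R x, x⟫_ℂ).re = (n * lam / 4) * ‖x‖ ^ 2 := by
    intro R hR x
    rw [hR, LinearMap.smul_apply, Module.End.one_apply, inner_smul_left, Complex.conj_ofReal,
      Complex.re_ofReal_mul, inner_self_eq_norm_sq_to_K]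
    norm_cast
  tfae_have 1 → 3 := fun hb => ⟨main (Or.inl hb), back (main (Or.inl hb))⟩
  tfae_have 2 → 3 := fun hb => ⟨main (Or.inr hb), back (main (Or.inr hb))⟩
  tfae_have 3 → 1 := by
    rintro ⟨_, h2⟩
    exact ⟨n * lam / 4, fun R hR hE x => (key R (h2 R hR hE) x).ge⟩
  tfae_have 3 → 2 := by
    rintro ⟨_, h2⟩
    exact ⟨n * lam / 4, fun R hR hE x => (key R (h2 R hR hE) x).le⟩
  tfae_finish

end Pool.Agent.Hhelper14.EW
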