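import Pool.Agent.Hhelper14.EW.Alg2
import Pool.Agent.Hhelper14.EW.Defs

set_option autoImplicit false
set_option linter.unusedSectionVars false

/-!
# Algebraic curvature tensors, squares of 2-vectors, the Weyl test tensors
-/

namespace Pool.Agent.Hhelper14.EW

open scoped ComplexConjugate InnerProductSpace

variable {n : ℕ}

/-- the tensor `(x ∧ y) ⊗ (x ∧ y)` -/
def sqt (x y : Fin n → ℝ) : Tens n := fun i j k l => (x i * y j - x j * y i) * (x k * y l - x l * y k)

theorem isCurv_sqt (x y : Fin n → ℝ) : IsCurv (sqt x y) where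
  anti₁ i j k l := by unfold sqt; ring
  anti₂ i j k l := by unfold sqt; ring
  bianchi i j k l := by unfold sqt; ring

theorem IsCurv.add {R T : Tens n} (hR : IsCurv R) (hT : IsCurv T) : IsCurv (R + T) where
  anti₁ i j k l := by
    simp only [Pi.add_apply]; rw [hR.anti₁ i j k l, hT.anti₁ i j k l]; ring
  anti₂ i j k l := by
    simp only [Pi.add_apply]; rw [hR.anti₂ i j k l, hT.anti₂ i j k l]; ring
  bianchi i j k l := by
    simp only [Pi.add_apply]; linarith [hR.bianchi i j k l, hT.bianchi i j k l]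

theorem IsCurv.smul {R : Tens n} (c : ℝ) (hR : IsCurv R) : IsCurv (c • R) where
  anti₁ i j k l := by
    simp only [Pi.smul_apply, smul_eq_mul]; rw [hR.anti₁ i j k l]; ring
  anti₂ i j k l := by
    simp only [Pi.smul_apply, smul_eq_mul]; rw [hR.anti₂ i j k l]; ring
  bianchi i j k l := by
    simp only [Pi.smul_apply, smul_eq_mul]
    have := hR.bianchi i j k l
    linear_combination c * this

theorem ric_add (R T : Tens n) (j l : Fin n) : ric (R + T) j l = ric R j l + ric T j l := by
  unfold ric; simp only [Pi.add_apply, Finset.sum_add_distrib]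

theorem ric_smul (c : ℝ) (R : Tens n) (j l : Fin n) : ric (c • R) j l = c * ric R j l := by
  unfold ric; simp only [Pi.smul_apply, smul_eq_mul, Finset.mul_sum]

theorem ric_sqt (x y : Fin n → ℝ) (j l : Fin n) :
    ric (sqt x y) j l = (∑ i, x i * x i) * (y j * y l) - (∑ i, x i * y i) * (x l * y j + x j * y l)
      + (∑ i, y i * y i) * (x j * x l) := by
  unfold ric sqt
  rw [Finset.sum_mul, Finset.sum_mul, Finset.sum_mul, ← Finset.sum_sub_distrib,
    ← Finset.sum_add_distrib]
  refine Finset.sum_congr rfl fun i _ => ?_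
  ring

/-- basis vector -/
def bas (i : Fin n) : Fin n → ℝ := Pi.single i 1

theorem dot_bas (i j : Fin n) : ∑ k, bas i k * bas j k = if i = j then (1 : ℝ) else 0 := by
  unfold bas
  by_cases h : i = j
  · subst h
    rw [if_pos rfl, Finset.sum_eq_single i]
    · simp
    · intro b _ hb; simp [hb]
    · simp
  · rw [if_neg h]
    refine Finset.sum_eq_zero fun k _ => ?_
    by_cases hk : k = i
    · subst hk; simp [h]
    · simp [hk]

/-! ### operators -/

section op

variable {A : Type*} [Ring A] [Algebra ℂ A]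

/-- `L(x, y) = ∑ x_i y_j L_ij` -/
noncomputable def Lv (L : Fin n → Fin n → A) (x y : Fin n → ℝ) : A :=
  ∑ i, ∑ j, ((x i * y j : ℝ) : ℂ) • L i j

theorem opr_add (L : Fin n → Fin n → A) (R T : Tens n) : opr L (R + T) = opr L R + opr L T := by
  unfold opr
  simp only [Pi.add_apply, Complex.ofReal_add, add_smul, Finset.sum_add_distrib]

theorem opr_smul (L : Fin n → Fin n → A) (c : ℝ) (R : Tens n) :
    opr L (c • R) = (c : ℂ) • opr L R := by
  unfold opr
  simp only [Pi.smul_apply, smul_eq_mul, Complex.ofReal_mul, mul_smul, Finset.smul_sum]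

theorem Lv_add_left (L : Fin n → Fin n → A) (x x' y : Fin n → ℝ) :
    Lv L (x + x') y = Lv L x y + Lv L x' y := by
  unfold Lv
  simp only [Pi.add_apply, add_mul, Complex.ofReal_add, add_smul, Finset.sum_add_distrib]

theorem Lv_add_right (L : Fin n → Fin n → A) (x y y' : Fin n → ℝ) :
    Lv L x (y + y') = Lv L x y + Lv L x y' := by
  unfold Lv
  simp only [Pi.add_apply, mul_add, Complex.ofReal_add, add_smul, Finset.sum_add_distrib]

theorem Lv_neg_left (L : Fin n → Fin n → A) (x y : Fin n → ℝ) : Lv L (-x) y = - Lv L x y := by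
  unfold Lv
  simp only [Pi.neg_apply, neg_mul, Complex.ofReal_neg, neg_smul, Finset.sum_neg_distrib]

theorem Lv_neg_right (L : Fin n → Fin n → A) (x y : Fin n → ℝ) : Lv L x (-y) = - Lv L x y := by
  unfold Lv
  simp only [Pi.neg_apply, mul_neg, Complex.ofReal_neg, neg_smul, Finset.sum_neg_distrib]

theorem Lv_bas (L : Fin n → Fin n → A) (i j : Fin n) : Lv L (bas i) (bas j) = L i j := by
  unfold Lv bas
  rw [Finset.sum_eq_single i, Finset.sum_eq_single j]
  · simp
  · intro b _ hb; simp [hb]
  · simp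
  · intro b _ hb; simp [hb]
  · simp

theorem Lv_swap {L : Fin n → Fin n → A} (hL : ∀ i j, L i j = - L j i) (x y : Fin n → ℝ) :
    ∑ i, ∑ j, ((x j * y i : ℝ) : ℂ) • L i j = - Lv L x y := by
  unfold Lv
  rw [Finset.sum_comm, ← Finset.sum_neg_distrib]
  refine Finset.sum_congr rfl fun j _ => ?_
  rw [← Finset.sum_neg_distrib]
  refine Finset.sum_congr rfl fun i _ => ?_
  rw [hL i j, smul_neg]

theorem opr_sqt {L : Fin n → Fin n → A} (hL : ∀ i j, L i j = - L j i) (x y : Fin n → ℝ) :
    opr L (sqt x y) = (4 : ℂ) • (Lv L x y * Lv L x y) := by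
  have h2 : ∑ i, ∑ j, ((x i * y j - x j * y i : ℝ) : ℂ) • L i j = (2 : ℂ) • Lv L x y := by
    simp only [Complex.ofReal_sub, sub_smul, Finset.sum_sub_distrib]
    rw [Lv_swap hL, sub_neg_eq_add, two_smul]
    rfl
  have h3 : opr L (sqt x y)
      = (∑ i, ∑ j, ((x i * y j - x j * y i : ℝ) : ℂ) • L i j)
        * (∑ k, ∑ l, ((x k * y l - x l * y k : ℝ) : ℂ) • L k l) := by
    unfold opr sqt
    rw [Finset.sum_mul]
    refine Finset.sum_congr rfl fun i _ => ?_
    rw [Finset.sum_mul]
    refine Finset.sum_congr rfl fun j _ => ?_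
    rw [Finset.mul_sum]
    refine Finset.sum_congr rfl fun k _ => ?_
    rw [Finset.mul_sum]
    refine Finset.sum_congr rfl fun l _ => ?_
    rw [smul_mul_smul_comm, ← Complex.ofReal_mul]
  rw [h3, h2, smul_mul_smul_comm]
  norm_num

end op

end Pool.Agent.Hhelper14.EW
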