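import Pool.Agent.Hhelper14.EW.Spin

set_option autoImplicit false
set_option linter.unusedSectionVars false

/-!
# The decomposition and its converse
-/

namespace Pool.Agent.Hhelper14.EW

open scoped ComplexConjugate InnerProductSpace

variable {n : ℕ} {H : Type*} [NormedAddCommGroup H] [InnerProductSpace ℂ H]
  {L : Fin n → Fin n → Module.End ℂ H}

/-- the maps `u i` on the vectors of type `e_a` -/
noncomputable def uu (L : Fin n → Fin n → Module.End ℂ H) (a i : Fin n) : U L a →ₗ[ℂ] H :=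
  if i = a then (U L a).subtype else (L i a).comp (U L a).subtype

theorem uu_self (a : Fin n) (x : U L a) : uu L a a x = x := by
  unfold uu; rw [if_pos rfl]; rfl

theorem uu_ne {a i : Fin n} (h : i ≠ a) (x : U L a) : uu L a i x = L i a x := by
  unfold uu; rw [if_neg h]; rfl

theorem LL_back (h : IsRep L) {i j : Fin n} {u : H} (hu : u ∈ U L i) (hj : j ≠ i) :
    L i j (L j i u) = u := by
  have := hu.2 j hj
  rw [h.anti j i, LinearMap.neg_apply, map_neg, this, neg_neg]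

theorem LL_back' (h : IsRep L) {i j : Fin n} {u : H} (hu : u ∈ U L i) (hj : j ≠ i) :
    L j i (L j i u) = -u := by
  have := hu.2 j hj
  rw [h.anti j i, LinearMap.neg_apply, LinearMap.neg_apply, map_neg, this, neg_neg]

theorem uu_mem (hn : 5 ≤ n) (h : IsRep L) (hr : Rel L) (a i : Fin n) (x : U L a) :
    uu L a i x ∈ U L i := by
  by_cases hi : i = a
  · subst hi; rw [uu_self]; exact x.2
  · rw [uu_ne hi]; exact LU hn h hr x.2 (Ne.symm hi)

theorem uu_range (hn : 5 ≤ n) (h : IsRep L) (hr : Rel L) (a i : Fin n) :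
    LinearMap.range (uu L a i) = U L i := by
  apply le_antisymm
  · rintro _ ⟨x, rfl⟩
    exact uu_mem hn h hr a i x
  · intro v hv
    by_cases hi : i = a
    · subst hi
      exact ⟨⟨v, hv⟩, uu_self i _⟩
    · refine ⟨⟨L a i v, LU hn h hr hv hi⟩, ?_⟩
      rw [uu_ne hi]
      exact LL_back h hv (Ne.symm hi)

theorem uu_act (hn : 5 ≤ n) (h : IsRep L) (hr : Rel L) (a : Fin n) {i j : Fin n} (hij : i ≠ j)
    (x : U L a) : L i j (uu L a j x) = uu L a i x := by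
  by_cases hj : j = a
  · subst hj
    rw [uu_self, uu_ne hij]
  · by_cases hi : i = a
    · subst hi
      rw [uu_self, uu_ne hj]
      exact LL_back h x.2 hj
    · rw [uu_ne hj, uu_ne hi]
      exact F4 hn hr x.2 (Ne.symm hi) (Ne.symm hj) hij

theorem vecOn_HV (hn : 5 ≤ n) (h : IsRep L) (hr : Rel L) : VecOn L (HV L) := by
  set a : Fin n := ⟨0, by omega⟩
  refine ⟨U L a, uu L a, ?_, ?_, ?_, ?_⟩
  · intro i x y
    by_cases hi : i = a
    · subst hi; rw [uu_self, uu_self]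
    · rw [uu_ne hi, uu_ne hi, h.skew, LL_back' h y.2 hi, inner_neg_right, neg_neg]
  · intro i j hij x y
    exact U_orth hn h hij (uu_mem hn h hr a i x) (uu_mem hn h hr a j y)
  · unfold HV
    exact iSup_congr fun i => uu_range hn h hr a i
  · intro i j k x
    by_cases hij : i = j
    · subst hij
      rw [L_diag h]
      simp
    by_cases hjk : j = k
    · subst hjk
      rw [if_pos rfl, if_neg hij, sub_zero]
      exact uu_act hn h hr a hij x
    · by_cases hik : i = k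
      · subst hik
        rw [if_neg hjk, if_pos rfl, zero_sub, h.anti i j, LinearMap.neg_apply,
          uu_act hn h hr a (Ne.symm hij)]
      · rw [if_neg hjk, if_neg hik, sub_zero]
        exact (uu_mem hn h hr a k x).1 i j hik hjk

theorem exists_decomp [FiniteDimensional ℂ H] (hn : 5 ≤ n) (h : IsRep L) (hr : Rel L) :
    ∃ H0 H1 H2 : Submodule ℂ H, Decomp L H0 H1 H2 := by
  set e : Fin n := ⟨0, by omega⟩
  refine ⟨HT L e, HV L, HS L e, ?_, ?_, ?_, ?_, ?_, ?_, ?_⟩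
  · rw [eq_top_iff]
    have h1 : HV L ⊔ (HV L)ᗮ = ⊤ := Submodule.sup_orthogonal_of_hasOrthogonalProjection
    rw [← h1]
    refine sup_le ?_ ?_
    · exact le_sup_of_le_left le_sup_right
    · intro x hx
      have := split_orth hn h hr e hx
      exact (sup_le (le_sup_of_le_left le_sup_left) le_sup_right :
        HT L e ⊔ HS L e ≤ HT L e ⊔ HV L ⊔ HS L e) this
  · intro x hx y hy
    have := (mem_HT.mp hx).1
    rw [Submodule.mem_orthogonal'] at this
    exact this y hy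
  · intro x hx y hy
    exact HT_HS_orth hn h hr hx hy
  · intro x hx y hy
    have := (mem_HS.mp hy).1
    rw [Submodule.mem_orthogonal] at this
    exact this x hx
  · intro x hx i j
    exact HT_trivial hn h hr hx i j
  · exact vecOn_HV hn h hr
  · exact ⟨fun x hx i j => HS_inv hn h hr hx i j, fun x hx i j hij => HS_sq hn h hr hx hij,
      fun x hx i j k hij hjk hik => HS_prod hn h hr hx hij hjk hik⟩

theorem Decomp.split {H0 H1 H2 : Submodule ℂ H} (hd : Decomp L H0 H1 H2) (x : H) :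
    ∃ x0 ∈ H0, ∃ x1 ∈ H1, ∃ x2 ∈ H2, x = x0 + x1 + x2 := by
  have : x ∈ H0 ⊔ H1 ⊔ H2 := by rw [hd.top]; trivial
  obtain ⟨y, hy, z, hz, rfl⟩ := Submodule.mem_sup.mp this
  obtain ⟨a, ha, b, hb, rfl⟩ := Submodule.mem_sup.mp hy
  exact ⟨a, ha, b, hb, z, hz, rfl⟩

theorem Decomp.re_q {H0 H1 H2 : Submodule ℂ H} (hd : Decomp L H0 H1 H2) (h : IsRep L) {lam : ℝ}
    {R : Tens n} (hR : IsCurv R) (hE : IsEinstein lam R) {x0 x1 x2 : H} (h0 : x0 ∈ H0)
    (h1 : x1 ∈ H1) (h2 : x2 ∈ H2) :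
    (⟪q L R (x0 + x1 + x2), x0 + x1 + x2⟫_ℂ).re = lam * ‖x1‖ ^ 2 + n * lam / 8 * ‖x2‖ ^ 2 := by
  have o10 : ⟪x1, x0⟫_ℂ = 0 := by
    rw [← inner_conj_symm, hd.o01 x0 h0 x1 h1, map_zero]
  have o20 : ⟪x2, x0⟫_ℂ = 0 := by
    rw [← inner_conj_symm, hd.o02 x0 h0 x2 h2, map_zero]
  have o21 : ⟪x2, x1⟫_ℂ = 0 := by
    rw [← inner_conj_symm, hd.o12 x1 h1 x2 h2, map_zero]
  rw [map_add, map_add, q_triv hd.triv R h0, q_vec hd.vec hR hE h1, q_spin h hd.spin hR hE h2]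
  simp only [zero_add, inner_add_left, inner_add_right, inner_smul_left, o10, o20, o21,
    hd.o12 x1 h1 x2 h2, Complex.conj_ofReal, mul_zero, add_zero]
  rw [inner_self_eq_norm_sq_to_K, inner_self_eq_norm_sq_to_K, Complex.add_re,
    Complex.re_ofReal_mul, Complex.re_ofReal_mul]
  norm_cast

theorem Decomp.norm_sq {H0 H1 H2 : Submodule ℂ H} (hd : Decomp L H0 H1 H2) {x0 x1 x2 : H}
    (h0 : x0 ∈ H0) (h1 : x1 ∈ H1) (h2 : x2 ∈ H2) :
    ‖x0 + x1 + x2‖ ^ 2 = ‖x0‖ ^ 2 + ‖x1‖ ^ 2 + ‖x2‖ ^ 2 := by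
  have e1 : ⟪x0 + x1, x2⟫_ℂ = 0 := by
    rw [inner_add_left, hd.o02 x0 h0 x2 h2, hd.o12 x1 h1 x2 h2, add_zero]
  have e2 := norm_add_sq_eq_norm_sq_add_norm_sq_of_inner_eq_zero _ _ e1
  have e3 := norm_add_sq_eq_norm_sq_add_norm_sq_of_inner_eq_zero _ _ (hd.o01 x0 h0 x1 h1)
  nlinarith [e2, e3]

theorem Decomp.bdd {H0 H1 H2 : Submodule ℂ H} (hd : Decomp L H0 H1 H2) (h : IsRep L)
    (hn : 5 ≤ n) (lam : ℝ) : BddBelowOn L lam ∧ BddAboveOn L lam := by
  have hn' : (5 : ℝ) ≤ n := by exact_mod_cast hn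
  have key : ∀ R : Tens n, IsCurv R → IsEinstein lam R → ∀ x : H,
      |(⟪q L R x, x⟫_ℂ).re| ≤ (n * |lam|) * ‖x‖ ^ 2 := by
    intro R hR hE x
    obtain ⟨x0, h0, x1, h1, x2, h2, rfl⟩ := hd.split x
    rw [hd.re_q h hR hE h0 h1 h2, hd.norm_sq h0 h1 h2]
    refine (abs_add_le _ _).trans ?_
    rw [abs_mul, abs_mul, abs_div, abs_mul, abs_of_nonneg (sq_nonneg ‖x1‖),
      abs_of_nonneg (sq_nonneg ‖x2‖), abs_of_nonneg (by positivity : (0 : ℝ) ≤ n)]
    rw [abs_of_pos (by norm_num : (0 : ℝ) < 8)]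
    have a1 : 0 ≤ |lam| * ‖x1‖ ^ 2 := by positivity
    have a2 : 0 ≤ n * |lam| * ‖x2‖ ^ 2 := by positivity
    have a3 : 0 ≤ n * |lam| * ‖x0‖ ^ 2 := by positivity
    nlinarith [mul_le_mul_of_nonneg_right hn' a1]
  refine ⟨⟨-(n * |lam|), fun R hR hE x => ?_⟩, ⟨n * |lam|, fun R hR hE x => ?_⟩⟩
  · have := (abs_le.mp (key R hR hE x)).1
    linarith
  · exact (abs_le.mp (key R hR hE x)).2

theorem main_L [FiniteDimensional ℂ H] (hn : 5 ≤ n) (h : IsRep L) (lam : ℝ) :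
    [BddBelowOn L lam, BddAboveOn L lam,
      ∃ H0 H1 H2 : Submodule ℂ H, Decomp L H0 H1 H2 ∧
        ∀ R : Tens n, IsCurv R → IsEinstein lam R → ∀ x0 ∈ H0, ∀ x1 ∈ H1, ∀ x2 ∈ H2,
          q L R (x0 + x1 + x2)
            = (lam : ℂ) • x1 + ((n * lam / 8 : ℝ) : ℂ) • x2].TFAE := by
  have main : (BddBelowOn L lam ∨ BddAboveOn L lam) → ∃ H0 H1 H2 : Submodule ℂ H,
      Decomp L H0 H1 H2 ∧
        ∀ R : Tens n, IsCurv R → IsEinstein lam R → ∀ x0 ∈ H0, ∀ x1 ∈ H1, ∀ x2 ∈ H2,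
          q L R (x0 + x1 + x2)
            = (lam : ℂ) • x1 + ((n * lam / 8 : ℝ) : ℂ) • x2 := by
    intro hb
    have hr : Rel L := rel_of h fun W hW hric => weyl_zero hn h hb hW hric
    obtain ⟨H0, H1, H2, hd⟩ := exists_decomp hn h hr
    refine ⟨H0, H1, H2, hd, ?_⟩
    intro R hR hE x0 h0 x1 h1 x2 h2
    rw [map_add, map_add, q_triv hd.triv R h0, q_vec hd.vec hR hE h1,
      q_spin h hd.spin hR hE h2, zero_add]
  tfae_have 1 → 3 := fun hb => main (Or.inl hb)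
  tfae_have 2 → 3 := fun hb => main (Or.inr hb)
  tfae_have 3 → 1 := by
    rintro ⟨H0, H1, H2, hd, _⟩
    exact (hd.bdd h hn lam).1
  tfae_have 3 → 2 := by
    rintro ⟨H0, H1, H2, hd, _⟩
    exact (hd.bdd h hn lam).2
  tfae_finish

end Pool.Agent.Hhelper14.EW
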