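import Pool.Agent.Hhelper14.EW.Test

set_option autoImplicit false
set_option linter.unusedSectionVars false
set_option linter.unusedSimpArgs false

/-!
# Boundedness on Einstein tensors gives the relations `Rel`
-/

namespace Pool.Agent.Hhelper14.EW

open scoped ComplexConjugate InnerProductSpace

variable {n : ℕ} {H : Type*} [NormedAddCommGroup H] [InnerProductSpace ℂ H]

theorem four_smul_cancel {A : Type*} [Ring A] [Algebra ℂ A] {a : A} (h : (4 : ℂ) • a = 0) :
    a = 0 := by
  rcases smul_eq_zero.mp h with h2 | h2
  · exact absurd h2 (by norm_num)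
  · exact h2

theorem sq_symmR {L : Fin n → Fin n → Module.End ℂ H} (h : IsRep L) (i j : Fin n) :
    L i j * L i j = L j i * L j i := by
  rw [h.anti i j]; noncomm_ring

/-- if `opr` vanishes on Weyl tensors then `Rel` -/
theorem rel_of {L : Fin n → Fin n → Module.End ℂ H} (h : IsRep L)
    (hW : ∀ W : Tens n, IsCurv W → (∀ j l, ric W j l = 0) → opr L W = 0) : Rel L := by
  have hr1 : ∀ i j k l, i ≠ j → i ≠ k → i ≠ l → j ≠ k → j ≠ l → k ≠ l →
    L i j * L i j + L k l * L k l = L i k * L i k + L j l * L j l := by
    intro i j k l hij hik hil hjk hjl hkl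
    have e := hW (sqt (bas i) (bas j) + sqt (bas k) (bas l)
      + (-1 : ℝ) • (sqt (bas i) (bas k) + sqt (bas j) (bas l)))
      (((isCurv_sqt _ _).add (isCurv_sqt _ _)).add
        (((isCurv_sqt _ _).add (isCurv_sqt _ _)).smul _))
      (by
        intro a b
        simp only [ric_add, ric_smul, ric_sqt, dot_bas, if_neg hij, if_neg hik,
          if_neg hjl, if_neg hkl, if_true]
        ring)
    rw [opr_add, opr_add, opr_smul, opr_add, opr_sqt h.anti, opr_sqt h.anti, opr_sqt h.anti,
      opr_sqt h.anti] at e
    simp only [Lv_bas] at e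
    have : (4 : ℂ) • ((L i j * L i j + L k l * L k l) - (L i k * L i k + L j l * L j l)) = 0 := by
      rw [← e]
      simp only [smul_sub, smul_add, Complex.ofReal_neg, Complex.ofReal_one, neg_smul, one_smul,
        neg_add]
      abel
    exact sub_eq_zero.mp (four_smul_cancel this)
  refine ⟨h.anti, ?_, ?_, hr1, ?_, ?_⟩
  · intro i j k hij hjk hik
    have := h.comm i j j k
    rw [this]
    simp [hij, hjk, hik]
  · intro i j k l hik hil hjk hjl
    have := h.comm i j k l
    simp only [if_neg hik, if_neg hil, if_neg hjk, if_neg hjl, sub_zero, add_zero] at this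
    exact sub_eq_zero.mp this
  · intro i j k l hij hik hil hjk hjl hkl
    have e := hW (sqt (bas i + bas k) (bas j) + sqt (bas k + -bas i) (bas l)
      + (-2 : ℝ) • (sqt (bas i) (bas j) + sqt (bas k) (bas l)))
      (((isCurv_sqt _ _).add (isCurv_sqt _ _)).add
        (((isCurv_sqt _ _).add (isCurv_sqt _ _)).smul _))
      (by
        intro a b
        simp only [ric_add, ric_smul, ric_sqt, Pi.add_apply, Pi.neg_apply, add_mul, mul_add,
          neg_mul, mul_neg, neg_neg, Finset.sum_add_distrib, Finset.sum_neg_distrib, dot_bas,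
          if_neg hij, if_neg hik, if_neg hil, if_neg hjl, if_neg hkl,
          if_neg (Ne.symm hik), if_neg (Ne.symm hjk), if_neg (Ne.symm hij), if_true]
        ring)
    rw [opr_add, opr_add, opr_smul, opr_add, opr_sqt h.anti, opr_sqt h.anti, opr_sqt h.anti,
      opr_sqt h.anti] at e
    simp only [Lv_bas, Lv_add_left, Lv_neg_left] at e
    have r := hr1 i j l k hij hil hik hjl hjk (Ne.symm hkl)
    have s1 := sq_symmR h l k
    have s2 := sq_symmR h j k
    have : (4 : ℂ) • ((L i j * L k j + L k j * L i j) - (L i l * L k l + L k l * L i l)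
        + ((L i l * L i l + L k j * L k j) - (L i j * L i j + L k l * L k l))) = 0 := by
      rw [← e]
      simp only [smul_sub, smul_add, Complex.ofReal_neg, Complex.ofReal_ofNat, neg_smul,
        neg_add, add_mul, mul_add, neg_mul, mul_neg, smul_neg, neg_neg, smul_smul]
      module
    have := four_smul_cancel this
    rw [s1, s2] at r
    rw [r, sub_self, add_zero] at this
    exact sub_eq_zero.mp this
  · intro i j k l hij hik hil hjk hjl hkl
    have e := hW (sqt (bas i + bas l) (bas j + bas k) + sqt (-bas j + bas k) (-bas i + bas l)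
      + (-4 : ℝ) • (sqt (bas i) (bas j) + sqt (bas k) (bas l)))
      (((isCurv_sqt _ _).add (isCurv_sqt _ _)).add
        (((isCurv_sqt _ _).add (isCurv_sqt _ _)).smul _))
      (by
        intro a b
        simp only [ric_add, ric_smul, ric_sqt, Pi.add_apply, Pi.neg_apply, add_mul, mul_add,
          neg_mul, mul_neg, neg_neg, Finset.sum_add_distrib, Finset.sum_neg_distrib, dot_bas,
          if_neg hij, if_neg hik, if_neg hil, if_neg hjk, if_neg hjl, if_neg hkl,
          if_neg (Ne.symm hij), if_neg (Ne.symm hik), if_neg (Ne.symm hil),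
          if_neg (Ne.symm hjk), if_neg (Ne.symm hjl), if_neg (Ne.symm hkl), if_true]
        ring)
    rw [opr_add, opr_add, opr_smul, opr_add, opr_sqt h.anti, opr_sqt h.anti, opr_sqt h.anti,
      opr_sqt h.anti] at e
    simp only [Lv_bas, Lv_add_left, Lv_neg_left, Lv_add_right, Lv_neg_right] at e
    have r := hr1 i j k l hij hik hil hjk hjl hkl
    have c1 := h.comm i j k l
    simp only [if_neg hik, if_neg hil, if_neg hjk, if_neg hjl, sub_zero, add_zero] at c1
    have c1 := sub_eq_zero.mp c1
    have c2 := h.comm i k l j
    simp only [if_neg hil, if_neg hij, if_neg hkl, if_neg (Ne.symm hjk), sub_zero, add_zero] at c2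
    have c2 := sub_eq_zero.mp c2
    rw [h.anti j i, h.anti j l, h.anti k i, h.anti l k] at e
    have sjl : L j l * L j l = L l j * L l j := by rw [h.anti j l]; noncomm_ring
    rw [sjl] at r
    -- P = L ik + L lj, Q = L ij - L kl
    have : (4 : ℂ) • ((L i k * L l j - L i j * L k l) + (L l j * L i k - L k l * L i j)
        + ((L i k * L i k + L l j * L l j) - (L i j * L i j + L k l * L k l))) = 0 := by
      have e' : (2 : ℂ) • ((4 : ℂ) • ((L i k * L l j - L i j * L k l)
        + (L l j * L i k - L k l * L i j)
        + ((L i k * L i k + L l j * L l j) - (L i j * L i j + L k l * L k l)))) = 0 := by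
        rw [← e]
        simp only [smul_sub, smul_add, Complex.ofReal_neg, Complex.ofReal_ofNat, neg_smul,
          neg_add, add_mul, mul_add, neg_mul, mul_neg, smul_neg, neg_neg, smul_smul]
        module
      rcases smul_eq_zero.mp e' with h2 | h2
      · exact absurd h2 two_ne_zero
      · exact h2
    have := four_smul_cancel this
    rw [← c1, ← c2, r, sub_self, add_zero] at this
    exact (sub_eq_zero.mp (add_self_zero this)).symm

end Pool.Agent.Hhelper14.EW
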