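import Pool.Agent.Hhelper14.EW.Conv

set_option autoImplicit false
set_option linter.unusedSectionVars false

/-!
# The curvature endomorphism on the spin part
-/

namespace Pool.Agent.Hhelper14.EW

open scoped ComplexConjugate InnerProductSpace

variable {n : ℕ} {H : Type*} [NormedAddCommGroup H] [InnerProductSpace ℂ H]
  {L : Fin n → Fin n → Module.End ℂ H}

/-- contraction of a tensor with a family of vectors -/
noncomputable def cs (R : Tens n) (g : Fin n → Fin n → Fin n → Fin n → H) : H :=
  ∑ i, ∑ j, ∑ k, ∑ l, ((R i j k l : ℝ) : ℂ) • g i j k l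

theorem cs_add (R : Tens n) (f g : Fin n → Fin n → Fin n → Fin n → H) :
    cs R (fun i j k l => f i j k l + g i j k l) = cs R f + cs R g := by
  unfold cs
  simp only [smul_add, Finset.sum_add_distrib]

theorem cs_sub (R : Tens n) (f g : Fin n → Fin n → Fin n → Fin n → H) :
    cs R (fun i j k l => f i j k l - g i j k l) = cs R f - cs R g := by
  unfold cs
  simp only [smul_sub, Finset.sum_sub_distrib]

theorem cs_smul (R : Tens n) (c : ℂ) (f : Fin n → Fin n → Fin n → Fin n → H) :
    cs R (fun i j k l => c • f i j k l) = c • cs R f := by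
  unfold cs
  simp only [Finset.smul_sum, smul_comm c]

theorem cs_swap1 {R : Tens n} (hR : IsCurv R) (g : Fin n → Fin n → Fin n → Fin n → H) :
    cs R (fun i j k l => g j i k l) = - cs R g := by
  unfold cs
  rw [Finset.sum_comm, ← Finset.sum_neg_distrib]
  refine Finset.sum_congr rfl fun i _ => ?_
  rw [← Finset.sum_neg_distrib]
  refine Finset.sum_congr rfl fun j _ => ?_
  rw [← Finset.sum_neg_distrib]
  refine Finset.sum_congr rfl fun k _ => ?_
  rw [← Finset.sum_neg_distrib]
  refine Finset.sum_congr rfl fun l _ => ?_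
  rw [hR.anti₁ j i k l]
  push_cast
  rw [neg_smul]

theorem cs_swap2 {R : Tens n} (hR : IsCurv R) (g : Fin n → Fin n → Fin n → Fin n → H) :
    cs R (fun i j k l => g i j l k) = - cs R g := by
  unfold cs
  rw [← Finset.sum_neg_distrib]
  refine Finset.sum_congr rfl fun i _ => ?_
  rw [← Finset.sum_neg_distrib]
  refine Finset.sum_congr rfl fun j _ => ?_
  rw [Finset.sum_comm, ← Finset.sum_neg_distrib]
  refine Finset.sum_congr rfl fun k _ => ?_
  rw [← Finset.sum_neg_distrib]
  refine Finset.sum_congr rfl fun l _ => ?_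
  rw [hR.anti₂ i j l k]
  push_cast
  rw [neg_smul]

theorem cs_delta {lam : ℝ} {R : Tens n} (hE : IsEinstein lam R) (f : Fin n → Fin n → H) :
    cs R (fun i j k l => if i = k then f j l else 0) = (lam : ℂ) • ∑ j, f j j := by
  unfold cs
  rw [Finset.sum_comm, Finset.smul_sum]
  refine Finset.sum_congr rfl fun j _ => ?_
  have e1 : ∀ i, ∑ k, ∑ l, ((R i j k l : ℝ) : ℂ) • (if i = k then f j l else 0)
      = ∑ l, ((R i j i l : ℝ) : ℂ) • f j l := by
    intro i
    rw [Finset.sum_eq_single i]
    · simp
    · intro b _ hb; simp [Ne.symm hb]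
    · simp
  simp only [e1]
  rw [Finset.sum_comm]
  have e2 : ∀ l, ∑ i, ((R i j i l : ℝ) : ℂ) • f j l = if j = l then (lam : ℂ) • f j l else 0 := by
    intro l
    rw [← Finset.sum_smul]
    have : ∑ i, ((R i j i l : ℝ) : ℂ) = ((ric R j l : ℝ) : ℂ) := by
      unfold ric; rw [Complex.ofReal_sum]
    rw [this, hE j l]
    by_cases h : j = l
    · simp [h]
    · simp [h]
  simp only [e2, Finset.sum_ite_eq, Finset.mem_univ, if_true]

theorem q_spin {H2 : Submodule ℂ H} (h : IsRep L) (h2 : SpinOn L H2) {lam : ℝ} {R : Tens n}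
    (hR : IsCurv R) (hE : IsEinstein lam R) {x : H} (hx : x ∈ H2) :
    q L R x = ((n * lam / 8 : ℝ) : ℂ) • x := by
  have ld : ∀ i (y : H), L i i y = 0 := fun i y => by rw [L_diag h]; rfl
  have d0 : cs R (fun i j k l => if i = k then L j l x else 0) = 0 := by
    rw [cs_delta hE]
    simp [ld]
  have d1 : cs R (fun i j k l => if j = k then L i l x else 0) = 0 := by
    rw [cs_swap1 hR (fun i j k l => if i = k then L j l x else 0), d0, neg_zero]
  have d2 : cs R (fun i j k l => if i = l then L j k x else 0) = 0 := by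
    rw [cs_swap2 hR (fun i j k l => if i = k then L j l x else 0), d0, neg_zero]
  have d3 : cs R (fun i j k l => if j = l then L i k x else 0) = 0 := by
    rw [cs_swap1 hR (fun i j k l => if i = l then L j k x else 0), d2, neg_zero]
  have f0 : cs R (fun i j k l => if i = k then (if j = l then x else 0) else 0)
      = ((n * lam : ℝ) : ℂ) • x := by
    rw [cs_delta hE (fun j l => if j = l then x else 0)]
    simp only [if_true, Finset.sum_const, Finset.card_univ, Fintype.card_fin]
    rw [← Nat.cast_smul_eq_nsmul ℂ, smul_smul]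
    push_cast
    rw [mul_comm]
  have f1 : cs R (fun i j k l => if i = l then (if j = k then x else 0) else 0)
      = -(((n * lam : ℝ) : ℂ) • x) := by
    rw [cs_swap2 hR (fun i j k l => if i = k then (if j = l then x else 0) else 0), f0]
  have f2 : cs R (MM L x) = 0 := sum_MM h h2 hx hR
  have key : opr L R x = cs R (fun i j k l => (MM L x i j k l
      + (1 / 2 : ℂ) • ((if j = k then L i l x else 0) - (if i = k then L j l x else 0)
        - (if j = l then L i k x else 0) + (if i = l then L j k x else 0)))
      - (1 / 4 : ℂ) • ((if i = k then (if j = l then x else 0) else 0)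
        - (if i = l then (if j = k then x else 0) else 0))) := by
    rw [opr_apply]
    unfold cs
    refine Finset.sum_congr rfl fun i _ => Finset.sum_congr rfl fun j _ => ?_
    refine Finset.sum_congr rfl fun k _ => Finset.sum_congr rfl fun l _ => ?_
    rw [spin_T h h2 hx i j k l]
  unfold q
  rw [LinearMap.smul_apply, key, cs_sub, cs_add, cs_smul, cs_smul, cs_add, cs_sub, cs_sub, cs_sub,
    d0, d1, d2, d3, f0, f1]
  rw [show cs R (fun i j k l => MM L x i j k l) = 0 from f2]
  rw [sub_zero, sub_zero, add_zero, smul_zero, add_zero, zero_sub, sub_neg_eq_add, ← two_smul ℂ,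
    smul_neg, smul_smul, smul_smul, smul_smul, ← neg_smul]
  congr 1
  push_cast
  ring

end Pool.Agent.Hhelper14.EW
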