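import Pool.Agent.Hhelper14.EW.Geo

set_option autoImplicit false
set_option linter.unusedSectionVars false

/-!
# Boundedness on Einstein tensors forces the relations
-/

namespace Pool.Agent.Hhelper14.EW

open scoped ComplexConjugate InnerProductSpace

variable {n : ℕ}

theorem IsCurv.pair {R : Tens n} (h : IsCurv R) (i j k l : Fin n) : R i j k l = R k l i j := by
  have b1 := h.bianchi i j k l
  have b2 := h.bianchi j k l i
  have b3 := h.bianchi k l i j
  have b4 := h.bianchi l i j k
  have a1 := h.anti₂ j k i l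
  have a2 := h.anti₂ k l j i
  have a3 := h.anti₁ l j k i
  have a3' := h.anti₂ j l k i
  have a4 := h.anti₁ k i j l
  have a4' := h.anti₂ i k j l
  have a5 := h.anti₂ l i k j
  have a6 := h.anti₂ i j l k
  linarith

theorem sum4_swap {M : Type*} [AddCommMonoid M] (g : Fin n → Fin n → Fin n → Fin n → M) :
    ∑ i, ∑ j, ∑ k, ∑ l, g i j k l = ∑ k, ∑ l, ∑ i, ∑ j, g i j k l := by
  calc ∑ i, ∑ j, ∑ k, ∑ l, g i j k l
      = ∑ i, ∑ k, ∑ j, ∑ l, g i j k l :=
        Finset.sum_congr rfl fun i _ => Finset.sum_comm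
    _ = ∑ k, ∑ i, ∑ j, ∑ l, g i j k l := Finset.sum_comm
    _ = ∑ k, ∑ i, ∑ l, ∑ j, g i j k l :=
        Finset.sum_congr rfl fun k _ => Finset.sum_congr rfl fun i _ => Finset.sum_comm
    _ = ∑ k, ∑ l, ∑ i, ∑ j, g i j k l := Finset.sum_congr rfl fun k _ => Finset.sum_comm

/-- the curvature tensor of constant sectional curvature `c` -/
def cst (c : ℝ) : Tens n := fun i j k l =>
  c * ((if i = k then 1 else 0) * (if j = l then 1 else 0)
    - (if i = l then 1 else 0) * (if j = k then 1 else 0))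

theorem isCurv_cst (c : ℝ) : IsCurv (cst c : Tens n) where
  anti₁ i j k l := by unfold cst; ring
  anti₂ i j k l := by unfold cst; ring
  bianchi i j k l := by
    unfold cst
    simp only [eq_comm (a := k) (b := i), eq_comm (a := j) (b := i), eq_comm (a := k) (b := j)]
    ring

theorem ric_cst (c : ℝ) (j l : Fin n) :
    ric (cst c : Tens n) j l = if j = l then c * (n - 1) else 0 := by
  unfold ric cst
  by_cases h : j = l
  · subst h
    have : ∀ i : Fin n, c * ((if i = i then (1:ℝ) else 0) * (if j = j then 1 else 0)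
        - (if i = j then 1 else 0) * (if j = i then 1 else 0))
        = c - (if i = j then c else 0) := by
      intro i
      by_cases hi : i = j
      · subst hi; simp
      · simp [hi]
    rw [Finset.sum_congr rfl fun i _ => this i, if_pos rfl, Finset.sum_sub_distrib,
      Finset.sum_const, Finset.card_univ, Fintype.card_fin, Finset.sum_ite_eq', if_pos
      (Finset.mem_univ j), nsmul_eq_mul]
    ring
  · rw [show (if j = l then c * ((n : ℝ) - 1) else 0) = 0 from if_neg h]
    refine Finset.sum_eq_zero fun i _ => ?_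
    by_cases hi : i = l
    · subst hi; simp [h]
    · simp [h, hi]

theorem isEinstein_cst (hn : 5 ≤ n) (lam : ℝ) : IsEinstein lam (cst (lam / (n - 1)) : Tens n) := by
  intro j l
  have : (n : ℝ) - 1 ≠ 0 := by
    have : (5 : ℝ) ≤ n := by exact_mod_cast hn
    linarith
  rw [ric_cst, div_mul_cancel₀ _ this]

variable {H : Type*} [NormedAddCommGroup H] [InnerProductSpace ℂ H]

theorem opr_apply (L : Fin n → Fin n → Module.End ℂ H) (R : Tens n) (x : H) :
    opr L R x = ∑ i, ∑ j, ∑ k, ∑ l, ((R i j k l : ℝ) : ℂ) • (L i j (L k l x)) := by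
  unfold opr
  simp only [LinearMap.sum_apply, LinearMap.smul_apply, Module.End.mul_apply]

theorem opr_symm {L : Fin n → Fin n → Module.End ℂ H} (h : IsRep L) {R : Tens n} (hR : IsCurv R)
    (x y : H) : ⟪opr L R x, y⟫_ℂ = ⟪x, opr L R y⟫_ℂ := by
  rw [opr_apply, opr_apply]
  simp only [sum_inner, inner_sum, inner_smul_left, inner_smul_right, Complex.conj_ofReal]
  rw [sum4_swap]
  refine Finset.sum_congr rfl fun k _ => Finset.sum_congr rfl fun l _ => ?_
  refine Finset.sum_congr rfl fun i _ => Finset.sum_congr rfl fun j _ => ?_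
  rw [hR.pair k l i j, h.skew i j, h.skew k l, neg_neg]

theorem lin_zero {a b C : ℝ} (h : ∀ t : ℝ, C ≤ a + t * b) : b = 0 := by
  by_contra hb
  have := h ((C - a - 1) / b)
  rw [div_mul_cancel₀ _ hb] at this
  linarith

theorem lin_zero' {a b C : ℝ} (h : ∀ t : ℝ, a + t * b ≤ C) : b = 0 := by
  by_contra hb
  have := h ((C - a + 1) / b)
  rw [div_mul_cancel₀ _ hb] at this
  linarith

theorem re_q_add (L : Fin n → Fin n → Module.End ℂ H) (R W : Tens n) (t : ℝ) (x : H) :
    (⟪q L (R + t • W) x, x⟫_ℂ).re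
      = (⟪q L R x, x⟫_ℂ).re + t * (-(1/4) * (⟪opr L W x, x⟫_ℂ).re) := by
  unfold q
  rw [opr_add, opr_smul]
  simp only [LinearMap.smul_apply, LinearMap.add_apply, smul_add, inner_add_left, inner_smul_left,
    Complex.add_re, Complex.conj_ofReal]
  have : (starRingEnd ℂ) (-(1 / 4) : ℂ) = ((-(1/4) : ℝ) : ℂ) := by
    rw [show (-(1 / 4) : ℂ) = ((-(1/4) : ℝ) : ℂ) by push_cast; ring, Complex.conj_ofReal]
  rw [this]
  congr 1
  rw [Complex.re_ofReal_mul, Complex.re_ofReal_mul]
  ring

theorem weyl_zero (hn : 5 ≤ n) {L : Fin n → Fin n → Module.End ℂ H} (h : IsRep L) {lam : ℝ}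
    (hb : BddBelowOn L lam ∨ BddAboveOn L lam) {W : Tens n} (hW : IsCurv W)
    (hr : ∀ j l, ric W j l = 0) : opr L W = 0 := by
  have hE : ∀ t : ℝ, IsCurv ((cst (lam / (n - 1)) : Tens n) + t • W) ∧
      IsEinstein lam ((cst (lam / (n - 1)) : Tens n) + t • W) := by
    intro t
    refine ⟨(isCurv_cst _).add (hW.smul t), ?_⟩
    intro j l
    rw [ric_add, ric_smul, hr, mul_zero, add_zero]
    exact isEinstein_cst hn lam j l
  have hre : ∀ x : H, (⟪opr L W x, x⟫_ℂ).re = 0 := by
    intro x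
    rcases hb with ⟨C, hC⟩ | ⟨C, hC⟩
    · have : ∀ t : ℝ, C * ‖x‖ ^ 2 ≤ (⟪q L (cst (lam / (n - 1))) x, x⟫_ℂ).re
          + t * (-(1/4) * (⟪opr L W x, x⟫_ℂ).re) := by
        intro t
        rw [← re_q_add]
        exact hC _ (hE t).1 (hE t).2 x
      have := lin_zero this
      linarith
    · have : ∀ t : ℝ, (⟪q L (cst (lam / (n - 1))) x, x⟫_ℂ).re
          + t * (-(1/4) * (⟪opr L W x, x⟫_ℂ).re) ≤ C * ‖x‖ ^ 2 := by
        intro t
        rw [← re_q_add]
        exact hC _ (hE t).1 (hE t).2 x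
      have := lin_zero' this
      linarith
  have hz : ∀ x : H, ⟪opr L W x, x⟫_ℂ = 0 := by
    intro x
    apply Complex.ext
    · rw [hre x]; rfl
    · have e := opr_symm h hW x x
      have e2 : (starRingEnd ℂ) ⟪opr L W x, x⟫_ℂ = ⟪opr L W x, x⟫_ℂ := by
        rw [inner_conj_symm, e]
      have := Complex.conj_eq_iff_im.mp e2
      rw [this]; rfl
  exact (inner_map_self_eq_zero (opr L W)).mp hz

end Pool.Agent.Hhelper14.EW
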